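import Pool.Agent.N98.VG.Basic
import Pool.Agent.N98.RW.AddC

/-!
Adding components to the boundary: the values of the local equations.
-/

set_option autoImplicit false
set_option linter.unusedVariables false
set_option linter.unusedSimpArgs false
set_option linter.unusedSectionVars false

universe u

open Polynomial

namespace Pool.Agent.N98.VG

open Pool.Agent.N98.RV Pool.Agent.N98.RW

section relabel

variable {k K : Type u} [CommRing k] [Field K] [Algebra k K]
  {𝒱 : Set (ValuationSubring K)} {R0 R : Subalgebra k K}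
    {T I : Type}

/-- Splitting the components of the boundary according to the exponents of a function. -/
theorem exists_relabelV [Finite T] [Fintype I] (M : LM 𝒱 R0 R T I) (g : K) (E : T → I → ℤ)
    (h : ∀ t, IsM (M.A t) (M.x t) g (E t)) :
    ∃ (I' : Type) (_ : Fintype I') (M' : LM 𝒱 R0 R T I'), M'.A = M.A ∧ OvV M M' id ∧ IsB M' g := by
  classical
  have : Fintype T := Fintype.ofFinite T
  let S : Finset ℤ := Finset.univ.image fun p : T × I => E p.1 p.2
  have hS : ∀ t i, E t i ∈ S := fun t i =>
    Finset.mem_image.2 ⟨(t, i), Finset.mem_univ _, rfl⟩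
  let x' : T → I × S → K := fun t p => if E t p.1 = p.2 then M.x t p.1 else 1
  have hx1 : ∀ t (p : I × S), E t p.1 = p.2 → x' t p = M.x t p.1 := fun t p hp => if_pos hp
  have hx2 : ∀ t (p : I × S), E t p.1 ≠ p.2 → x' t p = 1 := fun t p hp => if_neg hp
  have hprod : ∀ t (γ : I × S → ℤ), ∏ p, x' t p ^ γ p = ∏ i, M.x t i ^ γ (i, ⟨E t i, hS t i⟩) := by
    intro t γ
    rw [Fintype.prod_prod_type]
    refine Finset.prod_congr rfl fun i _ => ?_
    rw [Finset.prod_eq_single (⟨E t i, hS t i⟩ : S)]
    · rw [hx1 t (i, ⟨E t i, hS t i⟩) rfl]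
    · intro e _ he
      rw [hx2 t (i, e), one_zpow]
      intro h1
      exact he (Subtype.ext h1.symm)
    · intro h
      exact absurd (Finset.mem_univ _) h
  let M' : LM 𝒱 R0 R T (I × S) :=
    { A := M.A, ne := M.ne, H := M.H, x := x', ft := M.ft, base := M.base, H0 := M.H0,
      rt := M.rt, gl := M.gl, cv := M.cv
      q := fun t => (M.q t).same fun i => by
        rw [← hx1 t (i, ⟨E t i, hS t i⟩) rfl]
        exact Mo.gen _
      xA := by
        intro t p
        by_cases hp : E t p.1 = p.2
        · rw [hx1 t p hp]; exact M.xA t p.1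
        · rw [hx2 t p hp]; exact (M.A t).one_mem
      x0 := by
        intro t p
        by_cases hp : E t p.1 = p.2
        · rw [hx1 t p hp]; exact M.x0 t p.1
        · rw [hx2 t p hp]; exact one_ne_zero
      gi := by
        intro t t' p
        by_cases hp : E t p.1 = p.2
        · by_cases hp' : E t' p.1 = p.2
          · rw [hx1 t p hp, hx1 t' p hp']; exact M.gi t t' p.1
          · rw [hx1 t p hp, hx2 t' p hp']
            apply exists_of_mem_OV M
            rw [one_div]
            exact inv_mem_OV M (h t) (h t') p.1 (fun h1 => hp' (h1 ▸ hp))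
        · by_cases hp' : E t' p.1 = p.2
          · rw [hx2 t p hp, hx1 t' p hp', div_one]
            exact M.gl t t' _ (M.xA t' p.1)
          · rw [hx2 t p hp, hx2 t' p hp']
            exact ⟨0, by rw [pow_zero, one_mul, div_one]; exact (M.A t).one_mem⟩
      rg := by
        intro t
        have h1 : ∀ p, x' t p ∈ (M.A t).toSubring := by
          intro p
          by_cases hp : E t p.1 = p.2
          · rw [hx1 t p hp]; exact M.xA t p.1
          · rw [hx2 t p hp]; exact (M.A t).one_mem
        have h2 : ∀ p, (x' t p)⁻¹ ∉ (M.A t).toSubring → E t p.1 = p.2 := by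
          intro p hp
          by_contra hne
          apply hp
          rw [hx2 t p hne, inv_one]
          exact (M.A t).one_mem
        refine (M.rg t).reindex (x' t) ?_ h1 (fun p => p.1.1) ?_ ?_
        · intro p
          by_cases hp : E t p.1 = p.2
          · rw [hx1 t p hp]; exact M.x0 t p.1
          · rw [hx2 t p hp]; exact one_ne_zero
        · rintro ⟨p, hp⟩ ⟨q, hq⟩ hpq
          have h3 : p.1 = q.1 := hpq
          apply Subtype.ext
          refine Prod.ext h3 (Subtype.ext ?_)
          change (p.2 : ℤ) = q.2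
          rw [← h2 p hp, ← h2 q hq, h3]
        · intro p
          refine ⟨1, (M.A t).one_mem, by rw [inv_one]; exact (M.A t).one_mem, ?_⟩
          rw [one_mul, hx1 t p.1 (h2 p.1 p.2)] }
  have hMx : ∀ t p, M'.x t p = x' t p := fun _ _ => rfl
  refine ⟨I × S, inferInstance, M', rfl, ⟨⟨fun t => le_rfl, ?_, ?_⟩, ?_⟩, ?_⟩
  · rintro f ⟨γ, hf⟩
    refine ⟨fun p => γ p.1, fun t => ?_⟩
    obtain ⟨w, h0, h1, h2, h3⟩ := hf t
    exact ⟨w, h0, h1, h2, by rw [h3]; congr 1; exact (hprod t (fun p => γ p.1)).symm⟩
  · rintro t D ⟨hD, hD'⟩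
    refine ⟨hD, fun p => ?_⟩
    change D (x' t p) / x' t p ∈ M.A t
    by_cases hp : E t p.1 = p.2
    · rw [hx1 t p hp]; exact hD' p.1
    · rw [hx2 t p hp, Derivation.map_one_eq_zero, zero_div]; exact (M.A t).zero_mem
  · intro V P hP hM t ht p
    change P (x' t p)
    by_cases hp : E t p.1 = p.2
    · rw [hx1 t p hp]; exact hM t ht p.1
    · rw [hx2 t p hp]; exact hP.one
  · refine ⟨fun p => p.2, fun t => ?_⟩
    obtain ⟨w, h0, h1, h2, h3⟩ := h t
    exact ⟨w, h0, h1, h2, by rw [h3]; congr 1; exact (hprod t (fun p => p.2)).symm⟩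

end relabel

section add

variable {k K : Type u} [CommRing k] [Field K] [Algebra k K]
  {𝒱 : Set (ValuationSubring K)} {R0 R : Subalgebra k K}
    {T I : Type}

/-- Adding the divisor of a function, which is locally a boundary function or a boundary function
times a coordinate. -/
theorem exists_addcV [Finite T] [Fintype I] (M : LM 𝒱 R0 R T I) (G : K) (hG : G ≠ 0) (N : ℕ)
    (hN : IsUnit (N : k)) (ty : T → Prop) (E : T → I → ℤ) (μ : T → K)
    (θ : T → Derivation k K K) (hθ : ∀ t, LDt M t (θ t))
    (hA : ∀ t, ¬ ty t → IsM (M.A t) (M.x t) (G ^ N) (E t))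
    (hB : ∀ t, ty t → IsM (M.A t) (M.x t) (μ t ^ N) (E t) ∧ G / μ t ∈ M.A t ∧ θ t G = μ t) :
    ∃ (I' : Type) (_ : Fintype I') (M' : LM 𝒱 R0 R T I'), M'.A = M.A ∧
      (∀ g, IsB M g → IsB M' g) ∧ IsB M' (G ^ N) ∧ (∀ t, ¬ ty t → LDt M' t (θ t)) ∧
      (∀ t, ty t → LDt M' t ((G / μ t) • θ t)) ∧
      ∀ (V : ValuationSubring K) (P : K → Prop), Sat k V P → VG M V P → P G → VG M' V P := by
  classical
  have hN0 : N ≠ 0 := ne_zero_of_isUnit (K := K) hN
  have hμ0 : ∀ t, ty t → μ t ≠ 0 := by
    intro t ht h0
    apply (hB t ht).1.ne (M.x0 t)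
    rw [h0, zero_pow hN0]
  -- the logarithmic derivative of `μ t'`
  have hμ : ∀ t t', ty t' → θ t (μ t') / μ t' ∈ OV M t t' := by
    intro t t' ht'
    have h1 := logD_OV M (hB t' ht').1 (hθ t)
    rw [logD_pow _ (hμ0 t' ht')] at h1
    exact mem_of_natCast_mul hN h1
  have hμ' : ∀ t, ty t → θ t (μ t) / μ t ∈ M.A t := by
    intro t ht
    have h1 := (hB t ht).1.logD (M.xA t) (M.x0 t) (θ t) (hθ t).1 (hθ t).2
    rw [logD_pow _ (hμ0 t ht)] at h1
    exact mem_of_natCast_mul hN h1
  let h : T → K := fun t => if ty t then G / μ t else 1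
  have h1 : ∀ t, ty t → h t = G / μ t := fun t ht => if_pos ht
  have h2 : ∀ t, ¬ ty t → h t = 1 := fun t ht => if_neg ht
  have hmem : ∀ t, h t ∈ M.A t := by
    intro t
    by_cases ht : ty t
    · rw [h1 t ht]; exact (hB t ht).2.1
    · rw [h2 t ht]; exact (M.A t).one_mem
  have hne : ∀ t, h t ≠ 0 := by
    intro t
    by_cases ht : ty t
    · rw [h1 t ht]; exact div_ne_zero hG (hμ0 t ht)
    · rw [h2 t ht]; exact one_ne_zero
  -- the gluing
  have hgi : ∀ t t', h t' / h t ∈ OV M t t' := by
    intro t t'
    by_cases ht : ty t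
    · have e1 : (1 : K) / h t = θ t G / G := by
        rw [h1 t ht, (hB t ht).2.2, one_div_div]
      by_cases ht' : ty t'
      · have e2 : h t' / h t = θ t (h t') + h t' * (θ t (μ t') / μ t') := by
          have e3 : h t' / h t = h t' * (1 / h t) := by rw [mul_one_div]
          have e4 : G = h t' * μ t' := by
            rw [h1 t' ht', div_mul_cancel₀ _ (hμ0 t' ht')]
          rw [e3, e1]
          conv_lhs => rw [e4, Derivation.leibniz]
          simp only [smul_eq_mul]
          have := hne t'
          have := hμ0 t' ht'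
          field_simp
          ring
        rw [e2]
        have h3 : h t' ∈ OV M t t' := le_OV' M t t' (hmem t')
        exact (OV M t t').add_mem ((ld_OV M t' (hθ t)).1 _ h3)
          ((OV M t t').mul_mem h3 (hμ t t' ht'))
      · rw [h2 t' ht', e1]
        have h3 := logD_OV M (hA t' ht') (hθ t)
        rw [logD_pow _ hG] at h3
        exact mem_of_natCast_mul hN h3
    · rw [h2 t ht, div_one]
      exact le_OV' M t t' (hmem t')
  let x' : T → Option I → K := fun t o => o.elim (h t) (M.x t)
  let M1 : LM 𝒱 R0 R T (Option I) :=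
    { A := M.A, ne := M.ne, H := M.H, x := x', ft := M.ft, base := M.base, H0 := M.H0,
      rt := M.rt, gl := M.gl, cv := M.cv
      q := fun t => (M.q t).same fun i => Mo.gen (x := x' t) (some i)
      xA := by
        rintro t (_ | i)
        · exact hmem t
        · exact M.xA t i
      x0 := by
        rintro t (_ | i)
        · exact hne t
        · exact M.x0 t i
      gi := by
        rintro t t' (_ | i)
        · exact exists_of_mem_OV M (hgi t t')
        · exact M.gi t t' i
      rg := by
        intro t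
        refine (M.rg t).add (hmem t) (hne t) ((θ t).restrictScalars ℤ) (hθ t).1 (hθ t).2 ?_
        intro W hW hAW hhW
        by_cases ht : ty t
        · have e : θ t (h t) = 1 - θ t (μ t) / μ t * h t := by
            rw [h1 t ht, div_eq_mul_inv G, Derivation.leibniz, Derivation.leibniz_inv,
              (hB t ht).2.2]
            simp only [smul_eq_mul]
            have := hμ0 t ht
            field_simp
            ring
          change θ t (h t) ≠ 0 ∧ (θ t (h t))⁻¹ ∈ W
          rw [e]
          rcases hW (θ t (μ t) / μ t * h t) (W.mul_mem (hAW (hμ' t ht)) (hAW (hmem t))) with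
            h3 | h3
          · exfalso
            apply hhW
            have e2 : (h t)⁻¹ = θ t (μ t) / μ t * (θ t (μ t) / μ t * h t)⁻¹ := by
              have h4 : θ t (μ t) / μ t ≠ 0 := left_ne_zero_of_mul h3.1
              rw [mul_inv, ← mul_assoc, mul_inv_cancel₀ h4, one_mul]
            rw [e2]
            exact W.mul_mem (hAW (hμ' t ht)) h3.2
          · exact h3
        · exfalso
          apply hhW
          rw [h2 t ht, inv_one]
          exact W.one_mem }
  have hM1A : M1.A = M.A := rfl
  have hM1x : ∀ t o, M1.x t o = o.elim (h t) (M.x t) := fun _ _ => rfl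
  have hB1 : ∀ g, IsB M g → IsB M1 g := by
    rintro g ⟨γ, hg⟩
    refine ⟨fun o => o.elim 0 γ, fun t => ?_⟩
    obtain ⟨w, h0, h1, h2, h3⟩ := hg t
    refine ⟨w, h0, h1, h2, ?_⟩
    rw [h3]
    simp only [Fintype.prod_option, hM1x, Option.elim, zpow_zero, one_mul]
  have hE1 : ∀ t, IsM (M1.A t) (M1.x t) (G ^ N) (fun o => o.elim (N : ℤ) (E t)) := by
    intro t
    by_cases ht : ty t
    · obtain ⟨w, h0, h3, h4, h5⟩ := (hB t ht).1
      refine ⟨w, h0, h3, h4, ?_⟩
      simp only [Fintype.prod_option, hM1x, Option.elim]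
      rw [h1 t ht, zpow_natCast, div_pow]
      have e := hμ0 t ht
      have e' : μ t ^ N ≠ 0 := pow_ne_zero _ e
      have e2 : w * (G ^ N / μ t ^ N * ∏ i, M.x t i ^ E t i) =
          G ^ N / μ t ^ N * (w * ∏ i, M.x t i ^ E t i) := by ring
      rw [e2, ← h5, div_mul_cancel₀ _ e']
    · obtain ⟨w, h0, h3, h4, h5⟩ := hA t ht
      refine ⟨w, h0, h3, h4, ?_⟩
      simp only [Fintype.prod_option, hM1x, Option.elim]
      rw [h2 t ht, one_zpow, one_mul]
      exact h5
  obtain ⟨I', i1, M', hA', hO, hG'⟩ := exists_relabelV M1 (G ^ N) _ hE1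
  refine ⟨I', i1, M', hA', fun g hg => hO.bf g (hB1 g hg), hG', ?_, ?_, ?_⟩
  · intro t ht
    refine hO.ld t _ ⟨(hθ t).1, ?_⟩
    rintro (_ | i)
    · change θ t (h t) / h t ∈ M.A t
      rw [h2 t ht, Derivation.map_one_eq_zero, zero_div]
      exact (M.A t).zero_mem
    · exact (hθ t).2 i
  · intro t ht
    have h3 := (hB t ht).2.1
    refine hO.ld t _ ⟨?_, ?_⟩
    · intro f hf
      rw [Derivation.smul_apply, smul_eq_mul]
      exact (M.A t).mul_mem h3 ((hθ t).1 f hf)
    · rintro (_ | i)
      · change ((G / μ t) • θ t) (h t) / h t ∈ M.A t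
        rw [Derivation.smul_apply, smul_eq_mul, mul_div_assoc]
        have e : G / μ t * (θ t (h t) / h t) = θ t (h t) := by
          rw [← h1 t ht]
          have := hne t
          field_simp
        rw [e]
        exact (hθ t).1 _ (hmem t)
      · change ((G / μ t) • θ t) (M.x t i) / M.x t i ∈ M.A t
        rw [Derivation.smul_apply, smul_eq_mul, mul_div_assoc]
        exact (M.A t).mul_mem h3 ((hθ t).2 i)
  · intro V P hP hM hPG
    refine hO.vg V P hP fun t ht o => ?_
    rw [hM1x]
    rcases o with _ | i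
    · change P (h t)
      by_cases htt : ty t
      · rw [h1 t htt]
        refine hP.div hPG (hP.root _ N hN (hμ0 t htt) ?_)
        exact hP.isM ht (hM t ht) (hB t htt).1
      · rw [h2 t htt]
        exact hP.one
    · exact hM t ht i

end add

end Pool.Agent.N98.VG
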