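import Mathlib

/-!
Divisibility in finitely generated groups of values.
-/

set_option autoImplicit false
set_option linter.unusedVariables false
set_option linter.unusedSectionVars false

universe u

namespace Pool.Agent.N98.VG

/-- In a finitely generated torsion-free group, a nontrivial element is divisible only by finitely
many powers of `p`. -/
theorem fg_div {G : Type*} [AddCommGroup G] [Module.Finite ℤ G]
    (ht : ∀ (n : ℕ) (g : G), n ≠ 0 → n • g = 0 → g = 0) (a : G) (ha : a ≠ 0) (p : ℕ)
    (hp : 2 ≤ p) : ∃ j0 : ℕ, ∀ j, j0 ≤ j → ∀ g : G, (p ^ j) • g ≠ a := by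
  classical
  have htf : Module.IsTorsionFree ℤ G := by
    refine ⟨fun n hn g h hgh => ?_⟩
    have hn0 : n ≠ 0 := hn.ne_zero
    have h1 : n • (g - h) = 0 := by
      rw [smul_sub]
      exact sub_eq_zero.2 hgh
    have h2 : n.natAbs • (g - h) = 0 := by
      rcases Int.natAbs_eq n with h3 | h3
      · rw [h3] at h1
        rw [← natCast_zsmul]
        exact h1
      · rw [h3, neg_smul, neg_eq_zero] at h1
        rw [← natCast_zsmul]
        exact h1
    exact sub_eq_zero.1 (ht _ _ (Int.natAbs_ne_zero.2 hn0) h2)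
  have hfree : Module.Free ℤ G := Module.free_of_finite_type_torsion_free'
  let b := Module.Free.chooseBasis ℤ G
  have h1 : ∃ i, b.repr a i ≠ 0 := by
    by_contra hcon
    push Not at hcon
    apply ha
    apply b.repr.injective
    rw [map_zero]
    ext i
    exact hcon i
  obtain ⟨i, hi⟩ := h1
  refine ⟨(b.repr a i).natAbs, fun j hj g hg => ?_⟩
  have h2 : b.repr a i = (p ^ j : ℕ) * b.repr g i := by
    rw [← hg, map_nsmul]
    simp
  have h3 : p ^ j ∣ (b.repr a i).natAbs := by
    rw [h2, Int.natAbs_mul, Int.natAbs_natCast]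
    exact Dvd.intro _ rfl
  have h4 := Nat.le_of_dvd (Int.natAbs_pos.2 hi) h3
  have h5 : j < p ^ j := Nat.lt_pow_self (by omega)
  omega

/-- The value of `π` is not divisible by large powers of `p` in a finitely generated group of
values. -/
theorem val_div {Γ : Type*} [LinearOrderedCommGroupWithZero Γ] (S : Set Γˣ) (hS : S.Finite)
    (a : Γˣ) (ha : a ≠ 1) (haS : a ∈ Subgroup.closure S) (p : ℕ) (hp : p.Prime) :
    ∃ j0 : ℕ, ∀ j, j0 ≤ j → ∀ s ∈ Subgroup.closure S, ∀ A : ℤ, ¬ (p : ℤ) ∣ A →
      a ^ A ≠ s ^ (p ^ j) := by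
  classical
  have hfg : (Subgroup.closure S).FG := ⟨hS.toFinset, by rw [hS.coe_toFinset]⟩
  have hfin : Module.Finite ℤ (Additive (Subgroup.closure S)) := by
    rw [Module.Finite.iff_addGroup_fg]
    have : Group.FG (Subgroup.closure S) := (Group.fg_iff_subgroup_fg _).2 hfg
    exact inferInstance
  obtain ⟨j0, hj0⟩ := fg_div (G := Additive (Subgroup.closure S)) (by
    intro n g hn hg
    have h1 : (Additive.toMul g) ^ n = 1 := by
      have := congrArg Additive.toMul hg
      rwa [toMul_nsmul, toMul_zero] at this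
    have h2 : ((Additive.toMul g : Subgroup.closure S) : Γˣ) ^ n = 1 := by
      rw [← Subgroup.coe_pow, h1, Subgroup.coe_one]
    have h3 : ((Additive.toMul g : Subgroup.closure S) : Γˣ) = 1 := by
      have h4 : (((Additive.toMul g : Subgroup.closure S) : Γˣ) : Γ) ^ n = 1 := by
        rw [← Units.val_pow_eq_pow_val, h2, Units.val_one]
      refine Units.ext ?_
      rw [Units.val_one]
      rcases lt_trichotomy (((Additive.toMul g : Subgroup.closure S) : Γˣ) : Γ) 1 with h5 | h5 | h5
      · exact absurd h4 (pow_lt_one₀ zero_le' h5 hn).ne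
      · exact h5
      · exact absurd h4 (one_lt_pow₀ h5 hn).ne'
    have h5 : Additive.toMul g = 1 := Subtype.ext h3
    exact Additive.toMul.injective (by rw [h5]; rfl)) (Additive.ofMul ⟨a, haS⟩) (by
      intro h
      apply ha
      have h1 := congrArg (fun z => ((Additive.toMul z : Subgroup.closure S) : Γˣ)) h
      exact h1) p hp.two_le
  refine ⟨j0, fun j hj s hs A hA hcon => ?_⟩
  have hcop : IsCoprime A ((p ^ j : ℕ) : ℤ) := by
    rw [Nat.cast_pow]
    refine IsCoprime.pow_right ?_
    rw [isCoprime_comm]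
    exact (Nat.prime_iff_prime_int.1 hp).irreducible.coprime_iff_not_dvd.2 hA
  obtain ⟨u, v, huv⟩ := hcop
  refine hj0 j hj (Additive.ofMul ⟨s ^ u * a ^ v, Subgroup.mul_mem _ (Subgroup.zpow_mem _ hs _)
    (Subgroup.zpow_mem _ haS _)⟩) ?_
  apply Additive.toMul.injective
  apply Subtype.ext
  rw [toMul_nsmul]
  change (s ^ u * a ^ v) ^ (p ^ j) = a
  have e1 : a = a ^ (u * A + v * ((p ^ j : ℕ) : ℤ)) := by rw [huv, zpow_one]
  conv_rhs => rw [e1]
  rw [zpow_add, mul_pow, mul_comm u A, zpow_mul a A u, hcon, zpow_mul a v, zpow_natCast]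
  congr 1
  rw [← zpow_natCast (s ^ u), ← zpow_mul, ← zpow_natCast s, ← zpow_mul, mul_comm]

end Pool.Agent.N98.VG
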