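import Pool.Agent.N98.VG.Hlp
import Pool.Agent.N98.VG.Grp
import Pool.Agent.H176.DT.H13

/-!
Families of functions, and towers of radical extensions.
-/

set_option autoImplicit false
set_option linter.unusedVariables false
set_option linter.unusedSectionVars false

universe u

namespace Pool.Agent.N98.VG

open IsLocalRing Pool.Agent.W418.LU2 Pool.Agent.H176.DT

/-- The family of the functions. -/
theorem exists_fam {k K : Type u} [Field k] [Field K] [Algebra k K] {N : ℕ} (x : Fin N → K)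
    (A : Subring K) {W : Set K} (hW : W.Finite) {w : K} (hw : w ∈ W)
    (hWx : ∀ z ∈ W, RW.LProd (E := k) x (z / w))
    (hxA : ∀ j, ∃ b ∈ A, b ≠ 0 ∧ RW.LProd (E := k) x b ∧ b * x j ∈ A) :
    ∃ (n : ℕ) (S : Fin n → K) (q : Fin n → ℕ) (a : ∀ j, Fin (q j) → k)
      (b : ∀ j, Fin (q j) → Fin N → k) (e : ∀ j, Fin (q j) → ℤ),
      (∀ j, S j = ∏ i, (algebraMap k K (a j i) + ∑ l, algebraMap k K (b j i l) * x l) ^ e j i) ∧
      (∀ j, S j ≠ 0) ∧ (∀ z, (∃ v ∈ W, z = v / w) → z ≠ 0 → ∃ j, S j = z) ∧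
      (∃ j, S j = 1) ∧ ∃ jx : Fin N → Fin n, ∀ l, S (jx l) ∈ A ∧ S (jx l) * x l ∈ A := by
  classical
  choose bx hbxA hbx0 hbxm hbxx using hxA
  let T0 : Set K := {1} ∪ Set.range bx ∪ (fun v => v / w) '' W
  have hT0 : T0.Finite := ((Set.finite_singleton _).union (Set.finite_range bx)).union
    (hW.image _)
  have hT0m : ∀ z ∈ T0, RW.LProd (E := k) x z := by
    rintro z ((hz | ⟨j, rfl⟩) | ⟨v, hv, rfl⟩)
    · rw [Set.mem_singleton_iff.1 hz]
      exact ⟨0, Fin.elim0, Fin.elim0, Fin.elim0, by simp⟩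
    · exact hbxm j
    · exact hWx v hv
  let T1 : Finset K := hT0.toFinset.filter fun z => z ≠ 0
  have hT1 : ∀ z, z ∈ T1 ↔ z ∈ T0 ∧ z ≠ 0 := by
    intro z
    rw [Finset.mem_filter, Set.Finite.mem_toFinset]
  let eT := T1.equivFin
  let S : Fin T1.card → K := fun j => (eT.symm j : K)
  have hSs : ∀ z ∈ T0, z ≠ 0 → ∃ j, S j = z := by
    intro z hz hz0
    refine ⟨eT ⟨z, (hT1 z).2 ⟨hz, hz0⟩⟩, ?_⟩
    change ((eT.symm (eT ⟨z, _⟩) : T1) : K) = z
    rw [Equiv.symm_apply_apply]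
  have hSm : ∀ j, RW.LProd (E := k) x (S j) := fun j => hT0m _ ((hT1 _).1 (eT.symm j).2).1
  have hS0 : ∀ j, S j ≠ 0 := fun j => ((hT1 _).1 (eT.symm j).2).2
  choose q' a b e hs using hSm
  have hjx : ∀ l, ∃ j, S j = bx l := fun l => hSs _ (Or.inl (Or.inr ⟨l, rfl⟩)) (hbx0 l)
  choose jx hjx using hjx
  refine ⟨T1.card, S, q', a, b, e, hs, hS0, ?_, hSs 1 (Or.inl (Or.inl rfl)) one_ne_zero, jx,
    fun l => ?_⟩
  · rintro z ⟨v, hv, rfl⟩ hz0
    exact hSs _ (Or.inr ⟨v, hv, rfl⟩) hz0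
  · rw [hjx l]
    exact ⟨hbxA l, hbxx l⟩

/-- Towers of roots. -/
theorem exists_tower {Ω : Type u} [Field Ω] [IsAlgClosed Ω] (a : Ω) {p : ℕ} (hp : 0 < p) :
    ∃ ρ : ℕ → Ω, ρ 0 = a ∧ ∀ i d, ρ (i + d) ^ (p ^ d) = ρ i := by
  choose f hf using fun z : Ω => IsAlgClosed.exists_pow_nat_eq z hp
  let ρ : ℕ → Ω := fun n => Nat.rec a (fun _ z => f z) n
  refine ⟨ρ, rfl, fun i d => ?_⟩
  induction d with
  | zero => rw [pow_zero, pow_one, add_zero]
  | succ d ih =>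
    have h1 : ρ (i + (d + 1)) ^ p = ρ (i + d) := hf _
    rw [pow_succ', pow_mul, h1, ih]

/-- The residue characteristic. -/
theorem exists_p {K : Type u} [Field K] (V : ValuationSubring K) :
    ∃ p : ℕ, p.Prime ∧ ∀ q : ℕ, q.Prime → V.valuation (q : K) < 1 → q = p := by
  by_cases h : ∃ p : ℕ, p.Prime ∧ V.valuation (p : K) < 1
  · obtain ⟨p, hp, hpV⟩ := h
    refine ⟨p, hp, fun q hq hqV => ?_⟩
    by_contra hne
    have hcop : Nat.Coprime q p := (Nat.coprime_primes hq hp).2 hne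
    have h1 : IsCoprime (q : ℤ) (p : ℤ) := Nat.isCoprime_iff_coprime.2 hcop
    obtain ⟨u, v, huv⟩ := h1
    have h2 : (u : K) * (q : K) + (v : K) * (p : K) = 1 := by exact_mod_cast congrArg (Int.cast (R := K)) huv
    have h3 : ∀ n : ℤ, V.valuation (n : K) ≤ 1 := fun n =>
      (V.valuation_le_one_iff _).2 (intCast_mem V n)
    have h4 : V.valuation ((u : K) * (q : K) + (v : K) * (p : K)) < 1 := by
      refine (V.valuation.map_add _ _).trans_lt (max_lt ?_ ?_)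
      · rw [map_mul]
        exact (mul_le_of_le_one_left' (h3 u)).trans_lt hqV
      · rw [map_mul]
        exact (mul_le_of_le_one_left' (h3 v)).trans_lt hpV
    rw [h2, map_one] at h4
    exact lt_irrefl _ h4
  · push Not at h
    exact ⟨2, Nat.prime_two, fun q hq hqV => absurd hqV (not_lt.2 (h q hq))⟩

/-- The group of values. -/
theorem group_div {Γ : Type*} [LinearOrderedCommGroupWithZero Γ] (T : Set Γ) (hT : T.Finite)
    (a : Γ) (ha0 : a ≠ 0) (ha : a ≠ 1) (haT : a ∈ T) (p : ℕ) (hp : p.Prime) :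
    ∃ (H : Subgroup Γˣ) (j0 : ℕ), (∀ t ∈ T, ∀ h : t ≠ 0, Units.mk0 t h ∈ H) ∧
      ∀ j, j0 ≤ j → ∀ b : Γ, b ^ (p ^ j) = a → ∀ z : Γ, z ^ p = b → ∀ (M : ℕ), ¬ p ∣ M →
        ∀ s ∈ H, ∀ n : ℤ, z ^ M ≠ (s : Γ) * b ^ n := by
  have hS : ((Units.val : Γˣ → Γ) ⁻¹' T).Finite := hT.preimage Units.val_injective.injOn
  obtain ⟨j0, hj0⟩ := val_div _ hS (Units.mk0 a ha0) (by
    intro h
    apply ha
    have := congrArg Units.val h
    exact this) (Subgroup.subset_closure haT) p hp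
  refine ⟨Subgroup.closure ((Units.val : Γˣ → Γ) ⁻¹' T), j0, fun t ht h =>
    Subgroup.subset_closure ht, ?_⟩
  intro j hj b hb z hz M hM s hs n hcon
  have hb0 : b ≠ 0 := by
    rintro rfl
    rw [zero_pow (pow_ne_zero _ hp.ne_zero)] at hb
    exact ha0 hb.symm
  have h1 : b ^ ((M : ℤ) - n * p) = (s : Γ) ^ p := by
    have h2 : b ^ M = (s : Γ) ^ p * b ^ (n * p) := by
      have h3 : b ^ M = (z ^ M) ^ p := by
        rw [← pow_mul, mul_comm M p, pow_mul, hz]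
      rw [h3, hcon, mul_pow, zpow_mul, zpow_natCast]
    rw [zpow_sub₀ hb0, zpow_natCast, h2, mul_div_assoc, div_self (zpow_ne_zero _ hb0), mul_one]
  refine hj0 (j + 1) (by omega) s hs ((M : ℤ) - n * p) ?_ ?_
  · intro hdvd
    apply hM
    have h2 : (p : ℤ) ∣ (M : ℤ) := by
      have h3 := dvd_add hdvd (Dvd.intro_left n rfl : (p : ℤ) ∣ n * p)
      rwa [sub_add_cancel] at h3
    exact_mod_cast h2
  · apply Units.ext
    rw [Units.val_zpow_eq_zpow_val, Units.val_mk0, Units.val_pow_eq_pow_val, ← hb, pow_succ',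
      pow_mul, ← h1]
    rw [← zpow_natCast b, ← zpow_mul, ← zpow_natCast (b ^ _), ← zpow_mul, mul_comm]

end Pool.Agent.N98.VG
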