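import Pool.Agent.N98.VG.AsmA

/-!
Models over towers of radical extensions.
-/

set_option autoImplicit false
set_option linter.unusedVariables false
set_option linter.unusedSectionVars false

universe u

namespace Pool.Agent.N98.VG

open IsLocalRing Pool.Agent.W418.LU2 Pool.Agent.H176.DT MvPolynomial

lemma totalDegree_map_le' {σ : Type} {R S : Type u} [CommSemiring R] [CommSemiring S]
    (f : R →+* S) (g : MvPolynomial σ R) : (MvPolynomial.map f g).totalDegree ≤ g.totalDegree :=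
  Finset.sup_mono (support_map_subset _ _)

theorem mainV {K : Type u} [Field K] [CharZero K] (V : ValuationSubring K)
    (O : Subring K) [IsDedekindDomain O] (hO : ∀ a ∈ O, a ∈ V)
    (π : K) (hπ : π ∈ O) (hπ0 : π ≠ 0) (hπ1 : V.valuation π < 1)
    (hπO : ∀ a ∈ O, V.valuation a < 1 → ∃ b ∈ O, ∃ c ∈ O, V.valuation c = 1 ∧ c * a = π * b)
    (k : Subfield K) (hk : k = Subfield.closure (O : Set K)) {N r δ : ℕ} (x : Fin N → K)
    (htop : IntermediateField.adjoin k (Set.range x) = ⊤) (htr : Algebra.trdeg k K = r) (C0 : ℕ)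
    (hδ : ∀ t : ℕ, r.factorial * Module.finrank k (Pool.Agent.N98.img k x t) ≤
      δ * (t + C0) ^ r)
    (hp : ∀ p : ℕ, p.Prime → p ≤ δ ^ 2 ^ r → V.valuation (p : K) = 1)
    {W : Set K} (hW : W.Finite) {w : K} (hw : w ∈ W) (hw0 : w ≠ 0) (hwV : ∀ z ∈ W, z / w ∈ V)
    (hWx : ∀ z ∈ W, RW.LProd (E := k) x (z / w))
    (hxA : ∀ j, ∃ b ∈ ch O W w, b ≠ 0 ∧ RW.LProd (E := k) x b ∧ b * x j ∈ ch O W w) :
    ∃ (m : ℕ) (L : Type u) (_ : Field L) (_ : Algebra K L) (VL : ValuationSubring L) (ρ : L),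
      m ≠ 0 ∧ VL.comap (algebraMap K L) = V ∧ ρ ^ m = algebraMap K L π ∧
      (∀ z : L, z ∈ Subfield.closure (Set.range (algebraMap K L) ∪ {ρ})) ∧
      ∃ (T : Set L) (n : ℕ) (X : Fin n → L),
        St VL (ch (Orm O ρ) (algebraMap K L '' W) (algebraMap K L w)) T X ∧
        PMon (PP VL (ch (Orm O ρ) (algebraMap K L '' W) (algebraMap K L w)) T) X ρ ∧
        ∀ q : ℕ, q.Prime → VL.valuation (q : L) < 1 → ∀ δ : Fin n → ℤ,
          VL.valuation (mo X δ) ^ q ≠ VL.valuation ρ := by
  classical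
  obtain ⟨p, hpp, hpu⟩ := exists_p V
  have hOk : ∀ a ∈ O, a ∈ k := by
    intro a ha
    rw [hk]
    exact Subfield.subset_closure ha
  have hk0 : CharZero k := RingHom.charZero (algebraMap k K)
  have hinf : Infinite k := inferInstance
  -- the polynomials
  obtain ⟨v, hv, hvx⟩ := Pool.Agent.N98.exists_basis x htop r htr (Fintype.card_fin r)
  choose j0 hj0 using hvx
  have hv' : AlgebraicIndependent k (fun i => x (j0 i)) := by
    have e : (fun i => x (j0 i)) = v := _root_.funext fun i => (hj0 i).symm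
    rw [e]
    exact hv
  have hδ1 := Pool.Agent.N98.one_le_of_growth x r δ C0 hδ
  obtain ⟨c, F0, W0, V0, hF0, hF0d, hker0, hW0d, hW0, hV0d, hV0, hcj⟩ := spzV x j0 hv' δ C0 hδ
    (Nat.cast_ne_zero.2 (Nat.factorial_ne_zero δ))
  obtain ⟨n, S, q, a, b, e, hs, hS0, hSG, ⟨j3, hj3⟩, jx, hjx⟩ :=
    exists_fam (k := k) x (ch O W w) hW hw hWx hxA
  set y : Fin (r + 1) → K := fun i => ∑ j, algebraMap k K (c i j) * x j with hy
  -- the tower
  let Ω : Type u := AlgebraicClosure K
  obtain ⟨VΩ, hVΩ⟩ := ext_val (L := Ω) V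
  obtain ⟨ρ, hρ0, hρ⟩ := exists_tower (algebraMap K Ω π) hpp.pos
  have hρπ : ∀ j, ρ j ^ (p ^ j) = algebraMap K Ω π := fun j => by
    have := hρ 0 j
    rwa [zero_add, hρ0] at this
  let E : ℕ → IntermediateField k Ω := fun j => IntermediateField.adjoin k {ρ j}
  let L : ℕ → IntermediateField K Ω := fun j => IntermediateField.adjoin K {ρ j}
  have hρE : ∀ j, ρ j ∈ E j := fun j => IntermediateField.mem_adjoin_simple_self k (ρ j)
  have hρL : ∀ j, ρ j ∈ L j := fun j => IntermediateField.mem_adjoin_simple_self K (ρ j)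
  have hEE : ∀ i j, i ≤ j → E i ≤ E j := by
    intro i j hij
    obtain ⟨d, rfl⟩ := Nat.exists_eq_add_of_le hij
    change IntermediateField.adjoin k {ρ i} ≤ _
    rw [IntermediateField.adjoin_simple_le_iff, ← hρ i d]
    exact pow_mem (hρE _) _
  have hEL : ∀ j, ∀ z ∈ E j, z ∈ L j := by
    intro j
    have h1 : E j ≤ IntermediateField.restrictScalars k (L j) := by
      change IntermediateField.adjoin k {ρ j} ≤ _
      rw [IntermediateField.adjoin_simple_le_iff]
      exact hρL j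
    exact h1
  -- the generators of the ideals
  set yΩ : Fin (r + 1) → Ω := fun i => algebraMap K Ω (y i) with hyΩ
  have hev : ∀ g : MvPolynomial (Fin (r + 1)) k, aeval yΩ g = algebraMap K Ω (aeval y g) :=
    fun g => aeval_algebraMap_apply (A := K) (B := Ω) y g
  have hindΩ : AlgebraicIndependent k (fun i : Fin r => yΩ i.succ) := by
    have e1 : (fun i : Fin r => yΩ i.succ) =
        (IsScalarTower.toAlgHom k K Ω) ∘ (fun i => x (j0 i)) := by
      funext i
      change algebraMap K Ω (∑ j, algebraMap k K (c i.succ j) * x j) = _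
      rw [hcj]
      rfl
    rw [e1]
    exact hv'.map' (algebraMap K Ω).injective
  have halg : ∀ j, Algebra.IsAlgebraic k (E j) := by
    intro j
    refine IntermediateField.isAlgebraic_adjoin_simple ?_
    refine IsIntegral.of_pow (pow_pos hpp.pos j) ?_
    rw [hρπ j]
    have h1 : algebraMap K Ω π = algebraMap k Ω ⟨π, hOk π hπ⟩ := rfl
    rw [h1]
    exact isIntegral_algebraMap
  have hind : ∀ j, AlgebraicIndependent (E j) (fun i : Fin r => yΩ i.succ) := by
    intro j
    have := halg j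
    exact hindΩ.extendScalars (E j)
  have hgen : ∀ j, ∃ F : MvPolynomial (Fin (r + 1)) (E j), Irreducible F ∧
      ∀ g, aeval yΩ g = 0 ↔ F ∣ g := by
    intro j
    refine Pool.Agent.N98.exists_gen_fin yΩ (hind j)
      (MvPolynomial.map (algebraMap k (E j)) F0) ?_ ?_
    · intro h
      apply hF0.ne_zero
      apply MvPolynomial.map_injective _ (algebraMap k (E j)).injective
      rw [h, map_zero]
    · rw [aeval_map_algebraMap, hev, (hker0 F0).2 dvd_rfl, map_zero]
  choose F hF hFk using hgen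
  have hFd : ∀ j, (F j).totalDegree ≤ δ := by
    intro j
    have h1 : F j ∣ MvPolynomial.map (algebraMap k (E j)) F0 := by
      rw [← hFk, aeval_map_algebraMap, hev, (hker0 F0).2 dvd_rfl, map_zero]
    have h2 : MvPolynomial.map (algebraMap k (E j)) F0 ≠ 0 := by
      intro h
      apply hF0.ne_zero
      apply MvPolynomial.map_injective _ (algebraMap k (E j)).injective
      rw [h, map_zero]
    obtain ⟨g, hg⟩ := h1
    have hg0 : g ≠ 0 := by
      rintro rfl
      exact h2 (by rw [hg, mul_zero])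
    have h3 := (totalDegree_map_le' (algebraMap k (E j)) F0).trans hF0d
    rw [hg, totalDegree_mul_of_isDomain (hF j).ne_zero hg0] at h3
    omega
  obtain ⟨j1, hj1⟩ : ∃ j1, ∀ j, (F j1).totalDegree ≤ (F j).totalDegree :=
    ⟨Function.argmin (fun j => (F j).totalDegree), fun j => Function.argmin_le (fun j => (F j).totalDegree) j⟩
  have hΩ0 : CharZero Ω := charZero_of_injective_algebraMap (algebraMap K Ω).injective
  have hE0 : CharZero (E j1) := RingHom.charZero (algebraMap (E j1) Ω)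
  have hFW : ¬ F j1 ∣ MvPolynomial.map (algebraMap k (E j1)) W0 := by
    rw [← hFk, aeval_map_algebraMap, hev]
    exact (_root_.map_ne_zero _).2 hW0
  obtain ⟨SS, hSSf, hSS, hlev⟩ := level_rel (E₀ := E j1) hδ1
    (fun i l => algebraMap k (E j1) (c i l)) (F j1)
    (MvPolynomial.map (algebraMap k (E j1)) W0)
    (fun l => MvPolynomial.map (algebraMap k (E j1)) (V0 l)) (hF j1) (hFd j1)
    ((totalDegree_map_le' _ _).trans hW0d) (fun l => (totalDegree_map_le' _ _).trans (hV0d l)) hFW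
    q (fun j i => algebraMap k (E j1) (a j i)) (fun j i l => algebraMap k (E j1) (b j i l)) e
  have hπΩ0 : VΩ.valuation (algebraMap K Ω π) ≠ 0 :=
    (_root_.map_ne_zero _).2 ((_root_.map_ne_zero _).2 hπ0)
  have hπΩ1 : VΩ.valuation (algebraMap K Ω π) < 1 := (val_lt_one hVΩ).2 hπ1
  obtain ⟨H, j2, hH, hH2⟩ := group_div (Γ := VΩ.ValueGroup)
    ((fun g => VΩ.valuation (aeval yΩ g)) '' SS ∪ {VΩ.valuation (algebraMap K Ω π)})
    ((hSSf.image _).union (Set.finite_singleton _)) (VΩ.valuation (algebraMap K Ω π)) hπΩ0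
    hπΩ1.ne (Or.inr rfl) p hpp
  obtain ⟨j, hj1j, hj2j⟩ : ∃ j, j1 ≤ j ∧ j2 ≤ j := ⟨max j1 j2, le_max_left _ _, le_max_right _ _⟩
  letI iA : Algebra (E j1) (E j) :=
    (IntermediateField.inclusion (hEE j1 j hj1j)).toRingHom.toAlgebra
  letI iB : Algebra (E j) (L j) :=
    (RingHom.codRestrict (algebraMap (E j) Ω) (L j) (fun z => hEL j z z.2)).toAlgebra
  letI iC : Algebra (E j1) (L j) :=
    (RingHom.codRestrict (algebraMap (E j1) Ω) (L j)
      (fun z => hEL j z (hEE j1 j hj1j z.2))).toAlgebra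
  haveI t1 : IsScalarTower (E j1) (E j) (L j) := IsScalarTower.of_algebraMap_eq fun z => rfl
  haveI t2 : IsScalarTower (E j1) (E j) Ω := IsScalarTower.of_algebraMap_eq fun z => rfl
  haveI t3 : IsScalarTower (E j1) (L j) Ω := IsScalarTower.of_algebraMap_eq fun z => rfl
  haveI t4 : IsScalarTower (E j) (L j) Ω := IsScalarTower.of_algebraMap_eq fun z => rfl
  -- the data over the extension
  let VL : ValuationSubring (L j) := VΩ.comap (algebraMap (L j) Ω)
  have hVL : VL.comap (algebraMap K (L j)) = V := by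
    rw [← hVΩ]
    rfl
  let ρE : E j := ⟨ρ j, hρE j⟩
  let ρL : L j := ⟨ρ j, hρL j⟩
  have hρEL : algebraMap (E j) (L j) ρE = ρL := rfl
  have hm : p ^ j ≠ 0 := pow_ne_zero _ hpp.ne_zero
  have hρm : ρL ^ (p ^ j) = algebraMap K (L j) π := Subtype.ext (hρπ j)
  let ι : O →+* E j := (algebraMap k (E j)).comp
    (O.subtype.codRestrict k fun a => hOk a a.2)
  have hι : ∀ a : O, algebraMap (E j) (L j) (ι a) = algebraMap K (L j) a := fun a => rfl
  have hEcl : ∀ z : E j, z ∈ Subfield.closure ((ι.range : Set (E j)) ∪ {ρE}) := by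
    intro z
    have h1 : (E j).toSubfield ≤
        (Subfield.closure ((ι.range : Set (E j)) ∪ {ρE})).map (algebraMap (E j) Ω) := by
      change (IntermediateField.adjoin k {ρ j}).toSubfield ≤ _
      rw [IntermediateField.adjoin_toSubfield, Subfield.closure_le]
      rintro z (⟨a, rfl⟩ | hz)
      · have h2 : k ≤ ((Subfield.closure ((ι.range : Set (E j)) ∪ {ρE})).map
            (algebraMap (E j) Ω)).comap (algebraMap K Ω) := by
          conv_lhs => rw [hk]
          rw [Subfield.closure_le]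
          intro a ha
          exact ⟨ι ⟨a, ha⟩, Subfield.subset_closure (Or.inl ⟨⟨a, ha⟩, rfl⟩), rfl⟩
        exact h2 a.2
      · rw [Set.mem_singleton_iff.1 hz]
        exact ⟨ρE, Subfield.subset_closure (Or.inr rfl), rfl⟩
    obtain ⟨z', hz', hz2⟩ := h1 z.2
    have h3 : z' = z := Subtype.ext hz2
    rw [← h3]
    exact hz'
  obtain ⟨hRn, hRV, hRfr, hρR, hρE0, hρL1, hRgen, hRO⟩ := base_ring (K := K) (L := L j) (E := E j)
    V VL hVL O hO π hπ0 hπ1 hπO ρE (p ^ j) hm hρm ι hι hEcl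
  have hLgen : ∀ z : L j, z ∈ Subfield.closure (Set.range (algebraMap K (L j)) ∪ {ρL}) := by
    intro z
    have h1 : (L j).toSubfield ≤
        (Subfield.closure (Set.range (algebraMap K (L j)) ∪ {ρL})).map (algebraMap (L j) Ω) := by
      change (IntermediateField.adjoin K {ρ j}).toSubfield ≤ _
      rw [IntermediateField.adjoin_toSubfield, Subfield.closure_le]
      rintro z (⟨a, rfl⟩ | hz)
      · exact ⟨algebraMap K (L j) a, Subfield.subset_closure (Or.inl ⟨a, rfl⟩), rfl⟩
      · rw [Set.mem_singleton_iff.1 hz]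
        exact ⟨ρL, Subfield.subset_closure (Or.inr rfl), rfl⟩
    obtain ⟨z', hz', hz2⟩ := h1 z.2
    have h3 : z' = z := Subtype.ext hz2
    rw [← h3]
    exact hz'
  have hkL : ∀ a : k, algebraMap (E j1) (L j) (algebraMap k (E j1) a) =
      algebraMap K (L j) (algebraMap k K a) := fun a => rfl
  let xL : Fin N → L j := fun l => algebraMap K (L j) (x l)
  have htopL : IntermediateField.adjoin (E j) (Set.range xL) = ⊤ :=
    top_of_gen (k := k) (K := K) (E := E j) (L := L j) x htop ρE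
      (fun c => ⟨algebraMap k (E j) c, rfl⟩) hLgen
  set yL : Fin (r + 1) → L j := fun i =>
    ∑ l, algebraMap (E j1) (L j) (algebraMap k (E j1) (c i l)) * xL l with hyL
  have hyLK : ∀ i, yL i = algebraMap K (L j) (y i) := by
    intro i
    rw [hyL, hy]
    change _ = algebraMap K (L j) (∑ j, algebraMap k K (c i j) * x j)
    rw [map_sum]
    refine Finset.sum_congr rfl fun l _ => ?_
    rw [map_mul]
    rfl
  have hyΩL : yΩ = (algebraMap (L j) Ω) ∘ yL := by
    funext i
    change algebraMap K Ω (y i) = algebraMap (L j) Ω (yL i)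
    rw [hyLK]
    rfl
  have hev1 : ∀ g : MvPolynomial (Fin (r + 1)) (E j1),
      algebraMap (L j) Ω (aeval yL g) = aeval yΩ g := by
    intro g
    rw [hyΩL]
    exact (aeval_algebraMap_apply (A := L j) (B := Ω) yL g).symm
  have hev2 : ∀ g : MvPolynomial (Fin (r + 1)) (E j),
      algebraMap (L j) Ω (aeval yL g) = aeval yΩ g := by
    intro g
    rw [hyΩL]
    exact (aeval_algebraMap_apply (A := L j) (B := Ω) yL g).symm
  have hinjL : Function.Injective (algebraMap (L j) Ω) := (algebraMap (L j) Ω).injective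
  have hz1 : ∀ g : MvPolynomial (Fin (r + 1)) (E j1), aeval yL g = 0 ↔ aeval yΩ g = 0 := by
    intro g
    rw [← hev1 g]
    exact (map_eq_zero_iff _ hinjL).symm
  have hz2 : ∀ g : MvPolynomial (Fin (r + 1)) (E j), aeval yL g = 0 ↔ aeval yΩ g = 0 := by
    intro g
    rw [← hev2 g]
    exact (map_eq_zero_iff _ hinjL).symm
  obtain ⟨hst1, hst2⟩ := stab (E₀ := E j1) (E := E j) (K := Ω) yΩ (F j1) (F j) (hF j1).ne_zero
    ((hFk j1 _).2 dvd_rfl) (hF j) (hFk j) (hj1 j)
  have hmapL : ∀ g : MvPolynomial (Fin (r + 1)) k,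
      aeval yL (MvPolynomial.map (algebraMap k (E j1)) g) = algebraMap K (L j) (aeval y g) := by
    intro g
    apply hinjL
    rw [hev1, aeval_map_algebraMap, hev]
    rfl
  have hAV : ch (Orm O ρL) (algebraMap K (L j) '' W) (algebraMap K (L j) w) ≤ VL.toSubring := by
    unfold ch
    rw [Subring.closure_le]
    rintro z (hz | ⟨_, ⟨u, hu, rfl⟩, rfl⟩)
    · rw [← hρEL, ← hRO] at hz
      obtain ⟨a, ha, rfl⟩ := hz
      exact hRV a ha
    · rw [← map_div₀]
      exact (val_mem hVL).2 (hwV u hu)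
  obtain ⟨T, m, X, hSt, hmon, hPr⟩ := hlev (E j) (L j) VL _ hRn hRV hRfr ρE hρE0 hρR hρL1 hRgen
    (fun q' hq' hq2 => by
      rw [← map_natCast (algebraMap K (L j)), val_eq_one hVL]
      exact hp q' hq' hq2) xL htopL hst1 (fun g => by rw [← hst2]; exact hz2 g)
    (fun g => by rw [← hFk]; exact hz1 g)
    (fun l => by
      change aeval yL (MvPolynomial.map (algebraMap k (E j1)) (V0 l)) +
        aeval yL (MvPolynomial.map (algebraMap k (E j1)) W0) * algebraMap K (L j) (x l) = 0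
      rw [hmapL, hmapL, ← map_mul, ← map_add, hV0 l, map_zero])
    (fun i => algebraMap K (L j) (S i)) (fun i => by
      rw [hs i, map_prod]
      refine Finset.prod_congr rfl fun t _ => ?_
      rw [map_zpow₀, map_add, map_sum]
      congr 1
      congr 1
      refine Finset.sum_congr rfl fun l _ => ?_
      rw [map_mul]
      rfl) (fun i => (_root_.map_ne_zero _).2 (hS0 i)) (Orm O ρL) hRO
    {z | ∃ u ∈ algebraMap K (L j) '' W, z = u / algebraMap K (L j) w} (by
      rintro z ⟨_, ⟨u, hu, rfl⟩, rfl⟩ hz0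
      rw [← map_div₀] at hz0 ⊢
      obtain ⟨i, hi⟩ := hSG (u / w) ⟨u, hu, rfl⟩ (fun h => hz0 (by rw [h, map_zero]))
      exact ⟨i, by rw [hi]⟩) j3 (by rw [hj3, map_one])
    (ch (Orm O ρL) (algebraMap K (L j) '' W) (algebraMap K (L j) w)) hAV rfl jx (fun l =>
      ⟨ch_map O ρL W w (hjx l).1, by
        change algebraMap K (L j) (S (jx l)) * algebraMap K (L j) (x l) ∈ _
        rw [← map_mul]
        exact ch_map O ρL W w (hjx l).2⟩)
  refine ⟨p ^ j, L j, inferInstance, inferInstance, VL, ρL, hm, hVL, hρm, hLgen, T, m, X, hSt,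
    hmon, ?_⟩
  intro q' hq' hq1 δ' hcon
  have hq2 : V.valuation (q' : K) < 1 := by
    rw [← val_lt_one hVL, map_natCast]
    exact hq1
  have hqp : q' = p := hpu q' hq' hq2
  subst hqp
  have hq3 : VΩ.valuation (q' : Ω) < 1 := by
    rw [← map_natCast (algebraMap K Ω), val_lt_one hVΩ]
    exact hq2
  have hVLΩ : VΩ.comap (algebraMap (L j) Ω) = VL := rfl
  have hρ0' : VΩ.valuation (ρ j) ≠ 0 := by
    intro h
    apply hπΩ0
    rw [← hρπ j, map_pow, h, zero_pow hm]
  have hρL0 : ρL ≠ 0 := by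
    intro h
    apply hρ0'
    have h1 : ρ j = 0 := congrArg Subtype.val h
    rw [h1, map_zero]
  let Pr : L j → Prop := fun z => z ≠ 0 ∧ ∃ M : ℕ, VΩ.valuation (M : Ω) = 1 ∧
    ∃ s ∈ H, ∃ n : ℤ, VΩ.valuation (z : Ω) ^ M = (s : VΩ.ValueGroup) * VΩ.valuation (ρ j) ^ n
  have hSat : SatV VL Pr := by
    refine ⟨fun u hu0 hu hu' => ⟨hu0, 1, by rw [Nat.cast_one, map_one], 1, H.one_mem, 0, ?_⟩,
      ?_, ?_, ?_⟩
    · have h1 : VL.valuation u = 1 := by
        refine le_antisymm ((VL.valuation_le_one_iff _).2 hu) ?_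
        have h2 := (VL.valuation_le_one_iff _).2 hu'
        rw [map_inv₀] at h2
        exact (inv_le_one₀ (zero_lt_iff.2 ((_root_.map_ne_zero _).2 hu0))).1 h2
      have h3 : VΩ.valuation (algebraMap (L j) Ω u) = 1 := (val_eq_one hVLΩ).2 h1
      change VΩ.valuation (algebraMap (L j) Ω u) ^ 1 = _
      rw [h3, one_pow, zpow_zero, Units.val_one, mul_one]
    · rintro a b ⟨ha0, M, hM, s, hs, n, e1⟩ ⟨hb0, M', hM', s', hs', n', e2⟩
      refine ⟨mul_ne_zero ha0 hb0, M * M', by rw [Nat.cast_mul, map_mul, hM, hM', one_mul],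
        s ^ M' * s' ^ M, H.mul_mem (H.pow_mem hs _) (H.pow_mem hs' _), n * M' + n' * M, ?_⟩
      have e3 : VΩ.valuation ((a * b : L j) : Ω) = VΩ.valuation (a : Ω) * VΩ.valuation (b : Ω) := by
        rw [← map_mul]
        rfl
      rw [e3, mul_pow, pow_mul, mul_comm M M', pow_mul (VΩ.valuation (b : Ω)),
        e1]
      have e4 : (VΩ.valuation (b : Ω) ^ M') ^ M =
          (s' : VΩ.ValueGroup) ^ M * VΩ.valuation (ρ j) ^ (n' * M) := by
        rw [e2, mul_pow, zpow_mul, zpow_natCast]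
      rw [e4, mul_pow, Units.val_mul, Units.val_pow_eq_pow_val, Units.val_pow_eq_pow_val,
        zpow_add₀ hρ0', zpow_mul _ n, zpow_natCast]
      exact mul_mul_mul_comm _ _ _ _
    · rintro a ⟨ha0, M, hM, s, hs, n, e1⟩
      refine ⟨inv_ne_zero ha0, M, hM, s⁻¹, H.inv_mem hs, -n, ?_⟩
      have e3 : VΩ.valuation ((a⁻¹ : L j) : Ω) = (VΩ.valuation (a : Ω))⁻¹ := by
        rw [← map_inv₀]
        rfl
      rw [e3, inv_pow, e1, mul_inv, Units.val_inv_eq_inv_val, zpow_neg]
    · rintro a M0 hM0 ha0 ⟨-, M, hM, s, hs, n, e1⟩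
      refine ⟨ha0, M0 * M, ?_, s, hs, n, ?_⟩
      · rw [Nat.cast_mul, map_mul, hM, mul_one, ← map_natCast (algebraMap (L j) Ω)]
        exact (val_eq_one hVLΩ).2 hM0
      · rw [← e1, pow_mul]
        congr 1
        rw [← map_pow]
        rfl
  have hPrX := hPr Pr hSat (by
    intro g hg
    have h1 : aeval yL g ≠ 0 := by
      intro h
      exact hSS g hg ((hFk j1 g).1 ((hz1 g).1 h))
    have h2 : VΩ.valuation (aeval yΩ g) ≠ 0 := by
      rw [← hev1 g]
      exact (_root_.map_ne_zero _).2 ((_root_.map_ne_zero _).2 h1)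
    refine ⟨h1, 1, by rw [Nat.cast_one, map_one], Units.mk0 _ h2, hH _ (Or.inl ⟨g, hg, rfl⟩) h2,
      0, ?_⟩
    change VΩ.valuation (algebraMap (L j) Ω (aeval yL g)) ^ 1 = _
    rw [hev1 g, pow_one, zpow_zero, mul_one, Units.val_mk0])
    ⟨hρL0, 1, by rw [Nat.cast_one, map_one], 1, H.one_mem, 1, by
      change VΩ.valuation (ρ j) ^ 1 = _
      rw [pow_one, zpow_one, Units.val_one, one_mul]⟩
  have hPrm : Pr (mo X δ') := by
    unfold mo
    have h1 : ∀ t : Finset (Fin m), Pr (∏ i ∈ t, X i ^ δ' i) := by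
      intro t
      induction t using Finset.induction_on with
      | empty =>
        rw [Finset.prod_empty]
        exact hSat.unit 1 one_ne_zero VL.one_mem (by rw [inv_one]; exact VL.one_mem)
      | insert i t hi ih =>
        rw [Finset.prod_insert hi]
        exact hSat.mul _ _ (hSat.zpow (hPrX i) _) ih
    exact h1 _
  obtain ⟨hm0, M, hM, s, hs, n', e1⟩ := hPrm
  have hpM : ¬ q' ∣ M := by
    rintro ⟨M', rfl⟩
    rw [Nat.cast_mul, map_mul] at hM
    have h1 : VΩ.valuation (M' : Ω) ≤ 1 := (VΩ.valuation_le_one_iff _).2 (natCast_mem VΩ M')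
    exact absurd hM ((mul_le_of_le_one_right' h1).trans_lt hq3).ne
  refine hH2 j hj2j (VΩ.valuation (ρ j)) (by rw [← map_pow, hρπ j])
    (VΩ.valuation ((mo X δ' : L j) : Ω)) ?_ M hpM s hs n' e1
  have h1 : VL.valuation ((mo X δ') ^ q' / ρL) = 1 := by
    rw [map_div₀, map_pow, hcon, div_self ((_root_.map_ne_zero _).2 hρL0)]
  have h2 := (val_eq_one hVLΩ).2 h1
  have h3 : algebraMap (L j) Ω ((mo X δ') ^ q' / ρL) = ((mo X δ' : L j) : Ω) ^ q' / ρ j := rfl
  rw [h3, map_div₀, map_pow, div_eq_one_iff_eq hρ0'] at h2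
  exact h2

end Pool.Agent.N98.VG
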