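import Pool.Agent.N98.VG.AsmB
import Pool.Agent.N98.SS.Fin2

/-!
Semistable models in bounded degree, over the sufficiently ramified extensions.
-/

set_option autoImplicit false
set_option linter.unusedVariables false
set_option linter.unusedSectionVars false

universe u

namespace Pool.Agent.N98.VG

open IsLocalRing Pool.Agent.W418.LU2 Pool.Agent.H176.DT

lemma val_le {K L : Type u} [Field K] [Field L] [Algebra K L] {V : ValuationSubring K}
    {VL : ValuationSubring L} (h : VL.comap (algebraMap K L) = V) {a b : K} (hb : b ≠ 0) :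
    VL.valuation (algebraMap K L a) ≤ VL.valuation (algebraMap K L b) ↔
      V.valuation a ≤ V.valuation b := by
  have h1 : 0 < V.valuation b := zero_lt_iff.2 ((_root_.map_ne_zero _).2 hb)
  have h2 : 0 < VL.valuation (algebraMap K L b) :=
    zero_lt_iff.2 ((_root_.map_ne_zero _).2 ((_root_.map_ne_zero _).2 hb))
  rw [← div_le_one₀ h1, ← div_le_one₀ h2, ← map_div₀, ← map_div₀, ← map_div₀]
  exact val_le_one h

/-- The powers of `ρ` are cofinal. -/
lemma cofinal_root {K L : Type u} [Field K] [Field L] [Algebra K L] {V : ValuationSubring K}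
    {VL : ValuationSubring L} (h : VL.comap (algebraMap K L) = V) {π : K} {ρ : L} {m : ℕ}
    (hm : m ≠ 0) (hρ : ρ ^ m = algebraMap K L π)
    (hgen : ∀ z : L, z ∈ Subfield.closure (Set.range (algebraMap K L) ∪ {ρ}))
    (hπV : ∀ z : K, z ≠ 0 → ∃ n : ℕ, V.valuation π ^ n ≤ V.valuation z) (z : L) (hz : z ≠ 0) :
    ∃ n : ℕ, VL.valuation ρ ^ n ≤ VL.valuation z := by
  have halg : ∀ z : L, IsAlgebraic K z := by
    intro z
    have h1 : Subfield.closure (Set.range (algebraMap K L) ∪ {ρ}) ≤
        (algebraicClosure K L).toSubfield := by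
      rw [Subfield.closure_le]
      rintro z (⟨a, rfl⟩ | hz)
      · exact (algebraicClosure K L).algebraMap_mem a
      · rw [Set.mem_singleton_iff.1 hz]
        change ρ ∈ algebraicClosure K L
        rw [mem_algebraicClosure_iff']
        refine IsIntegral.of_pow (Nat.pos_of_ne_zero hm) ?_
        rw [hρ]
        exact isIntegral_algebraMap
    have h2 : z ∈ algebraicClosure K L := h1 (hgen z)
    rw [mem_algebraicClosure_iff'] at h2
    exact h2.isAlgebraic
  obtain ⟨e, he0, he1, he2⟩ := exists_small (E := K) VL z⁻¹ (halg _)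
  obtain ⟨n, hn⟩ := hπV e he0
  refine ⟨m * n, ?_⟩
  have h1 : VL.valuation ρ ^ (m * n) ≤ VL.valuation (algebraMap K L e) := by
    rw [pow_mul, ← map_pow, hρ, ← map_pow, ← map_pow]
    rw [← map_pow] at hn
    exact (val_le h he0).2 hn
  refine h1.trans ?_
  have h2 : VL.valuation (algebraMap K L e) = VL.valuation (algebraMap K L e * z⁻¹) *
      VL.valuation z := by
    rw [← map_mul, mul_assoc, inv_mul_cancel₀ hz, mul_one]
  rw [h2]
  exact mul_le_of_le_one_left' he2

/-- The chart over the extension is a model. -/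
lemma mod_root {K L : Type u} [Field K] [Field L] [Algebra K L] {V : ValuationSubring K}
    {VL : ValuationSubring L} (h : VL.comap (algebraMap K L) = V) {π : K} {ρ : L} {m : ℕ}
    (hm : m ≠ 0) (hρ : ρ ^ m = algebraMap K L π) (hπV : π ∈ V)
    (hgen : ∀ z : L, z ∈ Subfield.closure (Set.range (algebraMap K L) ∪ {ρ}))
    (O : Subring K) (hO : ∀ a ∈ O, a ∈ V) (W : Set K) (w : K) (hwV : ∀ z ∈ W, z / w ∈ V)
    (hfr : ∀ z : K, ∃ a ∈ ch O W w, ∃ b ∈ ch O W w, b ≠ 0 ∧ z = a * b⁻¹) :
    (∀ a ∈ Orm O ρ, a ∈ VL) ∧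
      Mod VL (ch (Orm O ρ) (algebraMap K L '' W) (algebraMap K L w)) := by
  have hρV : ρ ∈ VL := by
    rw [← VL.valuation_le_one_iff]
    by_contra hcon
    push Not at hcon
    have h1 : 1 < VL.valuation ρ ^ m := one_lt_pow₀ hcon hm
    rw [← map_pow, hρ] at h1
    exact absurd ((VL.valuation_le_one_iff _).2 ((val_mem h).2 hπV)) (not_le.2 h1)
  have hOV : ∀ a ∈ Orm O ρ, a ∈ VL := by
    have h1 : Orm O ρ ≤ VL.toSubring := by
      change Subring.closure ((O.map (algebraMap K L) : Set L) ∪ {ρ}) ≤ _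
      rw [Subring.closure_le]
      rintro z (⟨a, ha, rfl⟩ | hz)
      · exact (val_mem h).2 (hO a ha)
      · rw [Set.mem_singleton_iff.1 hz]
        exact hρV
    exact fun a ha => h1 ha
  refine ⟨hOV, ?_, fun z => ?_⟩
  · unfold ch
    rw [Subring.closure_le]
    rintro z (hz | ⟨_, ⟨u, hu, rfl⟩, rfl⟩)
    · exact hOV z hz
    · rw [← map_div₀]
      exact (val_mem h).2 (hwV u hu)
  · have h1 : Subfield.closure (Set.range (algebraMap K L) ∪ {ρ}) ≤
        fr (ch (Orm O ρ) (algebraMap K L '' W) (algebraMap K L w)) := by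
      rw [Subfield.closure_le]
      rintro z (⟨a, rfl⟩ | hz)
      · obtain ⟨a, ha, b, hb, hb0, rfl⟩ := hfr a
        rw [map_mul, map_inv₀]
        exact mul_mem (le_fr _ (ch_map O ρ W w ha)) (inv_mem (le_fr _ (ch_map O ρ W w hb)))
      · rw [Set.mem_singleton_iff.1 hz]
        exact le_fr _ (Subring.subset_closure (Or.inl (Subring.subset_closure (Or.inr rfl))))
    exact Pool.Agent.R187.CT.fr_iff.2 (h1 (hgen z))

lemma orm_orm {K L K' : Type u} [Field K] [Field L] [Field K'] [Algebra K L] [Algebra L K']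
    (O : Subring K) (ρ : L) (ϖ : K') (N : ℕ) (hϖ : ϖ ^ N = algebraMap L K' ρ) :
    Orm (Orm O ρ) ϖ = Subring.closure
      ((O.map ((algebraMap L K').comp (algebraMap K L)) : Set K') ∪ {ϖ}) := by
  apply le_antisymm
  · change Subring.closure (((Orm O ρ).map (algebraMap L K') : Set K') ∪ {ϖ}) ≤ _
    rw [Subring.closure_le]
    rintro z (⟨a, ha, rfl⟩ | hz)
    · have h1 : Orm O ρ ≤ (Subring.closure
          ((O.map ((algebraMap L K').comp (algebraMap K L)) : Set K') ∪ {ϖ})).comap
            (algebraMap L K') := by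
        change Subring.closure ((O.map (algebraMap K L) : Set L) ∪ {ρ}) ≤ _
        rw [Subring.closure_le]
        rintro z (⟨a, ha, rfl⟩ | hz)
        · exact Subring.subset_closure (Or.inl ⟨a, ha, rfl⟩)
        · rw [Set.mem_singleton_iff.1 hz]
          have h5 : algebraMap L K' ρ ∈ Subring.closure
              ((O.map ((algebraMap L K').comp (algebraMap K L)) : Set K') ∪ {ϖ}) := by
            have h6 : ϖ ∈ Subring.closure
                ((O.map ((algebraMap L K').comp (algebraMap K L)) : Set K') ∪ {ϖ}) :=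
              Subring.subset_closure (Or.inr rfl)
            rw [← hϖ]
            exact pow_mem h6 N
          exact h5
      exact h1 ha
    · exact Subring.subset_closure (Or.inr hz)
  · rw [Subring.closure_le]
    rintro z (⟨a, ha, rfl⟩ | hz)
    · exact Subring.subset_closure (Or.inl ⟨_, Subring.subset_closure (Or.inl ⟨a, ha, rfl⟩), rfl⟩)
    · exact Subring.subset_closure (Or.inr hz)

end Pool.Agent.N98.VG
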