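import Pool.Agent.N98.VG.Stg

/-!
Discrete valuation rings as base rings.
-/

set_option autoImplicit false
set_option linter.unusedVariables false
set_option linter.unusedSectionVars false

universe u

namespace Pool.Agent.N98.VG

open IsLocalRing Pool.Agent.W418.LU2 Pool.Agent.N98.RW

variable {E : Type u} [Field E]

theorem hasF_dv (V : ValuationSubring E) (R : Subring E) (hRn : IsNoetherianRing R)
    (hRV : R ≤ V.toSubring)
    (hfr : ∀ z : E, ∃ a ∈ R, ∃ b ∈ R, b ≠ 0 ∧ z = a * b⁻¹) (X : E) (hXR : X ∈ R) (hX0 : X ≠ 0)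
    (hX1 : V.valuation X < 1)
    (hgen : ∀ a ∈ R, V.valuation a < 1 → ∃ b ∈ R, ∃ c ∈ R, V.valuation c = 1 ∧ c * a = b * X) :
    HasF (AdlS V R) ({V} : Set (ValuationSubring E)) ∧
      ∀ z : E, z ≠ 0 → ∃ u ∈ V, u⁻¹ ∈ V ∧ u ≠ 0 ∧ ∃ n : ℤ, z = u * X ^ n := by
  classical
  set k := lo V.toSubring R with hL
  have hLV : k ≤ V.toSubring := lo_le hRV
  have hinv : ∀ a ∈ k, V.valuation a = 1 → a⁻¹ ∈ k := by
    intro a ha h1
    refine inv_mem_lo hRV ha ?_ ?_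
    · rintro rfl
      rw [map_zero] at h1
      exact zero_ne_one h1
    · change a⁻¹ ∈ V
      rw [← V.valuation_le_one_iff, map_inv₀, h1, inv_one]
  have hPn : IsNoetherianRing k := T2.noeth_lo hRn (T2.loc_val V) hRV
  have hRk : R ≤ k := le_lo _ _
  have hgen' : ∀ a ∈ k, V.valuation a < 1 → ∃ b ∈ k, a = b * X := by
    rintro _ ⟨s, hs, t, ht, ht0, htV, rfl⟩ ha1
    have h1 : V.valuation t = 1 := by
      refine le_antisymm ((V.valuation_le_one_iff _).2 (hRV ht)) ?_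
      have h2 : V.valuation t⁻¹ ≤ 1 := (V.valuation_le_one_iff _).2 htV
      rw [map_inv₀] at h2
      exact (inv_le_one₀ (zero_lt_iff.2 ((_root_.map_ne_zero _).2 ht0))).1 h2
    rw [map_mul, map_inv₀, h1, inv_one, mul_one] at ha1
    obtain ⟨b, hb, c, hc, hc1, e⟩ := hgen s hs ha1
    have hc0 : c ≠ 0 := by
      rintro rfl
      rw [map_zero] at hc1
      exact zero_ne_one hc1
    have e1 : s = c⁻¹ * b * X := by
      rw [mul_assoc, ← e, ← mul_assoc, inv_mul_cancel₀ hc0, one_mul]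
    refine ⟨c⁻¹ * b * t⁻¹, ?_, ?_⟩
    · exact k.mul_mem (k.mul_mem (hinv c (hRk hc) hc1) (hRk hb)) (hinv t (hRk ht) h1)
    · rw [e1]
      ring
  have heft : ∃ G : Finset E, (∀ g ∈ G, g ∈ k) ∧
      k ≤ lo V.toSubring (Subring.closure ((R : Set E) ∪ G)) := by
    refine ⟨∅, by simp, ?_⟩
    exact lo_mono fun a ha => Subring.subset_closure (Or.inl ha)
  have hfr' : ∀ e : E, ∃ a ∈ k, ∃ b ∈ k, b ≠ 0 ∧ e = a * b⁻¹ := by
    intro e
    obtain ⟨a, ha, b, hb, hb0, e⟩ := hfr e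
    exact ⟨a, hRk ha, b, hRk hb, hb0, e⟩
  have hD : T2.Dv V k X := ⟨fun a ha => hLV ha, hinv, hPn, hRk hXR, hX1, hX0, hgen'⟩
  refine ⟨?_, fun z hz => ?_⟩
  · refine hasF_adl fun H _ f hf => ⟨k, Unit, inferInstance, fun _ => (X : E), hPn, hRk,
      fun a ha => hLV ha, hinv, heft, hD.regC, ?_, hfr', fun t => ?_⟩
    · intro c hc
      refine q_lo hRV le_rfl hinv (fun _ => hD.x0)
        ⟨1, Subring.one_mem _, PMon.one, by rwa [mul_one]⟩
    obtain ⟨a, ha, b, hb, hb0, e⟩ := hfr' (f t)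
    have ha0 : a ≠ 0 := by
      rintro rfl
      apply hf t
      rw [e, zero_mul]
    obtain ⟨u, hu, hu1, i, e1⟩ := hD.mono ha ha0
    obtain ⟨v, hv, hv1, i', e2⟩ := hD.mono hb hb0
    have hu0 := T2.ne_zero_of_one hu1
    have hv0 := T2.ne_zero_of_one hv1
    have hui := hD.inv u hu hu1
    have hvi := hD.inv v hv hv1
    have hx0 : ∀ _ : Unit, (X : E) ≠ 0 := fun _ => hD.x0
    rw [e, e1, e2]
    exact ((PMon.unit hu0 hu hui).mul hx0 (RW.PMon.pow hx0 (PMon.gen ()) _)).mul hx0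
      ((PMon.unit hv0 hv hvi).mul hx0 (RW.PMon.pow hx0 (PMon.gen ()) _)).inv
  · obtain ⟨a, ha, b, hb, hb0, e⟩ := hfr' z
    have ha0 : a ≠ 0 := by
      rintro rfl
      apply hz
      rw [e, zero_mul]
    obtain ⟨u, hu, hu1, i, e1⟩ := hD.mono ha ha0
    obtain ⟨v, hv, hv1, i', e2⟩ := hD.mono hb hb0
    have hu0 := T2.ne_zero_of_one hu1
    have hv0 := T2.ne_zero_of_one hv1
    have hui := hD.inv u hu hu1
    have hvi := hD.inv v hv hv1
    refine ⟨u * v⁻¹, hLV (k.mul_mem hu hvi), ?_, mul_ne_zero hu0 (inv_ne_zero hv0),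
      (i : ℤ) - i', ?_⟩
    · rw [mul_inv, inv_inv]
      exact hLV (k.mul_mem hui hv)
    · rw [e, e1, e2, zpow_sub₀ hX0, zpow_natCast, zpow_natCast]
      field_simp

end Pool.Agent.N98.VG
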