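import Pool.Agent.N98.RW.Basic

/-!
The values of the local equations of the boundary: principalization.
-/

set_option autoImplicit false
set_option linter.unusedVariables false
set_option linter.unusedSimpArgs false
set_option linter.unusedSectionVars false

universe u

open Polynomial

namespace Pool.Agent.N98.VG

open Pool.Agent.N98.RV Pool.Agent.N98.RW

/-- The predicate `P` holds for the units of `V`, and it is stable under products, inverses and
roots whose exponent is invertible in `k`. -/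
structure Sat (k : Type u) {K : Type u} [CommRing k] [Field K] [Algebra k K]
    (V : ValuationSubring K) (P : K → Prop) : Prop where
  unit : ∀ u, u ≠ 0 → u ∈ V → u⁻¹ ∈ V → P u
  mul : ∀ a b, P a → P b → P (a * b)
  inv : ∀ a, P a → P a⁻¹
  root : ∀ (a : K) (N : ℕ), IsUnit (N : k) → a ≠ 0 → P (a ^ N) → P a

section sat

variable {k K : Type u} [CommRing k] [Field K] [Algebra k K] {V : ValuationSubring K}
  {P : K → Prop}

lemma Sat.one (h : Sat k V P) : P 1 :=
  h.unit 1 one_ne_zero V.one_mem (by rw [inv_one]; exact V.one_mem)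

lemma Sat.div (h : Sat k V P) {a b : K} (ha : P a) (hb : P b) : P (a / b) := by
  rw [div_eq_mul_inv]
  exact h.mul _ _ ha (h.inv _ hb)

lemma Sat.pow (h : Sat k V P) {a : K} (ha : P a) (n : ℕ) : P (a ^ n) := by
  induction n with
  | zero => rw [pow_zero]; exact h.one
  | succ n ih => rw [pow_succ]; exact h.mul _ _ ih ha

lemma Sat.zpow (h : Sat k V P) {a : K} (ha : P a) (n : ℤ) : P (a ^ n) := by
  obtain ⟨m, rfl | rfl⟩ := Int.eq_nat_or_neg n
  · rw [zpow_natCast]
    exact h.pow ha m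
  · rw [zpow_neg, zpow_natCast]
    exact h.inv _ (h.pow ha m)

lemma Sat.prod (h : Sat k V P) {ι : Type*} (s : Finset ι) (g : ι → K) (hg : ∀ i ∈ s, P (g i)) :
    P (∏ i ∈ s, g i) := by
  classical
  induction s using Finset.induction_on with
  | empty => rw [Finset.prod_empty]; exact h.one
  | insert a s ha ih =>
    rw [Finset.prod_insert ha]
    exact h.mul _ _ (hg a (Finset.mem_insert_self a s))
      (ih fun i hi => hg i (Finset.mem_insert_of_mem hi))

lemma Sat.isM (h : Sat k V P) {A : Subalgebra k K} (hA : ∀ f ∈ A, f ∈ V) {I : Type} [Fintype I]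
    {x : I → K} (hx : ∀ i, P (x i)) {g : K} {γ : I → ℤ} (hg : IsM A x g γ) : P g := by
  obtain ⟨w, h0, h1, h2, h3⟩ := hg
  rw [h3]
  exact h.mul _ _ (h.unit w h0 (hA _ h1) (hA _ h2)) (h.prod _ _ fun i _ => h.zpow (hx i) _)

end sat

/-- The predicate holds for the local equations of the boundary on the charts at the centre. -/
def VG {k K : Type u} [CommRing k] [Field K] [Algebra k K] {𝒱 : Set (ValuationSubring K)}
    {R0 R : Subalgebra k K} {T I : Type} (M : LM 𝒱 R0 R T I) (V : ValuationSubring K)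
    (P : K → Prop) : Prop :=
  ∀ t, (∀ f ∈ M.A t, f ∈ V) → ∀ i, P (M.x t i)

section defs

variable {k K : Type u} [CommRing k] [Field K] [Algebra k K]
  {𝒱 : Set (ValuationSubring K)} {R0 R : Subalgebra k K} {T I T' I' : Type}

/-- The model `M'` lies over the model `M`, preserving boundary functions, logarithmic
derivations and the values of the local equations. -/
structure OvV [Fintype I] [Fintype I'] (M : LM 𝒱 R0 R T I) (M' : LM 𝒱 R0 R T' I')
    (π : T' → T) : Prop extends OvL M M' π where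
  vg : ∀ (V : ValuationSubring K) (P : K → Prop), Sat k V P → VG M V P → VG M' V P

lemma OvV.refl [Fintype I] (M : LM 𝒱 R0 R T I) : OvV M M id :=
  ⟨OvL.refl M, fun _ _ _ h => h⟩

lemma OvV.trans [Fintype I] [Fintype I'] {T'' I'' : Type} [Fintype I''] {M : LM 𝒱 R0 R T I}
    {M' : LM 𝒱 R0 R T' I'} {M'' : LM 𝒱 R0 R T'' I''} {π : T' → T} {π' : T'' → T'}
    (h : OvV M M' π) (h' : OvV M' M'' π') : OvV M M'' (π ∘ π') :=
  ⟨h.toOvL.trans h'.toOvL, fun V P hP hM => h'.vg V P hP (h.vg V P hP hM)⟩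

end defs

section ops

variable {k K : Type u} [CommRing k] [Field K] [Algebra k K]
  {𝒱 : Set (ValuationSubring K)} {R0 R : Subalgebra k K}
    {T I : Type} [Fintype I] (M : LM 𝒱 R0 R T I)

lemma ovv_blowup [DecidableEq I] {i j : I} (hij : i ≠ j) (M' : LM 𝒱 R0 R (T × Bool) (Option I))
    (hA : M'.A = bA M i j) (hx : M'.x = bX M i j) : OvV M M' Prod.fst where
  toOvL := ovl_blowup M hij M' hA hx
  vg := by
    intro V P hP hM p hp
    have h1 : ∀ l, P (M.x p.1 l) := hM p.1 fun f hf => hp f (by rw [hA]; exact le_bA M i j p hf)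
    rw [hx]
    rintro (_ | l)
    · exact h1 _
    · simp only [bX, bx]
      split_ifs
      · exact hP.div (h1 _) (h1 _)
      · exact hP.one
      · exact h1 _

lemma ovv_refine {J : Type} (h : T → J → K) (hmem : ∀ t b, h t b ∈ M.A t)
    (M' : LM 𝒱 R0 R (T × J) I) (hA : M'.A = rA M h) (hx : M'.x = fun p => M.x p.1) :
    OvV M M' Prod.fst where
  toOvL := ovl_refine M h hmem M' hA hx
  vg := by
    intro V P hP hM p hp i
    rw [hx]
    exact hM p.1 (fun f hf => hp f (by rw [hA]; exact le_rA M h p hf)) i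

/-- The relation used for principalization. -/
def OVV {G T' I' : Type} [Fintype I'] (M : LM 𝒱 R0 R T I) (Γ : G → I → ℤ)
    (M' : LM 𝒱 R0 R T' I') (Γ' : G → I' → ℤ) : Prop :=
  (∃ π : T' → T, OvV M M' π) ∧ (∀ g : G → K, Fn M g Γ → Fn M' g Γ') ∧
    ∀ a b, Cmp M Γ a b → Cmp M' Γ' a b

variable {M}

lemma OVV.refl {G : Type} (M : LM 𝒱 R0 R T I) (Γ : G → I → ℤ) : OVV M Γ M Γ :=
  ⟨⟨id, OvV.refl M⟩, fun _ h => h, fun _ _ h => h⟩

lemma OVV.trans {G T' I' T'' I'' : Type} [Fintype I'] [Fintype I'']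
    {Γ : G → I → ℤ} {M' : LM 𝒱 R0 R T' I'} {Γ' : G → I' → ℤ}
    {M'' : LM 𝒱 R0 R T'' I''} {Γ'' : G → I'' → ℤ}
    (h : OVV M Γ M' Γ') (h' : OVV M' Γ' M'' Γ'') : OVV M Γ M'' Γ'' := by
  obtain ⟨⟨π, h1⟩, h2, h3⟩ := h
  obtain ⟨⟨π', h1'⟩, h2', h3'⟩ := h'
  exact ⟨⟨_, h1.trans h1'⟩, fun g hg => h2' g (h2 g hg), fun a b x => h3' a b (h3 a b x)⟩

end ops

section wt

variable {k K : Type u} [CommRing k] [Field K] [Algebra k K]
  {𝒱 : Set (ValuationSubring K)} {R0 R : Subalgebra k K}
    {T I : Type} {G : Type}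

/-- If there are no bad pairs then the functions become comparable after a refinement. -/
lemma cmp_of_no_badV [Finite T] [Fintype I] [DecidableEq I] (a b : G)
    (M : LM 𝒱 R0 R T I) (Γ : G → I → ℤ) (h : ∀ p, ¬ Bad M (dc Γ a b) p) :
    ∃ (T' I' : Type) (_ : Finite T') (_ : Fintype I') (_ : DecidableEq I')
      (M' : LM 𝒱 R0 R T' I') (Γ' : G → I' → ℤ), OVV M Γ M' Γ' ∧ Cmp M' Γ' a b := by
  classical
  let s : Bool → Finset I := fun e =>
    if e then Finset.univ.filter (fun l => dc Γ a b l < 0) else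
      Finset.univ.filter (fun l => 0 < dc Γ a b l)
  let h' : T → Bool → K := fun t e => ∏ l ∈ s e, M.x t l
  have hmem : ∀ t e, h' t e ∈ M.A t := fun t e => (M.A t).prod_mem fun l _ => M.xA t l
  have hne : ∀ t e, h' t e ≠ 0 := fun t e => Finset.prod_ne_zero_iff.2 fun l _ => M.x0 t l
  have hcop : ∀ t, ∃ α ∈ M.A t, ∃ β ∈ M.A t, α * h' t true + β * h' t false = 1 := by
    intro t
    have key : IsCoprime (∏ l ∈ s true, (⟨M.x t l, M.xA t l⟩ : M.A t))
        (∏ l ∈ s false, (⟨M.x t l, M.xA t l⟩ : M.A t)) := by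
      refine IsCoprime.prod_left fun l hl => IsCoprime.prod_right fun m hm => ?_
      have hl' : dc Γ a b l < 0 := by simpa [s] using hl
      have hm' : 0 < dc Γ a b m := by simpa [s] using hm
      have h1 : Sep M m l := by
        by_contra h2
        exact h (m, l) ⟨wt_pos.2 ⟨hm', hl'⟩, h2⟩
      obtain ⟨α, hα, β, hβ, h3⟩ := h1.symm t
      exact ⟨⟨α, hα⟩, ⟨β, hβ⟩, Subtype.ext h3⟩
    obtain ⟨α, β, hαβ⟩ := key
    refine ⟨α, α.2, β, β.2, ?_⟩
    have := congrArg (Subtype.val : M.A t → K) hαβ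
    simpa [h'] using this
  obtain ⟨M', hA, hx, hH⟩ := exists_refine M h' hmem hne (by
    intro t V hV
    obtain ⟨α, hα, β, hβ, h1⟩ := hcop t
    have hV1 : h' t true ∈ V := hV _ (hmem _ _)
    have hV2 : h' t false ∈ V := hV _ (hmem _ _)
    by_contra hcon
    push Not at hcon
    have h2 : ∀ e, V.valuation (h' t e) < 1 := by
      intro e
      have h3 : (h' t e)⁻¹ ∉ V := hcon e
      rw [← V.valuation_le_one_iff, map_inv₀, not_le] at h3
      have h4 : V.valuation (h' t e) ≠ 0 := by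
        rw [ne_eq, map_eq_zero]; exact hne t e
      exact (one_lt_inv₀ (zero_lt_iff.2 h4)).1 h3
    have h5 : V.valuation (α * h' t true + β * h' t false) < 1 := by
      refine Valuation.map_add_lt _ ?_ ?_
      · rw [map_mul]
        exact (mul_le_of_le_one_left' ((V.valuation_le_one_iff _).2 (hV _ hα))).trans_lt (h2 _)
      · rw [map_mul]
        exact (mul_le_of_le_one_left' ((V.valuation_le_one_iff _).2 (hV _ hβ))).trans_lt (h2 _)
    rw [h1, map_one] at h5
    exact lt_irrefl _ h5)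
  refine ⟨T × Bool, I, inferInstance, inferInstance, inferInstance, M', Γ, ⟨?_, ?_, ?_⟩, ?_⟩
  · exact ⟨Prod.fst, ovv_refine M h' hmem M' hA hx⟩
  · intro g hg a p
    obtain ⟨w, hw0, hw, hw', h1⟩ := hg a p.1
    rw [hA, hx]
    exact ⟨w, hw0, le_rA M h' p hw, le_rA M h' p hw', h1⟩
  · intro a b hh p
    rw [hA, hx]
    rcases hh p.1 with h1 | h1
    · left
      intro i
      exact (h1 i).imp_right fun h2 => le_rA M h' p h2
    · right
      intro i
      exact (h1 i).imp_right fun h2 => le_rA M h' p h2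
  · rintro ⟨t, e⟩
    rw [hA, hx]
    have hu : ∀ l ∈ s e, (M.x t l)⁻¹ ∈ rA M h' (t, e) := by
      intro l hl
      have h1 : (M.x t l)⁻¹ = (∏ m ∈ (s e).erase l, M.x t m) * (h' t e)⁻¹ := by
        have h2 : h' t e = M.x t l * ∏ m ∈ (s e).erase l, M.x t m :=
          (Finset.mul_prod_erase _ _ hl).symm
        rw [h2]
        have h3 := M.x0 t l
        have h4 : ∏ m ∈ (s e).erase l, M.x t m ≠ 0 :=
          Finset.prod_ne_zero_iff.2 fun l _ => M.x0 t l
        field_simp
      rw [h1]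
      exact (rA M h' (t, e)).mul_mem
        (le_rA M h' (t, e) ((M.A t).prod_mem fun m _ => M.xA t m)) (inv_mem_rA M h' (t, e))
    cases e
    · -- the divisors with positive exponent are units
      left
      intro l
      by_cases hl : 0 < dc Γ a b l
      · right
        exact hu l (by simpa [s] using hl)
      · left
        simp only [dc] at hl
        omega
    · right
      intro l
      by_cases hl : dc Γ a b l < 0
      · right
        exact hu l (by simpa [s] using hl)
      · left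
        simp only [dc] at hl
        omega

theorem princ_auxV (a b : G) : ∀ (W n : ℕ) {T I : Type} [Finite T] [Fintype I]
    [DecidableEq I] (M : LM 𝒱 R0 R T I) (Γ : G → I → ℤ),
    (∀ p, Bad M (dc Γ a b) p → wt (dc Γ a b) p ≤ W) →
    {p | Bad M (dc Γ a b) p ∧ wt (dc Γ a b) p = W}.ncard ≤ n →
    ∃ (T' I' : Type) (_ : Finite T') (_ : Fintype I') (_ : DecidableEq I')
      (M' : LM 𝒱 R0 R T' I') (Γ' : G → I' → ℤ), OVV M Γ M' Γ' ∧ Cmp M' Γ' a b := by
  intro W
  induction W with
  | zero =>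
    intro n T I _ _ _ M Γ hW hn
    refine cmp_of_no_badV a b M Γ ?_
    intro p hp
    have := hW p hp
    have := hp.1
    omega
  | succ W ihW =>
    intro n
    induction n with
    | zero =>
      intro T I _ _ _ M Γ hW hn
      refine ihW _ M Γ ?_ le_rfl
      intro p hp
      have h1 := hW p hp
      rcases h1.lt_or_eq with h2 | h2
      · omega
      · exfalso
        have h3 : {p | Bad M (dc Γ a b) p ∧ wt (dc Γ a b) p = W + 1} = ∅ := by
          rw [← Set.ncard_eq_zero (Set.toFinite _)]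
          omega
        have h4 : p ∈ {p | Bad M (dc Γ a b) p ∧ wt (dc Γ a b) p = W + 1} := ⟨hp, h2⟩
        rw [h3] at h4
        exact h4
    | succ n ihn =>
      intro T I _ _ _ M Γ hW hn
      by_cases hex : ∃ p, Bad M (dc Γ a b) p ∧ wt (dc Γ a b) p = W + 1
      · obtain ⟨⟨i, j⟩, hb, hwt⟩ := hex
        have hij : i ≠ j := by
          rintro rfl
          obtain ⟨h1, h2⟩ := wt_pos.1 hb.1
          simp only at h1 h2
          omega
        obtain ⟨M', hA, hx, hH⟩ := exists_blowup M hij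
        obtain ⟨hd1, hd2⟩ := dc_blowup i j Γ a b
        have key := bad_blowup M hij M' hA hx _ _ hd1 hd2 (W + 1) hW hb
        obtain ⟨T'', I'', i1, i2, i3, M'', Γ'', hE, hC⟩ := ihn M' (fun a => bΓ i j (Γ a)) (by
          intro q hq
          rcases key q hq with h1 | ⟨l, l', h1, h2, h3, h4⟩
          · exact h1.le
          · rw [← h3]
            exact hW _ h2) (by
          have h5 : {q | Bad M' (dc (fun a => bΓ i j (Γ a)) a b) q ∧
              wt (dc (fun a => bΓ i j (Γ a)) a b) q = W + 1} ⊆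
              (fun q : I × I => (some q.1, some q.2)) ''
                ({p | Bad M (dc Γ a b) p ∧ wt (dc Γ a b) p = W + 1} \ {(i, j)}) := by
            rintro q ⟨hq, hq'⟩
            rcases key q hq with h1 | ⟨l, l', h1, h2, h3, h4⟩
            · omega
            · exact ⟨(l, l'), ⟨⟨h2, by rw [h3, hq']⟩, h4⟩, h1.symm⟩
          have h6 := Set.ncard_le_ncard h5 (Set.toFinite _)
          have h7 := Set.ncard_image_le (f := fun q : I × I => (some q.1, some q.2))
            (s := {p | Bad M (dc Γ a b) p ∧ wt (dc Γ a b) p = W + 1} \ {(i, j)}) (Set.toFinite _)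
          have h8 := Set.ncard_sdiff_singleton_lt_of_mem
            (s := {p | Bad M (dc Γ a b) p ∧ wt (dc Γ a b) p = W + 1}) (a := (i, j)) ⟨hb, hwt⟩
            (Set.toFinite _)
          omega)
        have hext := fun g : G → K => ext_blowup M hij g Γ M' hA hx hH
        exact ⟨T'', I'', i1, i2, i3, M'', Γ'', OVV.trans ⟨⟨Prod.fst, ovv_blowup M hij M' hA hx⟩,
          fun g hg => (hext g).fn hg, (hext (fun _ => 1)).cmp⟩ hE, hC⟩
      · refine ihW _ M Γ ?_ le_rfl
        intro p hp
        have h1 := hW p hp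
        rcases h1.lt_or_eq with h2 | h2
        · omega
        · exact absurd ⟨p, hp, h2⟩ hex

theorem princ_pairV (a b : G) [Finite T] [Fintype I] [DecidableEq I]
    (M : LM 𝒱 R0 R T I) (Γ : G → I → ℤ) :
    ∃ (T' I' : Type) (_ : Finite T') (_ : Fintype I') (_ : DecidableEq I')
      (M' : LM 𝒱 R0 R T' I') (Γ' : G → I' → ℤ), OVV M Γ M' Γ' ∧ Cmp M' Γ' a b := by
  refine princ_auxV a b (Finset.univ.sup (wt (dc Γ a b))) _ M Γ ?_ le_rfl
  intro p _
  exact Finset.le_sup (Finset.mem_univ p)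

/-- Principalization. -/
theorem princ_allV [Finite G] [Finite T] [Fintype I] [DecidableEq I]
    (M : LM 𝒱 R0 R T I) (Γ : G → I → ℤ) :
    ∃ (T' I' : Type) (_ : Finite T') (_ : Fintype I') (_ : DecidableEq I')
      (M' : LM 𝒱 R0 R T' I') (Γ' : G → I' → ℤ), OVV M Γ M' Γ' ∧ ∀ a b, Cmp M' Γ' a b := by
  classical
  have : Fintype G := Fintype.ofFinite G
  have key : ∀ s : Finset (G × G), ∃ (T' I' : Type) (_ : Finite T') (_ : Fintype I')
      (_ : DecidableEq I') (M' : LM 𝒱 R0 R T' I') (Γ' : G → I' → ℤ), OVV M Γ M' Γ' ∧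
        ∀ p ∈ s, Cmp M' Γ' p.1 p.2 := by
    intro s
    induction s using Finset.induction_on with
    | empty =>
      exact ⟨T, I, inferInstance, inferInstance, inferInstance, M, Γ, OVV.refl M Γ, by simp⟩
    | insert q s hq ih =>
      obtain ⟨T1, I1, i1, i2, i3, M1, Γ1, hE1, hC1⟩ := ih
      obtain ⟨T2, I2, j1, j2, j3, M2, Γ2, hE2, hC2⟩ := princ_pairV q.1 q.2 M1 Γ1
      refine ⟨T2, I2, j1, j2, j3, M2, Γ2, hE1.trans hE2, ?_⟩
      intro p hp
      rcases Finset.mem_insert.1 hp with rfl | hp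
      · exact hC2
      · exact hE2.2.2 _ _ (hC1 p hp)
  obtain ⟨T', I', i1, i2, i3, M', Γ', hE, hC⟩ := key Finset.univ
  exact ⟨T', I', i1, i2, i3, M', Γ', hE, fun a b => hC (a, b) (Finset.mem_univ _)⟩

/-- Principalization of a finite family of boundary functions. -/
theorem exists_princV [Finite G] [Finite T] [Fintype I] (M : LM 𝒱 R0 R T I) (g : G → K)
    (hg : ∀ a, IsB M (g a)) :
    ∃ (T' I' : Type) (_ : Finite T') (_ : Fintype I') (M' : LM 𝒱 R0 R T' I') (π : T' → T),
      OvV M M' π ∧ ∀ t a b, g b / g a ∈ M'.A t ∨ g a / g b ∈ M'.A t := by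
  classical
  choose Γ hΓ using hg
  have hF : Fn M g Γ := fun a t => hΓ a t
  obtain ⟨T', I', i1, i2, i3, M', Γ', ⟨⟨π, hπ⟩, hE, -⟩, hC⟩ := princ_allV M Γ
  have hF' := hE g hF
  refine ⟨T', I', i1, i2, M', π, hπ, fun t a b => ?_⟩
  rcases hC a b t with h | h
  · exact Or.inl (div_mem_of_le M' t g Γ' hF' h)
  · exact Or.inr (div_mem_of_le M' t g Γ' hF' h)

end wt

end Pool.Agent.N98.VG
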