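import Pool.Agent.N98.VG.Basic
import Pool.Agent.N98.RW.Cut

/-!
Restriction to a divisor: the values of the local equations.
-/

set_option autoImplicit false
set_option linter.unusedVariables false
set_option linter.unusedSimpArgs false
set_option linter.unusedSectionVars false

universe u

open IsLocalRing Pool.Agent.W418.LU2

namespace Pool.Agent.N98.VG

open Pool.Agent.N98.RV Pool.Agent.N98.RW

section cut

variable {k K L : Type u} [CommRing k] [Field K] [Algebra k K] [Field L] [Algebra k L]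
  {Q : Subalgebra k K} (π : Q →ₐ[k] L) {𝒱 : Set (ValuationSubring K)}
  {𝒲 : Set (ValuationSubring L)} {R : Subalgebra k K} {R' : Subalgebra k L}

/-- The predicate on `K`. -/
def CutP (f : K) (Pr : L → Prop) (g : K) : Prop :=
  ∃ (n : ℤ) (g' : K), g = f ^ n * g' ∧ g' ∈ Q ∧ pq π g' ≠ 0 ∧ Pr (pq π g')

lemma zpow_unit {f : K} (hfQ : f ∈ Q) (hf0 : f ≠ 0) (hfπ : pq π f = 0) {n : ℤ}
    (h1 : f ^ n ∈ Q) (h2 : (f ^ n)⁻¹ ∈ Q) : n = 0 := by
  by_contra hn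
  rcases lt_or_gt_of_ne hn with h | h
  · obtain ⟨m, hm⟩ := Int.eq_ofNat_of_zero_le (show 0 ≤ -n by omega)
    have hm0 : m ≠ 0 := by omega
    have e1 : n = -(m : ℤ) := by omega
    rw [e1, zpow_neg, zpow_natCast, inv_inv] at h2
    rw [e1, zpow_neg, zpow_natCast] at h1
    have h4 := pq_ne π (pow_ne_zero _ hf0) h2 h1
    rw [pq_pow π hfQ, hfπ, zero_pow hm0] at h4
    exact h4 rfl
  · obtain ⟨m, hm⟩ := Int.eq_ofNat_of_zero_le h.le
    have hm0 : m ≠ 0 := by omega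
    rw [hm, zpow_natCast] at h1 h2
    have h4 := pq_ne π (pow_ne_zero _ hf0) h1 h2
    rw [pq_pow π hfQ, hfπ, zero_pow hm0] at h4
    exact h4 rfl

lemma pullV_le {hK : ∀ x : K, (∃ a b : Q, π b ≠ 0 ∧ x * b = a) ∨
    (∃ a b : Q, π b ≠ 0 ∧ x⁻¹ * b = a)} (hinv : ∀ b : K, b ∈ Q → pq π b ≠ 0 → b⁻¹ ∈ Q)
    {V : ValuationSubring L} {x : K} (h : x ∈ pullV π hK V) : x ∈ Q := by
  obtain ⟨a, b, hb, h1, -⟩ := h
  have hb' : pq π (b : K) ≠ 0 := by
    rw [pq_coe]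
    exact hb
  have hb0 : (b : K) ≠ 0 := by
    intro h0
    rw [h0, pq_zero] at hb'
    exact hb' rfl
  have : x = a * (b : K)⁻¹ := by
    rw [← h1, mul_assoc, mul_inv_cancel₀ hb0, mul_one]
  rw [this]
  exact Q.mul_mem a.2 (hinv b b.2 hb')

lemma cutP_sat {hK : ∀ x : K, (∃ a b : Q, π b ≠ 0 ∧ x * b = a) ∨
    (∃ a b : Q, π b ≠ 0 ∧ x⁻¹ * b = a)} (hinv : ∀ b : K, b ∈ Q → pq π b ≠ 0 → b⁻¹ ∈ Q)
    {f : K} (hfQ : f ∈ Q) (hf0 : f ≠ 0) (hfπ : pq π f = 0)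
    (hrep : ∀ g : K, g ≠ 0 → ∃ (n : ℤ) (g' : K), g = f ^ n * g' ∧ g' ∈ Q ∧ pq π g' ≠ 0)
    {V : ValuationSubring L} {Pr : L → Prop} (hPr : Sat k V Pr) :
    Sat k (pullV π hK V) (CutP π f Pr) := by
  have hne : ∀ {b : K}, pq π b ≠ 0 → b ≠ 0 := by
    rintro b hb rfl
    exact hb (pq_zero π)
  refine ⟨?_, ?_, ?_, ?_⟩
  · intro u hu h1 h2
    have h1' := pullV_le π hinv h1
    have h2' := pullV_le π hinv h2
    refine ⟨0, u, by rw [zpow_zero, one_mul], h1', pq_ne π hu h1' h2', ?_⟩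
    refine hPr.unit _ (pq_ne π hu h1' h2') (pullV_pq π h1' h1) ?_
    rw [← pq_inv π hu h1' h2']
    exact pullV_pq π h2' h2
  · rintro a b ⟨n, a', rfl, ha1, ha2, ha3⟩ ⟨m, b', rfl, hb1, hb2, hb3⟩
    refine ⟨n + m, a' * b', ?_, Q.mul_mem ha1 hb1, ?_, ?_⟩
    · rw [zpow_add₀ hf0]; ring
    · rw [pq_mul π ha1 hb1]
      exact mul_ne_zero ha2 hb2
    · rw [pq_mul π ha1 hb1]
      exact hPr.mul _ _ ha3 hb3
  · rintro a ⟨n, a', rfl, ha1, ha2, ha3⟩
    have h1 := hinv a' ha1 ha2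
    have h0 := hne ha2
    refine ⟨-n, a'⁻¹, ?_, h1, ?_, ?_⟩
    · rw [mul_inv, zpow_neg]
    · rw [pq_inv π h0 ha1 h1]
      exact inv_ne_zero ha2
    · rw [pq_inv π h0 ha1 h1]
      exact hPr.inv _ ha3
  · rintro a N hN ha ⟨n, g', h1, hg1, hg2, hg3⟩
    obtain ⟨m, g, hg, hg4, hg5⟩ := hrep a ha
    have hg0 := hne hg5
    have hg0' := hne hg2
    have hgi := hinv g hg4 hg5
    have hgi' := hinv g' hg1 hg2
    have e1 : f ^ (m * N - n) = g' * (g⁻¹) ^ N := by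
      rw [zpow_sub₀ hf0, zpow_mul, zpow_natCast, inv_pow]
      rw [hg, mul_pow] at h1
      have hfn := zpow_ne_zero n hf0
      field_simp
      rw [h1]
    have h2 : m * N - n = 0 := by
      refine zpow_unit π hfQ hf0 hfπ ?_ ?_
      · rw [e1]
        exact Q.mul_mem hg1 (Q.pow_mem hgi _)
      · rw [e1, mul_inv, inv_pow, inv_inv]
        exact Q.mul_mem hgi' (Q.pow_mem hg4 _)
    rw [h2, zpow_zero] at e1
    have e2 : g' = g ^ N := by
      rw [inv_pow] at e1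
      have := pow_ne_zero N hg0
      field_simp at e1
      exact e1.symm
    refine ⟨m, g, hg, hg4, hg5, hPr.root _ N hN hg5 ?_⟩
    rw [← pq_pow π hg4, ← e2]
    exact hg3

/-- **Restriction of a model to a divisor.** -/
theorem cutV (hne𝒲 : 𝒲.Nonempty)
    (hK : ∀ x : K, (∃ a b : Q, π b ≠ 0 ∧ x * b = a) ∨ (∃ a b : Q, π b ≠ 0 ∧ x⁻¹ * b = a))
    (h𝒲 : ∀ V ∈ 𝒲, pullV π hK V ∈ 𝒱) (hs : Function.Surjective π) (hQ : ∀ x : K, x ∈ Q ∨ x⁻¹ ∈ Q)
    (hinv : ∀ b : K, b ∈ Q → pq π b ≠ 0 → b⁻¹ ∈ Q) (f : K) (hfQ : f ∈ Q) (hf0 : f ≠ 0)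
    (hfπ : pq π f = 0) (hun : ∀ q ∈ Q, pq π q = 0 → q / f ∈ Q)
    {T I : Type} [Finite T] [Fintype I] (M : LM 𝒱 (⊥ : Subalgebra k K) R T I) (hMf : IsBr M f)
    (hdom : ∀ t, M.A t ≤ Q → ∀ q ∈ Q, ∃ a ∈ M.A t, ∃ b ∈ M.A t, pq π b ≠ 0 ∧ q * b = a)
    (hRQ : ∀ r ∈ R, r ∈ Q) (hRR : ∀ r ∈ R, pq π r ∈ R') (δ : K) (hδR : δ ∈ R)
    (hδπ : pq π δ ≠ 0) (hδ : IsBr M δ) (hfR : δ * f ∈ R)
    (hdiv : ∀ b ∈ R, b ≠ 0 → ∃ (e m : ℕ) (c : K), c ∈ R ∧ pq π c ≠ 0 ∧ b * δ ^ m = f ^ e * c) :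
    ∃ (T' I' : Type) (_ : Finite T') (_ : Fintype I') (M' : LM 𝒲 (⊥ : Subalgebra k L) R' T' I'),
      Frc M' ∧ (∀ g, g ∈ Q → pq π g ≠ 0 → IsBr M g → IsBr M' (pq π g)) ∧
      ∀ (V : ValuationSubring L) (Pr : L → Prop),
        VG M (pullV π hK V) (CutP π f Pr) → VG M' V Pr := by
  classical
  have hne : ∀ {b : K}, pq π b ≠ 0 → b ≠ 0 := by
    rintro b hb rfl
    exact hb (pq_zero π)
  have hinv' : ∀ b : Q, π b ≠ 0 → (b : K)⁻¹ ∈ Q := fun b hb =>
    hinv b b.2 (by rw [pq_coe]; exact hb)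
  -- units of `Q`
  have hunit : ∀ b : K, b ∈ Q → b ≠ 0 → b⁻¹ ∈ Q → pq π b ≠ 0 := fun b hb h0 hb' =>
    pq_ne π h0 hb hb'
  let τ : {t : T // M.A t ≤ Q} → T := Subtype.val
  have hAQ : ∀ t, M.A (τ t) ≤ Q := fun t => t.2
  obtain ⟨N, hN, γ, hγ⟩ := hMf
  have hN0 : N ≠ 0 := by
    rintro rfl
    rw [Nat.cast_zero] at hN
    have h1 := hN.map (algebraMap k K)
    rw [map_zero] at h1
    exact not_isUnit_zero h1
  -- the local ring of the divisor
  have hQl : Loc Q.toSubring := by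
    intro a ha
    by_cases h : pq π a = 0
    · right
      have e : pq π (1 - a) = 1 := by
        rw [sub_eq_add_neg, pq_add π Q.one_mem (Q.neg_mem ha), pq_neg π ha, pq_one, h, neg_zero,
          add_zero]
      have h1 : pq π (1 - a) ≠ 0 := by rw [e]; exact one_ne_zero
      exact ⟨hne h1, hinv _ (Q.sub_mem Q.one_mem ha) h1⟩
    · exact Or.inl ⟨hne h, hinv _ ha h⟩
  have hlo : ∀ t : {t : T // M.A t ≤ Q}, ∀ q ∈ Q, q ∈ lo Q.toSubring (M.A (τ t)).toSubring := by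
    intro t q hq
    obtain ⟨a, ha, b, hb, hb0, hab⟩ := hdom (τ t) (hAQ t) q hq
    refine ⟨a, ha, b, hb, hne hb0, hinv b (hAQ t hb) hb0, ?_⟩
    rw [← hab, mul_assoc, mul_inv_cancel₀ (hne hb0), mul_one]
  -- Claim 1: some component contains the divisor
  have claim1 : ∀ t : {t : T // M.A t ≤ Q}, ∃ i, pq π (M.x (τ t) i) = 0 := by
    intro t
    by_contra hcon
    push Not at hcon
    obtain ⟨w, h0, h1, h2, h3⟩ := hγ (τ t)
    have h4 : (f ^ N)⁻¹ ∈ Q := by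
      rw [h3, mul_inv, ← Finset.prod_inv_distrib]
      refine Q.mul_mem (hAQ t h2) (Q.prod_mem fun i _ => ?_)
      rw [← zpow_neg]
      exact zpow_mem_of (hAQ t (M.xA _ i)) (Or.inr (hinv _ (hAQ t (M.xA _ i)) (hcon i)))
    have h5 := hunit (f ^ N) (Q.pow_mem hfQ N) (pow_ne_zero _ hf0) h4
    rw [pq_pow π hfQ, hfπ, zero_pow hN0] at h5
    exact h5 rfl
  -- Claim 2: it is unique
  have claim2 : ∀ (t : {t : T // M.A t ≤ Q}) (i j : I), pq π (M.x (τ t) i) = 0 →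
      pq π (M.x (τ t) j) = 0 → i = j := by
    intro t i j hi hj
    by_contra hij
    -- assume `x j / x i ∈ Q`
    have key : ∀ i j, i ≠ j → pq π (M.x (τ t) i) = 0 → pq π (M.x (τ t) j) = 0 →
        M.x (τ t) j / M.x (τ t) i ∈ Q → False := by
      intro i j hij hi hj h
      have h1 := (M.rg (τ t)).reg Q.toSubring hQl (hAQ t) Bool (fun b => if b then i else j) (by
        rintro (_ | _) (_ | _) hab
        · rfl
        · exact absurd hab.symm hij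
        · exact absurd hab hij
        · rfl)
      have hreg := h1.reg
      have h2 := h1.ind.ind (id : Bool → Bool) Function.injective_id (by
        rintro (_ | _)
        · rw [h1.mem_max]
          rintro ⟨h3, h4⟩
          exact hunit _ (hAQ t (M.xA _ _)) h3 h4 hj
        · rw [h1.mem_max]
          rintro ⟨h3, h4⟩
          exact hunit _ (hAQ t (M.xA _ _)) h3 h4 hi)
      refine h2.not_dvd (i := true) (j := false) (by simp) ⟨⟨_, hlo t _ h⟩, Subtype.ext ?_⟩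
      change M.x (τ t) j = M.x (τ t) i * (M.x (τ t) j / M.x (τ t) i)
      rw [mul_div_cancel₀ _ (M.x0 _ _)]
    rcases hQ (M.x (τ t) j / M.x (τ t) i) with h | h
    · exact key i j hij hi hj h
    · rw [inv_div] at h
      exact key j i (Ne.symm hij) hj hi h
  have hT' : Nonempty {t : T // M.A t ≤ Q} := by
    obtain ⟨V, hV⟩ := hne𝒲
    obtain ⟨t, ht⟩ := M.cv (pullV π hK V) (h𝒲 V hV)
    refine ⟨⟨t, ?_⟩⟩
    intro f hf
    obtain ⟨a, b, hb, h1, -⟩ := ht f hf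
    have hb0 : (b : K) ≠ 0 := by
      intro h0
      apply hb
      have : b = 0 := Subtype.ext h0
      rw [this, map_zero]
    have : f = a * (b : K)⁻¹ := by
      rw [← h1, mul_assoc, mul_inv_cancel₀ hb0, mul_one]
    rw [this]
    exact Q.mul_mem a.2 (hinv' b hb)
  obtain ⟨t0⟩ := hT'
  obtain ⟨i0, hi0⟩ := claim1 t0
  -- Claim 3: the component is the same on all charts
  have claim3 : ∀ t : {t : T // M.A t ≤ Q}, pq π (M.x (τ t) i0) = 0 := by
    intro t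
    have hOV : OV M (τ t) (τ t0) ≤ Q := by
      refine adj_le (hAQ t) ?_
      rw [inv_div]
      exact hAQ t0 (M.rt _ _)
    have h1 : M.x (τ t) i0 = M.x (τ t) i0 / M.x (τ t0) i0 * M.x (τ t0) i0 := by
      rw [div_mul_cancel₀ _ (M.x0 _ _)]
    rw [h1, pq_mul π (hOV (u_inv_mem_OV M (τ t) (τ t0) i0)) (hAQ t0 (M.xA _ _)), hi0, mul_zero]
  have hx0 : ∀ (t : {t : T // M.A t ≤ Q}) (i : I), i ≠ i0 → pq π (M.x (τ t) i) ≠ 0 :=
    fun t i hi h => hi (claim2 t i i0 h (claim3 t))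
  -- Claim 4: the component is a uniformizer
  have claim4 : ∀ t : {t : T // M.A t ≤ Q}, ∀ q ∈ Q, pq π q = 0 → q / M.x (τ t) i0 ∈ Q := by
    intro t q hq hq0
    have h1 : f / M.x (τ t) i0 ∈ Q := by
      by_contra hcon
      have h2 : M.x (τ t) i0 / f ∈ Q := hun _ (hAQ t (M.xA _ _)) (claim3 t)
      have h3 : pq π (M.x (τ t) i0 / f) = 0 := by
        by_contra h4
        have h5 := hinv _ h2 h4
        rw [inv_div] at h5
        exact hcon h5
      have h4 := hun _ h2 h3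
      have h5 := (M.rg (τ t)).reg Q.toSubring hQl (hAQ t) Unit (fun _ => i0)
        (fun _ _ _ => rfl)
      have hreg := h5.reg
      have hmax : ∀ z (hz : z ∈ lo Q.toSubring (M.A (τ t)).toSubring), pq π z = 0 →
          (⟨z, hz⟩ : lo Q.toSubring (M.A (τ t)).toSubring) ∈
            maximalIdeal (lo Q.toSubring (M.A (τ t)).toSubring) := by
        intro z hz hz0
        rw [h5.mem_max]
        rintro ⟨h6, h7⟩
        exact hunit _ (lo_le (hAQ t) hz) h6 h7 hz0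
      have h6 := h5.ind.ind (id : Unit → Unit) Function.injective_id (fun _ =>
        hmax _ _ (claim3 t))
      have h7 : (⟨M.x (τ t) i0, le_lo _ _ (M.xA _ _)⟩ :
          lo Q.toSubring (M.A (τ t)).toSubring) ∈
            maximalIdeal (lo Q.toSubring (M.A (τ t)).toSubring) ^ 2 := by
        have e1 : (⟨M.x (τ t) i0, le_lo _ _ (M.xA _ _)⟩ :
            lo Q.toSubring (M.A (τ t)).toSubring) = ⟨f, hlo t _ hfQ⟩ * ⟨_, hlo t _ h2⟩ := by
          apply Subtype.ext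
          change M.x (τ t) i0 = f * (M.x (τ t) i0 / f)
          rw [mul_div_cancel₀ _ hf0]
        rw [e1, pow_two]
        exact Ideal.mul_mem_mul (hmax _ _ hfπ) (hmax _ _ h3)
      have h8 := h6.2 (fun _ => 1) (by
        rw [Fintype.sum_unique, one_mul]
        exact h7) ()
      exact (Ideal.ne_top_iff_one _).1 (maximalIdeal.isMaximal _).ne_top h8
    have h2 : q / M.x (τ t) i0 = q / f * (f / M.x (τ t) i0) := by
      have := M.x0 (τ t) i0
      field_simp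
    rw [h2]
    exact Q.mul_mem (hun q hq hq0) h1
  -- Claim 5: monomials restrict to monomials
  have claim5 : ∀ (t : {t : T // M.A t ≤ Q}) (g : K) (δ : I → ℤ), g ∈ Q → pq π g ≠ 0 →
      IsM (M.A (τ t)) (M.x (τ t)) g δ →
      IsM (im π (M.A (τ t)) (hAQ t)) (fun i : {i : I // i ≠ i0} => pq π (M.x (τ t) i.1)) (pq π g)
        (fun i => δ i.1) := by
    intro t g δ hg hg0 hδ
    obtain ⟨w, h0, h1, h2, h3⟩ := hδ
    -- the exponent of the component vanishes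
    have hwπ : pq π w ≠ 0 := pq_ne π h0 (hAQ t h1) (hAQ t h2)
    have hmem : ∀ i : I, i ≠ i0 → M.x (τ t) i ^ δ i ∈ Q := fun i hi =>
      zpow_mem_of (hAQ t (M.xA _ _)) (Or.inr (hinv _ (hAQ t (M.xA _ _)) (hx0 t i hi)))
    have hmem' : ∀ i : I, i ≠ i0 → (M.x (τ t) i ^ δ i)⁻¹ ∈ Q := fun i hi => by
      rw [← zpow_neg]
      exact zpow_mem_of (hAQ t (M.xA _ _)) (Or.inr (hinv _ (hAQ t (M.xA _ _)) (hx0 t i hi)))
    have hP : ∏ i ∈ Finset.univ.erase i0, M.x (τ t) i ^ δ i ∈ Q :=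
      Q.prod_mem fun i hi => hmem i (Finset.ne_of_mem_erase hi)
    have hP' : (∏ i ∈ Finset.univ.erase i0, M.x (τ t) i ^ δ i)⁻¹ ∈ Q := by
      rw [← Finset.prod_inv_distrib]
      exact Q.prod_mem fun i hi => hmem' i (Finset.ne_of_mem_erase hi)
    have hP0 : ∏ i ∈ Finset.univ.erase i0, M.x (τ t) i ^ δ i ≠ 0 :=
      Finset.prod_ne_zero_iff.2 fun i _ => zpow_ne_zero _ (M.x0 _ _)
    have h3' : g = w * (M.x (τ t) i0 ^ δ i0 *
        ∏ i ∈ Finset.univ.erase i0, M.x (τ t) i ^ δ i) := by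
      rw [h3, Finset.mul_prod_erase Finset.univ (fun i => M.x (τ t) i ^ δ i)
        (Finset.mem_univ i0)]
    have hg0' : g ≠ 0 := hne hg0
    have hginv : g⁻¹ ∈ Q := hinv g hg hg0
    have hxe : M.x (τ t) i0 ^ δ i0 = g * w⁻¹ *
        (∏ i ∈ Finset.univ.erase i0, M.x (τ t) i ^ δ i)⁻¹ := by
      rw [h3']
      field_simp
    have hxe1 : M.x (τ t) i0 ^ δ i0 ∈ Q := by
      rw [hxe]
      exact Q.mul_mem (Q.mul_mem hg (hAQ t h2)) hP'
    have hxe2 : (M.x (τ t) i0 ^ δ i0)⁻¹ ∈ Q := by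
      rw [hxe, mul_inv, mul_inv, inv_inv, inv_inv]
      exact Q.mul_mem (Q.mul_mem hginv (hAQ t h1)) hP
    have hxQ := hAQ t (M.xA (τ t) i0)
    have hδ0 : δ i0 = 0 := by
      by_contra hne0
      rcases lt_or_gt_of_ne hne0 with h | h
      · obtain ⟨m, hm⟩ := Int.eq_ofNat_of_zero_le (show 0 ≤ -δ i0 by omega)
        have hm0 : m ≠ 0 := by omega
        have e1 : δ i0 = -(m : ℤ) := by omega
        rw [e1, zpow_neg, zpow_natCast, inv_inv] at hxe2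
        rw [e1, zpow_neg, zpow_natCast] at hxe1
        have h4 := hunit _ hxe2 (pow_ne_zero _ (M.x0 _ _)) hxe1
        rw [pq_pow π hxQ, claim3 t, zero_pow hm0] at h4
        exact h4 rfl
      · obtain ⟨m, hm⟩ := Int.eq_ofNat_of_zero_le h.le
        have hm0 : m ≠ 0 := by omega
        rw [hm, zpow_natCast] at hxe1 hxe2
        have h4 := hunit _ hxe1 (pow_ne_zero _ (M.x0 _ _)) hxe2
        rw [pq_pow π hxQ, claim3 t, zero_pow hm0] at h4
        exact h4 rfl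
    rw [hδ0, zpow_zero, one_mul] at h3'
    refine ⟨pq π w, hwπ, pq_mem π (hAQ t) h1, ?_, ?_⟩
    · rw [← pq_inv π h0 (hAQ t h1) (hAQ t h2)]
      exact pq_mem π (hAQ t) h2
    · rw [h3', pq_mul π (hAQ t h1) hP,
        pq_prod π _ _ fun i hi => hmem i (Finset.ne_of_mem_erase hi)]
      congr 1
      have e1 : ∀ i ∈ Finset.univ.erase i0, pq π (M.x (τ t) i ^ δ i) =
          pq π (M.x (τ t) i) ^ δ i := fun i hi =>
        pq_zpow π (M.x0 _ _) (hAQ t (M.xA _ _))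
          (hinv _ (hAQ t (M.xA _ _)) (hx0 t i (Finset.ne_of_mem_erase hi))) _
      rw [Finset.prod_congr rfl e1]
      refine (Finset.prod_subtype (Finset.univ.erase i0) (by
        intro i
        simp) (fun i => pq π (M.x (τ t) i) ^ δ i))
  -- Claim 6: the denominators
  have hδQ : δ ∈ Q := hRQ δ hδR
  have claim6 : ∀ t : {t : T // M.A t ≤ Q}, Qd R' (im π (M.A (τ t)) (hAQ t))
      (fun i : {i : I // i ≠ i0} => pq π (M.x (τ t) i.1)) := by
    intro t f' hf'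
    obtain ⟨g, hg, rfl⟩ := (mem_im π).1 hf'
    by_cases hg0 : g = 0
    · refine ⟨1, R'.one_mem, Mo.one, ?_⟩
      rw [hg0, pq_zero, zero_mul]
      exact R'.zero_mem
    obtain ⟨b, hb, hbm, hgb⟩ := M.q (τ t) g hg
    have hb0 : b ≠ 0 := hbm.ne (M.x0 _)
    obtain ⟨e, m, c, hc, hc0, hbc⟩ := hdiv b hb hb0
    obtain ⟨e', m', c', hc', hc0', hbc'⟩ := hdiv _ hgb (mul_ne_zero hg0 hb0)
    have hδ0 : δ ≠ 0 := hne hδπ
    have key : g * c * δ ^ m' * f ^ e = f ^ e' * c' * δ ^ m := by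
      calc g * c * δ ^ m' * f ^ e = g * (f ^ e * c) * δ ^ m' := by ring
        _ = g * (b * δ ^ m) * δ ^ m' := by rw [hbc]
        _ = g * b * δ ^ m' * δ ^ m := by ring
        _ = _ := by rw [hbc']
    have hee : e ≤ e' := by
      by_contra hlt
      push Not at hlt
      obtain ⟨j, rfl⟩ := Nat.exists_eq_add_of_lt hlt
      have h1 : c' * δ ^ m = f * (g * c * δ ^ m' * f ^ j) := by
        have hfe : f ^ e' ≠ 0 := pow_ne_zero _ hf0
        apply mul_left_cancel₀ hfe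
        calc f ^ e' * (c' * δ ^ m) = f ^ e' * c' * δ ^ m := by ring
          _ = _ := by rw [← key]; ring
      have h2 : pq π (c' * δ ^ m) = 0 := by
        rw [h1, pq_mul π hfQ, hfπ, zero_mul]
        exact Q.mul_mem (Q.mul_mem (Q.mul_mem (hAQ t hg) (hRQ c hc)) (Q.pow_mem hδQ _))
          (Q.pow_mem hfQ _)
      rw [pq_mul π (hRQ c' hc') (Q.pow_mem hδQ _), pq_pow π hδQ] at h2
      exact mul_ne_zero hc0' (pow_ne_zero _ hδπ) h2
    obtain ⟨j, rfl⟩ := Nat.exists_eq_add_of_le hee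
    obtain ⟨N', hN', γ', hγ'⟩ := hδ
    have hN0' : N' ≠ 0 := ne_zero_of_isUnit (K := K) hN'
    let b2 : K := c * δ ^ (m' + j)
    have hb2 : b2 ∈ R := R.mul_mem hc (R.pow_mem hδR _)
    have hb2π : pq π b2 ≠ 0 := by
      rw [pq_mul π (hRQ c hc) (Q.pow_mem hδQ _), pq_pow π hδQ]
      exact mul_ne_zero hc0 (pow_ne_zero _ hδπ)
    have hgb2 : g * b2 ∈ R := by
      have e1 : g * b2 = (δ * f) ^ j * c' * δ ^ m := by
        have hfe : f ^ e ≠ 0 := pow_ne_zero _ hf0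
        apply mul_left_cancel₀ hfe
        calc f ^ e * (g * (c * δ ^ (m' + j))) = (g * c * δ ^ m' * f ^ e) * δ ^ j := by ring
          _ = _ := by rw [key]; ring
      rw [e1]
      exact R.mul_mem (R.mul_mem (R.pow_mem hfR _) hc') (R.pow_mem hδR _)
    -- a power is a monomial
    have hMoF : Mo (M.A (τ t)) (M.x (τ t)) (f ^ N) := (hγ (τ t)).mo
    have hMoδ : Mo (M.A (τ t)) (M.x (τ t)) (δ ^ N') := (hγ' (τ t)).mo
    have hMo : Mo (M.A (τ t)) (M.x (τ t)) (b2 ^ (N * N')) := by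
      have e1 : b2 ^ (N * N') = b ^ (N * N') * ((δ ^ N') ^ (N * (m + m' + j))) *
          ((f ^ N) ^ (N' * e))⁻¹ := by
        have hfe : (f ^ N) ^ (N' * e) ≠ 0 := pow_ne_zero _ (pow_ne_zero _ hf0)
        rw [eq_mul_inv_iff_mul_eq₀ hfe]
        have e2 : b2 * f ^ e = b * δ ^ (m + m' + j) := by
          calc c * δ ^ (m' + j) * f ^ e = (f ^ e * c) * δ ^ (m' + j) := by ring
            _ = b * δ ^ m * δ ^ (m' + j) := by rw [hbc]
            _ = _ := by ring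
        calc b2 ^ (N * N') * (f ^ N) ^ (N' * e) = (b2 * f ^ e) ^ (N * N') := by
              rw [mul_pow, ← pow_mul, ← pow_mul]; congr 2; ring
          _ = (b * δ ^ (m + m' + j)) ^ (N * N') := by rw [e2]
          _ = _ := by rw [mul_pow, ← pow_mul, ← pow_mul]; congr 2; ring
      rw [e1]
      exact Mo.mul _ _ (Mo.mul _ _ (hbm.pow _) (hMoδ.pow _)) (Mo.inv _ (hMoF.pow _))
    obtain ⟨γ2, hγ2⟩ := hMo.isM (M.x0 _)
    have hNN : N * N' ≠ 0 := mul_ne_zero hN0 hN0'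
    obtain ⟨n, hn⟩ := Nat.exists_eq_succ_of_ne_zero hNN
    have hb2Q : b2 ∈ Q := hRQ _ hb2
    refine ⟨pq π (b2 ^ (N * N')), hRR _ (R.pow_mem hb2 _), (claim5 t _ γ2 (Q.pow_mem hb2Q _) (by
      rw [pq_pow π hb2Q]
      exact pow_ne_zero _ hb2π) hγ2).mo, ?_⟩
    rw [← pq_mul π (hAQ t hg) (Q.pow_mem hb2Q _)]
    apply hRR
    rw [hn, Nat.succ_eq_add_one, pow_succ', ← mul_assoc]
    exact R.mul_mem hgb2 (R.pow_mem hb2 _)
  obtain ⟨M', hA', hx'⟩ := exists_model3 π hK hinv' hne𝒲 h𝒲 M τ (fun i : {i : I // i ≠ i0} => i.1)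
    (fun t ht => ⟨⟨t, ht⟩, rfl⟩) t0 hAQ
    (fun t i => hinv _ (hAQ t (M.xA _ _)) (hx0 t i.1 i.2))
    (fun t => RegC.cut π hinv (hAQ t) (M.rg (τ t)) i0 (claim3 t) (hx0 t) (claim4 t)
      (hdom (τ t) (hAQ t))) claim6
  refine ⟨{t : T // M.A t ≤ Q}, {i : I // i ≠ i0}, inferInstance, inferInstance, M', ?_, ?_, ?_⟩
  · intro t z
    obtain ⟨⟨q, hq⟩, rfl⟩ := hs z
    obtain ⟨a, ha, b, hb, hb0, hab⟩ := hdom (τ t) (hAQ t) q hq
    rw [hA']
    refine ⟨pq π a, pq_mem π (hAQ t) ha, pq π b, pq_mem π (hAQ t) hb, hb0, ?_⟩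
    rw [← hab, pq_mul π hq (hAQ t hb), mul_assoc, mul_inv_cancel₀ hb0, mul_one, pq_of π hq]
  · intro g hg hg0 hMg
    obtain ⟨n, hn, δ, hδ⟩ := hMg
    refine ⟨n, hn, fun i => δ i.1, ?_⟩
    intro t
    rw [hA', hx', ← pq_pow π hg]
    exact claim5 t _ _ (Q.pow_mem hg _) (by rw [pq_pow π hg]; exact pow_ne_zero _ hg0) (hδ (τ t))
  · intro V Pr hV t ht i
    rw [hx']
    have h1 : ∀ g ∈ M.A (τ t), g ∈ pullV π hK V := by
      intro g hg
      have h2 : pq π g ∈ V := ht _ (by rw [hA']; exact pq_mem π (hAQ t) hg)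
      refine ⟨⟨g, hAQ t hg⟩, 1, by rw [map_one]; exact one_ne_zero, by simp, ?_⟩
      rw [map_one, div_one, ← pq_of π (hAQ t hg)]
      exact h2
    obtain ⟨n, g', e, hg1, hg2, hg3⟩ := hV (τ t) h1 i.1
    have hxQ := hAQ t (M.xA (τ t) i.1)
    have hxi := hinv _ hxQ (hx0 t i.1 i.2)
    have hgi := hinv _ hg1 hg2
    have hg0 := hne hg2
    have e1 : f ^ n = M.x (τ t) i.1 * g'⁻¹ := by
      rw [e, mul_assoc, mul_inv_cancel₀ hg0, mul_one]
    have hn : n = 0 := by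
      refine zpow_unit π hfQ hf0 hfπ ?_ ?_
      · rw [e1]
        exact Q.mul_mem hxQ hgi
      · rw [e1, mul_inv, inv_inv]
        exact Q.mul_mem hxi hg1
    rw [hn, zpow_zero, one_mul] at e
    change Pr (pq π (M.x (τ t) i.1))
    rw [e]
    exact hg3

end cut

end Pool.Agent.N98.VG
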