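import Pool.Agent.N98.SS.Gen

/-!
Semistable models from one stage, if the value of `π` is not a `p`-th power of a monomial.
-/

set_option autoImplicit false
set_option linter.unusedVariables false
set_option linter.unusedSectionVars false

universe u

namespace Pool.Agent.N98.VG

open Pool.Agent.W418.LU2 IsLocalRing Polynomial Pool.Agent.H176.DT Pool.Agent.Y67.DT
  Pool.Agent.N98.SS

section ind

/-- Stages with independent values. -/
theorem ind_of_stageV (h1 : S_ref.{u}) (h2 : S_expo.{u}) {F : Type u} [Field F]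
    (V : ValuationSubring F) (A : Subring F) {T : Set F} {n : ℕ} {x : Fin n → F}
    (hst : St V A T x) (G : Set F) (hG : G.Finite) (hgx : ∀ g ∈ G, PMon (PP V A T) x g) :
    ∃ (T : Set F) (s : ℕ) (x' : Fin s → F), St V A T x' ∧ (∀ i, (x' i)⁻¹ ∉ V) ∧
      (∀ δ : Fin s → ℤ, V.valuation (mo x' δ) = 1 → δ = 0) ∧
      (∀ g ∈ G, PMon (PP V A T) x' g ∧ (g ∈ V → g ∈ PP V A T)) ∧
      ∀ δ' : Fin s → ℤ, ∃ δ : Fin n → ℤ, mo x' δ' = mo x δ := by
  classical
  have hx : ∀ i, x i ≠ 0 := hst.reg.ne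
  -- the lattice of the monomials of value one
  let Λ : AddSubgroup (Fin n → ℤ) :=
    { carrier := {δ | V.valuation (mo x δ) = 1}
      add_mem' := by
        intro a b ha hb
        change V.valuation (mo x (a + b)) = 1
        rw [mo_add hx, map_mul]
        rw [Set.mem_setOf_eq] at ha hb
        rw [ha, hb, one_mul]
      zero_mem' := by
        change V.valuation (mo x 0) = 1
        rw [mo_zero, map_one]
      neg_mem' := by
        intro a ha
        change V.valuation (mo x (-a)) = 1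
        rw [Set.mem_setOf_eq] at ha
        rw [mo_neg, map_inv₀, ha, inv_one] }
  have hΛ : ∀ δ, δ ∈ Λ ↔ V.valuation (mo x δ) = 1 := fun δ => Iff.rfl
  obtain ⟨Δ, hΔ⟩ := IsNoetherian.noetherian (AddSubgroup.toIntSubmodule Λ)
  have hΔΛ : ∀ δ ∈ Δ, δ ∈ Λ := by
    intro δ hδ
    have h3 : δ ∈ AddSubgroup.toIntSubmodule Λ := by
      rw [← hΔ]
      exact Submodule.subset_span hδ
    exact h3
  obtain ⟨T', x', hTT, hst', hRef, hx'm, hPM, hmem⟩ := h1 V A T x hst
    ((fun δ => mo x δ) '' (Δ : Set (Fin n → ℤ)) ∪ (fun δ => mo x (-δ)) '' (Δ : Set (Fin n → ℤ)) ∪ G)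
    (((Δ.finite_toSet.image _).union (Δ.finite_toSet.image _)).union hG) (by
      rintro g ((⟨δ, -, rfl⟩ | ⟨δ, -, rfl⟩) | hg)
      · exact PMon.of_mo δ
      · exact PMon.of_mo (-δ)
      · exact hgx g hg)
  have hunit : ∀ δ ∈ Λ, mo x δ ∈ PP V A T' ∧ (mo x δ)⁻¹ ∈ PP V A T' := by
    intro δ hδ
    have h3 : δ ∈ Submodule.span ℤ (Δ : Set (Fin n → ℤ)) := by
      rw [hΔ]
      exact hδ
    induction h3 using Submodule.span_induction with
    | mem δ hd =>
      have h4 := (hΛ δ).1 (hΔΛ δ hd)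
      refine ⟨hmem _ (Or.inl (Or.inl ⟨δ, hd, rfl⟩)) ?_, ?_⟩
      · rw [← V.valuation_le_one_iff]
        exact h4.le
      · rw [← mo_neg]
        refine hmem _ (Or.inl (Or.inr ⟨δ, hd, rfl⟩)) ?_
        rw [← V.valuation_le_one_iff, mo_neg, map_inv₀, h4, inv_one]
    | zero =>
      rw [mo_zero, inv_one]
      exact ⟨Subring.one_mem _, Subring.one_mem _⟩
    | add a b ha hb iha ihb =>
      have ha' : a ∈ Λ := by
        have h5 : a ∈ AddSubgroup.toIntSubmodule Λ := by rw [← hΔ]; exact ha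
        exact h5
      have hb' : b ∈ Λ := by
        have h5 : b ∈ AddSubgroup.toIntSubmodule Λ := by rw [← hΔ]; exact hb
        exact h5
      rw [mo_add hx, mul_inv]
      exact ⟨Subring.mul_mem _ (iha ha').1 (ihb hb').1, Subring.mul_mem _ (iha ha').2 (ihb hb').2⟩
    | smul c a ha iha =>
      have ha' : a ∈ Λ := by
        have h5 : a ∈ AddSubgroup.toIntSubmodule Λ := by rw [← hΔ]; exact ha
        exact h5
      rw [mo_zsmul, ← inv_zpow]
      exact ⟨zpow_mem_P (iha ha').1 (iha ha').2 _,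
        zpow_mem_P (iha ha').2 (by rw [inv_inv]; exact (iha ha').1) _⟩
  have hclaim : ∀ δ : Fin n → ℤ, V.valuation (mo x' δ) = 1 → ∀ i, (x' i)⁻¹ ∉ V → δ i = 0 := by
    intro δ hδ i hi
    obtain ⟨δ', hδ'⟩ := mo_of_mo hx hx'm δ
    have h3 := hunit δ' ((hΛ δ').2 (by rw [← hδ']; exact hδ))
    rw [← hδ'] at h3
    have h4 := h2 hst'.reg δ h3.1 i hi
    have h5 := h2 hst'.reg (-δ) (by rw [mo_neg]; exact h3.2) i hi
    rw [Pi.neg_apply] at h5
    omega
  -- drop the units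
  let e : Fin (Fintype.card {i : Fin n // (x' i)⁻¹ ∉ V}) ≃ {i : Fin n // (x' i)⁻¹ ∉ V} :=
    (Fintype.equivFin _).symm
  let f : Fin (Fintype.card {i : Fin n // (x' i)⁻¹ ∉ V}) → Fin n := fun j => (e j).1
  have hf : Function.Injective f := Subtype.val_injective.comp e.injective
  have hfu : ∀ i, i ∉ Set.range f → (x' i)⁻¹ ∈ PP V A T' := by
    intro i hi
    refine hst'.reg.inv _ (hst'.reg.mem i) (hst'.reg.ne i) ?_
    by_contra h3
    exact hi ⟨e.symm ⟨i, h3⟩, by simp [f]⟩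
  have hPMf : ∀ g, PMon (PP V A T') x' g → PMon (PP V A T') (fun j => x' (f j)) g := fun g hg =>
    pmon_comp hst'.reg.ne hst'.reg.mem f hf hfu hg
  refine ⟨T', _, fun j => x' (f j), ⟨hst'.fin, regP_comp hst'.reg f hf, ?_⟩, fun j => (e j).2, ?_, ?_, ?_⟩
  · obtain ⟨β, hβA, hβ, hβT, hβx⟩ := hst'.den
    exact ⟨β, hβA, hPMf β hβ, hβT, fun j => hβx _⟩
  · intro δ hδ
    rw [mo_extend x' f hf] at hδ
    funext j
    have h3 := hclaim _ hδ (f j) (e j).2
    rwa [hf.extend_apply] at h3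
  · intro g hg
    exact ⟨hPMf g (hPM g (hgx g hg)), hmem g (Or.inr hg)⟩
  · intro δ
    rw [mo_extend x' f hf]
    exact mo_of_mo hx hx'm _

end ind

section main

variable {K : Type u} [Field K]

/-- The stage over the ramified extension. -/
theorem ss_stage_genV (het : S6_et.{u}) (htor : S6_tor.{u})
    (V : ValuationSubring K) (O : Subring K) {W : Set K} {w : K}
    (hM : Mod V (ch O W w)) (π : K) {T0 : Set K} {n0 : ℕ} {x0 : Fin n0 → K}
    (hst0 : St V (ch O W w) T0 x0)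
    (hmon0 : PMon (PP V (ch O W w) T0) x0 π)
    (hπ0 : π ≠ 0) (hπ1 : V.valuation π < 1)
    (htn : ∀ z : K, z ≠ 0 → ∃ n : ℕ, V.valuation π ^ n ≤ V.valuation z)
    (hdiv : ∀ q : ℕ, q.Prime → V.valuation (q : K) < 1 → ∀ δ : Fin n0 → ℤ,
      V.valuation (mo x0 δ) ^ q ≠ V.valuation π) :
    ∃ d N₀ : ℕ, 0 < d ∧ (∀ q : ℕ, q.Prime → q ∣ d → V.valuation (q : K) = 1 ∨
        ∃ z : K, ∀ n : ℤ, V.valuation π < V.valuation (π / z ^ q) ^ n) ∧
      ∀ N : ℕ, N₀ ≤ N → d ∣ N →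
      ∀ {K' : Type u} [Field K'] [Algebra K K'] (V' : ValuationSubring K') (ϖ : K'),
      V'.comap (algebraMap K K') = V → ϖ ^ N = algebraMap K K' π →
      (∀ z : K', z ∈ Subfield.closure (Set.range (algebraMap K K') ∪ {ϖ})) →
      ∃ (T' : Set K') (s : ℕ) (m : Fin s → K'), 0 < s ∧
        St V' (ch (Orm O ϖ) (algebraMap K K' '' W) (algebraMap K K' w)) T' m ∧
        (∀ j, (m j)⁻¹ ∉ V') ∧ ∏ j, m j = ϖ := by
  classical
  obtain ⟨T, s, x, hSt, hxV, hind, hmon, hxx⟩ := ind_of_stageV p_ref p_expo V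
    (ch O W w) hst0 {π} (Set.finite_singleton π) (by rintro g rfl; exact hmon0)
  obtain ⟨⟨u, hu0, hu1, hu2, γ, hγ⟩, -⟩ := hmon π rfl
  have hx0 := hSt.reg.ne
  have hPV : PP V (ch O W w) T ≤ V.toSubring := hSt.reg.PA
  have hvu : V.valuation u = 1 := (val_one_iff _ u).2 ⟨hu0, hPV hu1, hPV hu2⟩
  have hvx : ∀ i, V.valuation (x i) < 1 := fun i =>
    lt_of_le_of_ne ((V.valuation_le_one_iff _).2 (hPV (hSt.reg.mem i)))
      fun h => hxV i ((val_one_iff _ _).1 h).2.2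
  have hvγ : V.valuation (mo x γ) = V.valuation π := by rw [hγ, map_mul, hvu, one_mul]
  have hγ0' : γ ≠ 0 := by
    rintro rfl
    rw [mo_zero, map_one] at hvγ
    rw [← hvγ] at hπ1
    exact lt_irrefl _ hπ1
  obtain ⟨D, γ0, c, hD, hγd, hc⟩ := exists_content γ hγ0'
  have hmoγ : mo x γ = mo x γ0 ^ D := by
    have h1 : γ = (D : ℤ) • γ0 := funext fun i => hγd i
    rw [h1, Pool.Agent.Y67.DT.mo_zsmul, zpow_natCast]
  have hvnat : ∀ n : ℕ, V.valuation (n : K) ≤ 1 := fun n =>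
    (V.valuation_le_one_iff _).2 (natCast_mem V n)
  have hvq : ∀ q : ℕ, q.Prime → q ∣ D → V.valuation (q : K) = 1 := by
    intro q hq hdvd
    by_contra hcon
    have h1 : V.valuation (q : K) < 1 := lt_of_le_of_ne (hvnat q) hcon
    obtain ⟨e, he⟩ := hdvd
    obtain ⟨δ, hδ⟩ := hxx ((e : ℤ) • γ0)
    refine hdiv q hq h1 δ ?_
    rw [← hδ, Pool.Agent.Y67.DT.mo_zsmul, zpow_natCast]
    rw [← map_pow, ← pow_mul, mul_comm e q, ← he, ← hmoγ, hvγ]
  have hvd : ∀ n : ℕ, n ∣ D → n ≠ 0 → V.valuation (n : K) = 1 := by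
    intro n
    induction n using induction_on_primes with
    | zero => exact fun _ h => absurd rfl h
    | one => intro _ _; rw [Nat.cast_one, map_one]
    | prime_mul q a hq ih =>
      intro hdvd hne
      rw [Nat.cast_mul, map_mul, ih (dvd_of_mul_left_dvd hdvd) (right_ne_zero_of_mul hne), mul_one]
      exact hvq q hq (dvd_of_mul_right_dvd hdvd)
  have hlt : V.valuation (mo x γ0) < 1 := by
    by_contra hcon
    push Not at hcon
    have h1 : 1 ≤ V.valuation (mo x γ0) ^ D := one_le_pow₀ hcon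
    rw [← map_pow, ← hmoγ, hvγ] at h1
    exact absurd hπ1 (not_lt.2 h1)
  obtain ⟨d', N1, hd', ⟨γ1, hγ1⟩, hN1⟩ := comb_field V hx0 hvx hind γ0 ⟨c, hc⟩ hlt (by
    intro i
    obtain ⟨n, hn⟩ := htn (x i) (hx0 i)
    refine ⟨D * n, ?_⟩
    rw [pow_mul, ← map_pow, ← hmoγ, hvγ]
    exact hn)
  refine ⟨D * d', D * (d' * (N1 + 1)), Nat.mul_pos hD hd', ?_, ?_⟩
  · intro q hq hdvd
    rcases (Nat.Prime.dvd_mul hq).1 hdvd with h1 | h1
    · exact Or.inl (hvq q hq h1)
    · right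
      obtain ⟨e, he⟩ := h1
      refine ⟨mo x ((D : ℤ) • (e : ℤ) • γ1), fun n => ?_⟩
      have e1 : V.valuation (π / mo x ((D : ℤ) • (e : ℤ) • γ1) ^ q) =
          V.valuation (mo x (γ0 - (d' : ℤ) • γ1)) ^ (D : ℤ) := by
        rw [map_div₀, ← hvγ, ← map_div₀, ← map_zpow₀, ← Pool.Agent.Y67.DT.mo_zsmul]
        congr 1
        rw [hmoγ, ← zpow_natCast (mo x γ0), ← zpow_natCast (mo x _) q,
          ← Pool.Agent.Y67.DT.mo_zsmul, ← Pool.Agent.Y67.DT.mo_zsmul, div_eq_mul_inv, ← mo_neg,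
          ← mo_add hx0]
        congr 1
        rw [smul_sub, sub_eq_add_neg]
        congr 2
        rw [he]
        rw [← mul_smul, ← mul_smul, ← mul_smul]
        congr 1
        push_cast
        ring
      rw [e1, ← zpow_mul]
      refine lt_of_le_of_lt ?_ (hγ1 ((D : ℤ) * n))
      rw [← hvγ, hmoγ, map_pow]
      exact pow_le_of_le_one zero_le' hlt.le hD.ne'
  rintro N hN ⟨M1, hNM⟩ K' _ _ V' ϖ hV' hϖ hgen
  obtain ⟨M, hMdef⟩ : ∃ M, M = d' * M1 := ⟨_, rfl⟩
  have hNDM : N = D * M := by rw [hNM, hMdef, mul_assoc]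
  rw [hNDM] at hϖ hN
  have hM1' : d' * (N1 + 1) ≤ M := Nat.le_of_mul_le_mul_left hN hD
  have hM2' : N1 + 1 ≤ M1 := by
    rw [hMdef] at hM1'
    exact Nat.le_of_mul_le_mul_left hM1' hd'
  have hM0 : 0 < M := by
    rw [hMdef]
    exact Nat.mul_pos hd' (by omega)
  have hN0 : 0 < D * M := Nat.mul_pos hD hM0
  set φ := algebraMap K K' with hφ
  have hφ0 : ∀ {z : K}, z ≠ 0 → φ z ≠ 0 := fun h => (_root_.map_ne_zero φ).2 h
  have hϖ0 : ϖ ≠ 0 := by
    rintro rfl
    rw [zero_pow hN0.ne'] at hϖ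
    exact hφ0 hπ0 hϖ.symm
  have hxγ0 : mo x γ0 ≠ 0 := mo_ne_zero hx0 _
  set ω : K' := ϖ ^ M * (φ (mo x γ0))⁻¹ with hω
  have hωd : ω ^ D = φ u := by
    rw [hω, mul_pow, ← pow_mul, mul_comm M D, hϖ, hγ, inv_pow, ← map_pow, ← hmoγ, map_mul,
      mul_assoc, mul_inv_cancel₀ (hφ0 (mo_ne_zero hx0 _)), mul_one]
  have hω0 : ω ≠ 0 := mul_ne_zero (pow_ne_zero _ hϖ0) (inv_ne_zero (hφ0 hxγ0))
  have hωV : V'.valuation ω = 1 := by
    have h1 : V'.valuation ω ^ D = 1 := by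
      rw [← map_pow, hωd, hφ, ← comap_one, hV']
      exact hvu
    exact (pow_eq_one_iff.1 h1).resolve_right hD.ne'
  have hωu : ∀ n : ℤ, V'.valuation (ω ^ n) = 1 := fun n => by rw [map_zpow₀, hωV, one_zpow]
  set x' : Fin s → K' := fun i => ω ^ c i * φ (x i) with hx'
  have hϖM : ϖ ^ M = mo x' γ0 := by
    rw [hx', mo_mul_fun, mo_zpow_const hω0, hc, zpow_one, ← map_mo, hω, mul_assoc,
      inv_mul_cancel₀ (hφ0 hxγ0), mul_one]
  obtain ⟨m, A, hm0, hmV, hmV', hxm, hA, hprod, hmm⟩ := hN1 M1 (by omega) (by omega) V' hV' x'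
    (fun i => ⟨ω ^ c i, zpow_ne_zero _ hω0, ((val_one_iff _ _).1 (hωu _)).2.1,
      ((val_one_iff _ _).1 (hωu _)).2.2, rfl⟩) ϖ (by rw [← hMdef]; exact hϖM)
  have hs : 0 < s := by
    rw [Nat.pos_iff_ne_zero]
    rintro rfl
    rw [Finset.univ_eq_empty, Finset.sum_empty] at hc
    exact zero_ne_one hc
  -- the local ring
  set C : Subring K := Subring.closure ((ch O W w : Set K) ∪ T) with hC
  have hregC : RegP (V'.comap (algebraMap K K')).toSubring
      (lo (V'.comap (algebraMap K K')).toSubring C) x := by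
    rw [hV']
    exact hSt.reg
  have hCV : C ≤ (V'.comap (algebraMap K K')).toSubring := (le_lo _ _).trans hregC.PA
  have hCK : ∀ a : K, ∃ b ∈ C, b ≠ 0 ∧ a * b ∈ C := by
    intro a
    obtain ⟨a, ha, b, hb, hb0, rfl⟩ := hM.2 a
    refine ⟨b, Subring.subset_closure (Or.inl hb), hb0, ?_⟩
    rw [mul_assoc, inv_mul_cancel₀ hb0, mul_one]
    exact Subring.subset_closure (Or.inl ha)
  have hϖm : ϖ ∈ Subfield.closure (Set.range (algebraMap K K') ∪ Set.range m) := by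
    rw [← hprod]
    exact prod_mem fun j _ => Subfield.subset_closure (Or.inr ⟨j, rfl⟩)
  have halg : Algebra.IsAlgebraic K K' := by
    have hint : IsIntegral K ϖ := by
      refine ⟨X ^ (D * M) - Polynomial.C π, monic_X_pow_sub_C _ hN0.ne', ?_⟩
      rw [eval₂_sub, eval₂_X_pow, eval₂_C, hϖ, sub_self]
    refine ⟨fun z => ?_⟩
    obtain ⟨f, rfl⟩ := gen_alg hint (hgen z)
    exact (adjoin_le_integralClosure hint (aeval_mem_adjoin_singleton K ϖ)).isAlgebraic
  have hP := ss_reg het htor V' C hCV hCK x hregC (fun i h => hxV i (by rw [← hV']; exact h)) ω D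
    hD u hu0 (by rw [hV']; exact hu1) (by rw [hV']; exact hu2) hωd (by
      rw [← map_natCast (algebraMap K K'), ← comap_one, hV']
      exact hvd D dvd_rfl hD.ne') c m A hm0 hmV hmV'
    (fun i => by rw [← hxm i, hx']; exact mul_comm _ _) hA (fun z => by
      have h1 : Subfield.closure (Set.range (algebraMap K K') ∪ {ϖ}) ≤
          Subfield.closure (Set.range (algebraMap K K') ∪ Set.range m) := by
        rw [Subfield.closure_le]
        rintro z (hz | hz)
        · exact Subfield.subset_closure (Or.inl hz)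
        · rw [Set.mem_singleton_iff.1 hz]
          exact hϖm
      exact h1 (hgen z)) halg
  -- the model
  set O' : Subring K' := Orm O ϖ with hO'
  set A' : Subring K' := ch O' (φ '' W) (φ w) with hA'
  set T' : Set K' := φ '' T ∪ ({ω} ∪ Set.range m) with hT'
  have hϖO : ϖ ∈ O' := Subring.subset_closure (Or.inr rfl)
  have hOA : ∀ z ∈ O', z ∈ A' := fun z hz => Subring.subset_closure (Or.inl hz)
  have hAA : ∀ a ∈ ch O W w, φ a ∈ A' := by
    have h1 : ch O W w ≤ A'.comap φ := by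
      rw [Subring.closure_le]
      rintro z (hz | ⟨v, hv, rfl⟩)
      · exact hOA _ (Subring.subset_closure (Or.inl ⟨z, hz, rfl⟩))
      · refine Subring.subset_closure (Or.inr ⟨φ v, ⟨v, hv, rfl⟩, ?_⟩)
        rw [map_div₀]
    exact fun a ha => h1 ha
  have hcl : Subring.closure ((A' : Set K') ∪ T') =
      Subring.closure ((C.map (algebraMap K K') : Set K') ∪ ({ω} ∪ Set.range m)) := by
    have h1 : ∀ a ∈ C, φ a ∈ Subring.closure ((A' : Set K') ∪ T') := by
      have h2 : C ≤ (Subring.closure ((A' : Set K') ∪ T')).comap φ := by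
        rw [hC, Subring.closure_le]
        rintro z (hz | hz)
        · exact Subring.subset_closure (Or.inl (hAA z hz))
        · exact Subring.subset_closure (Or.inr (Or.inl ⟨z, hz, rfl⟩))
      exact fun a ha => h2 ha
    have h3 : ∀ a ∈ C, φ a ∈ Subring.closure ((C.map (algebraMap K K') : Set K') ∪
        ({ω} ∪ Set.range m)) := fun a ha => Subring.subset_closure (Or.inl ⟨a, ha, rfl⟩)
    have h4 : ϖ ∈ Subring.closure ((C.map (algebraMap K K') : Set K') ∪
        ({ω} ∪ Set.range m)) := by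
      rw [← hprod]
      exact Subring.prod_mem _ fun j _ => Subring.subset_closure (Or.inr (Or.inr ⟨j, rfl⟩))
    apply le_antisymm
    · rw [Subring.closure_le]
      rintro z (hz | ⟨a, ha, rfl⟩ | hz)
      · refine (?_ : A' ≤ _) hz
        rw [hA', Subring.closure_le]
        rintro z (hz | ⟨_, ⟨v, hv, rfl⟩, rfl⟩)
        · refine (?_ : O' ≤ _) hz
          rw [hO', Subring.closure_le]
          rintro z (⟨a, ha, rfl⟩ | hz)
          · exact h3 a (Subring.subset_closure (Or.inl (Subring.subset_closure (Or.inl ha))))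
          · rw [Set.mem_singleton_iff.1 hz]
            exact h4
        · rw [← map_div₀]
          exact h3 _ (Subring.subset_closure (Or.inl (Subring.subset_closure
            (Or.inr ⟨v, hv, rfl⟩))))
      · exact h3 a (Subring.subset_closure (Or.inr ha))
      · exact Subring.subset_closure (Or.inr hz)
    · rw [Subring.closure_le]
      rintro z (⟨a, ha, rfl⟩ | hz)
      · exact h1 a ha
      · exact Subring.subset_closure (Or.inr (Or.inr hz))
  have hP' : RegP V'.toSubring (PP V' A' T') m := by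
    unfold PP
    rw [hcl]
    exact hP
  have hclV : Subring.closure ((A' : Set K') ∪ T') ≤ V'.toSubring := (le_lo _ _).trans hP'.PA
  have hωP : ω ∈ PP V' A' T' :=
    le_lo _ _ (Subring.subset_closure (Or.inr (Or.inr (Or.inl rfl))))
  have hωP' : ω⁻¹ ∈ PP V' A' T' :=
    inv_mem_lo hclV hωP hω0 ((val_one_iff _ _).1 hωV).2.2
  have hCP : ∀ a ∈ PP V (ch O W w) T, φ a ∈ PP V' A' T' := by
    intro a ha
    have h1 : φ a ∈ lo V'.toSubring (C.map (algebraMap K K')) := by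
      rw [lo_map (algebraMap K K') (A' := (V'.comap (algebraMap K K')).toSubring)
        (fun e => Iff.rfl)]
      rw [hV']
      exact ⟨a, ha, rfl⟩
    have h2 : lo V'.toSubring (C.map (algebraMap K K')) ≤ PP V' A' T' := by
      unfold PP
      rw [hcl]
      exact lo_mono fun z hz => Subring.subset_closure (Or.inl hz)
    exact h2 h1
  -- monomials
  have hpω : PMon (PP V' A' T') m ω := ⟨ω, hω0, hωP, hωP', 0, by rw [mo_zero, mul_one]⟩
  have hpx : ∀ i, PMon (PP V' A' T') m (φ (x i)) := by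
    intro i
    have h1 : φ (x i) = (ω ^ c i)⁻¹ * mo m (fun j => (A i j : ℤ)) := by
      have h2 := hxm i
      have h3 : mo m (fun j => (A i j : ℤ)) = ∏ j, m j ^ A i j := by
        unfold mo
        exact Finset.prod_congr rfl fun j _ => zpow_natCast _ _
      rw [h3, ← h2, hx']
      simp only
      rw [← mul_assoc, inv_mul_cancel₀ (zpow_ne_zero _ hω0), one_mul]
    rw [h1]
    exact (pmon_zpow hm0 hpω _).inv.mul hm0 ⟨1, one_ne_zero, Subring.one_mem _, by
      rw [inv_one]; exact Subring.one_mem _, _, (one_mul _).symm⟩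
  have hmo1 : mo m (fun _ => 1) = ϖ := by
    rw [← hprod]
    unfold mo
    exact Finset.prod_congr rfl fun j _ => zpow_one _
  have hpϖ : PMon (PP V' A' T') m ϖ := ⟨1, one_ne_zero, Subring.one_mem _, by
    rw [inv_one]; exact Subring.one_mem _, fun _ => 1, by rw [one_mul, hmo1]⟩
  obtain ⟨β, hβ, hβm, hβT, hβx⟩ := hSt.den
  have hpβ : PMon (PP V' A' T') m (φ β) := by
    obtain ⟨u1, a0, a1, a2, δ, ha⟩ := hβm
    rw [ha, map_mul, map_mo]
    refine PMon.mul hm0 ⟨φ u1, hφ0 a0, hCP _ a1, ?_, 0, by rw [mo_zero, mul_one]⟩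
      (pmon_mo hm0 hpx δ)
    rw [← map_inv₀]
    exact hCP _ a2
  have hfx : ∀ i, Fra A' (PP V' A' T') m (φ (x i)) := fun i =>
    ⟨hpx i, φ β, hAA _ hβ, hpβ, by rw [← map_mul]; exact hAA _ (hβx i)⟩
  have hfϖ : Fra A' (PP V' A' T') m ϖ := ⟨hpϖ, 1, A'.one_mem, PMon.one, by
    rw [one_mul]; exact hOA _ hϖO⟩
  have hfω : Fra A' (PP V' A' T') m ω := by
    rw [hω, map_mo]
    exact (hfϖ.pow hm0 M).mul hm0 ((Fra.mo hm0 (fun i => hφ0 (hx0 i)) hfx γ0).inv hm0
      (mo_ne_zero (fun i => hφ0 (hx0 i)) _))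
  have hx'0 : ∀ i, x' i ≠ 0 := fun i => mul_ne_zero (zpow_ne_zero _ hω0) (hφ0 (hx0 i))
  have hfx' : ∀ i, Fra A' (PP V' A' T') m (x' i) := fun i =>
    (hfω.zpow hm0 hω0 (c i)).mul hm0 (hfx i)
  have hfm : ∀ j, Fra A' (PP V' A' T') m (m j) := by
    intro j
    obtain ⟨n, g, h⟩ := hmm j
    rw [h]
    exact (hfϖ.zpow hm0 hϖ0 n).mul hm0 (Fra.mo hm0 hx'0 hfx' g)
  have hT'f : T'.Finite := (hSt.fin.image _).union
    ((Set.finite_singleton _).union (Set.finite_range _))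
  obtain ⟨δ, hδ, hδm, hδT⟩ := exists_den (A := A') (P := PP V' A' T') hm0 hT'f (by
    rintro z (⟨a, ha, rfl⟩ | hz | ⟨j, rfl⟩)
    · exact ⟨φ β, hAA _ hβ, hpβ, by rw [← map_mul]; exact hAA _ (hβT a ha)⟩
    · rw [Set.mem_singleton_iff.1 hz]
      exact hfω.2
    · exact (hfm j).2)
  exact ⟨T', s, m, hs, ⟨hT'f, hP', δ, hδ, hδm, hδT, fun j => hδT _ (Or.inr (Or.inr ⟨j, rfl⟩))⟩,
    hmV', hprod⟩

end main

section semi

variable {K : Type u} [Field K]

/-- Semistable models. -/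
theorem ss_main_genV (het : S6_et.{u}) (htor : S6_tor.{u})
    (V : ValuationSubring K) (O : Subring K) (hO : ∀ a ∈ O, a ∈ V) {W : Set K}
    (hWf : W.Finite) {w : K} (hw : w ∈ W) (hw0 : w ≠ 0) (hwV : ∀ z ∈ W, z / w ∈ V)
    (hM : Mod V (ch O W w)) (π : K) {T0 : Set K} {n0 : ℕ} {x0 : Fin n0 → K}
    (hst0 : St V (ch O W w) T0 x0)
    (hmon0 : PMon (PP V (ch O W w) T0) x0 π)
    (hπ0 : π ≠ 0) (hπ1 : V.valuation π < 1)
    (htn : ∀ z : K, z ≠ 0 → ∃ n : ℕ, V.valuation π ^ n ≤ V.valuation z)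
    (hdiv : ∀ q : ℕ, q.Prime → V.valuation (q : K) < 1 → ∀ δ : Fin n0 → ℤ,
      V.valuation (mo x0 δ) ^ q ≠ V.valuation π) :
    ∃ d N₀ : ℕ, 0 < d ∧ (∀ q : ℕ, q.Prime → q ∣ d → V.valuation (q : K) = 1 ∨
        ∃ z : K, ∀ n : ℤ, V.valuation π < V.valuation (π / z ^ q) ^ n) ∧
      ∀ N : ℕ, N₀ ≤ N → d ∣ N →
      ∀ {K' : Type u} [Field K'] [Algebra K K'] (V' : ValuationSubring K') (ϖ : K'),
      V'.comap (algebraMap K K') = V → ϖ ^ N = algebraMap K K' π →
      (∀ z : K', z ∈ Subfield.closure (Set.range (algebraMap K K') ∪ {ϖ})) →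
      ∃ (Y : Set K') (d' n' : ℕ), Y.Finite ∧
        Y ⊆ ((Submodule.span (Orm O ϖ) (algebraMap K K' '' W)) ^ d' :
          Submodule (Orm O ϖ) K') ∧
        (∀ z ∈ (Submodule.span (Orm O ϖ) (algebraMap K K' '' W)) ^ d',
          ϖ ^ n' * z ∈ Submodule.span (Orm O ϖ) Y) ∧
        ∃ w' ∈ bu (algebraMap K K' '' W) Y, w' ≠ 0 ∧
          (∀ z ∈ bu (algebraMap K K' '' W) Y, z / w' ∈ V') ∧
          ∃ P : Subring K',
            lo V'.toSubring (ch (Orm O ϖ) (bu (algebraMap K K' '' W) Y) w') = P ∧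
            ∃ (_ : IsRegularLocalRing P) (n : ℕ) (y : Fin n → P) (S : Finset (Fin n)),
              Ideal.span (Set.range y) = maximalIdeal P ∧ ringKrullDim P = n ∧
              S.Nonempty ∧ ϖ = ∏ i ∈ S, (y i : K') := by
  obtain ⟨d, N₀, hd, hvd, hN⟩ := ss_stage_genV het htor V O hM π hst0 hmon0 hπ0 hπ1 htn hdiv
  refine ⟨d, N₀, hd, hvd, ?_⟩
  intro N hN0 hdN K' _ _ V' ϖ hV' hϖ hgen
  obtain ⟨T', s, m, hs, hSt, hmV, hprod⟩ := hN N hN0 hdN V' ϖ hV' hϖ hgen
  have hmem : ∀ z : K, algebraMap K K' z ∈ V' ↔ z ∈ V := by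
    intro z
    have h1 : algebraMap K K' z ∈ V' ↔ z ∈ V'.comap (algebraMap K K') := Iff.rfl
    rw [h1, hV']
  have hϖV : ϖ ∈ V' := by
    rw [← hprod]
    exact prod_mem fun j _ => hSt.reg.PA (hSt.reg.mem j)
  have hO' : ∀ a ∈ Orm O ϖ, a ∈ V' := by
    have h1 : Orm O ϖ ≤ V'.toSubring := by
      rw [Subring.closure_le]
      rintro z (⟨a, ha, rfl⟩ | hz)
      · exact (hmem a).2 (hO a ha)
      · rw [Set.mem_singleton_iff.1 hz]
        exact hϖV
    exact fun a ha => h1 ha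
  have hmo1 : mo m (fun _ => 1) = ϖ := by
    rw [← hprod]
    unfold mo
    exact Finset.prod_congr rfl fun j _ => zpow_one _
  obtain ⟨Y, d', n', h1, h2, h3, w', h4, h5, h6, h7⟩ :=
    model_stage V' (Orm O ϖ) hO' (hWf.image _) (w := algebraMap K K' w) ⟨w, hw, rfl⟩
      ((_root_.map_ne_zero _).2 hw0) (by
        rintro _ ⟨z, hz, rfl⟩
        rw [← map_div₀]
        exact (hmem _).2 (hwV z hz)) (p := ϖ) (Subring.subset_closure (Or.inr rfl)) hSt (u := 1)
      (η := fun _ => 1) (Subring.one_mem _) (by rw [inv_one]; exact Subring.one_mem _)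
      one_ne_zero (by rw [one_mul, hmo1]) (fun _ => one_pos)
  refine ⟨Y, d', n', h1, h2, h3, w', h4, h5, h6, _, h7, ?_⟩
  obtain ⟨hr, n, y, S, e1, e2, e3, e4⟩ := semi_of_stage V' hs hSt hmV
  exact ⟨hr, n, y, S, e1, e2, e3, hprod.symm.trans e4⟩

end semi

end Pool.Agent.N98.VG
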