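import Pool.Agent.N98.VG.Rel
import Pool.Agent.N98.VG.Ss
import Pool.Agent.N98.RW.Fin2

/-!
Charts at the centre of a valuation, and the values of the parameters.
-/

set_option autoImplicit false
set_option linter.unusedVariables false
set_option linter.unusedSectionVars false

universe u

namespace Pool.Agent.N98.VG

open IsLocalRing Pool.Agent.W418.LU2 Pool.Agent.N98.RV Pool.Agent.N98.RW Polynomial

/-- The predicate `P` holds for the units of `V`, and it is stable under products, inverses and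
roots whose exponent is a unit of `V`. -/
structure SatV {K : Type u} [Field K] (V : ValuationSubring K) (P : K → Prop) : Prop where
  unit : ∀ u, u ≠ 0 → u ∈ V → u⁻¹ ∈ V → P u
  mul : ∀ a b, P a → P b → P (a * b)
  inv : ∀ a, P a → P a⁻¹
  root : ∀ (a : K) (N : ℕ), V.valuation (N : K) = 1 → a ≠ 0 → P (a ^ N) → P a

lemma SatV.sat {k K : Type u} [CommRing k] [Field K] [Algebra k K] {V : ValuationSubring K}
    {P : K → Prop} (h : SatV V P) (hk : ∀ c : k, algebraMap k K c ∈ V) : Sat k V P := by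
  refine ⟨h.unit, h.mul, h.inv, fun a N hN ha hP => h.root a N ?_ ha hP⟩
  obtain ⟨c, hc⟩ := hN.exists_right_inv
  have h1 := congrArg (algebraMap k K) hc
  rw [map_mul, map_one, map_natCast] at h1
  have h2 : V.valuation (N : K) ≤ 1 := (V.valuation_le_one_iff _).2 (natCast_mem V N)
  have h3 : V.valuation (algebraMap k K c) ≤ 1 := (V.valuation_le_one_iff _).2 (hk c)
  refine le_antisymm h2 ?_
  by_contra hcon
  push Not at hcon
  have h4 : V.valuation ((N : K) * algebraMap k K c) < 1 := by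
    rw [map_mul]
    exact (mul_le_of_le_one_right' h3).trans_lt hcon
  rw [h1, map_one] at h4
  exact lt_irrefl _ h4

section model

variable {k K : Type u} [CommRing k] [IsNoetherianRing k] [Field K] [Algebra k K]
  {𝒱 : Set (ValuationSubring K)} {Ry : Subalgebra k K} {T I : Type}

/-- A chart at the centre of a valuation. -/
theorem lgV_of_model [Finite T] [Fintype I] (M : RW.LM 𝒱 (⊥ : Subalgebra k K) Ry T I) (hFr : RW.Frc M)
    {V : ValuationSubring K} (hV : V ∈ 𝒱) {J : Type} [Finite J] (S : J → K)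
    (hB : ∀ j, RW.IsBr M (S j)) :
    ∃ (B : Subalgebra k K) (I' : Type) (_ : Fintype I') (X : I' → K), Algebra.FiniteType k B ∧
      (∀ b ∈ B, b ∈ V) ∧ RegP V.toSubring (lo V.toSubring B.toSubring) X ∧
      (∀ y : K, IsIntegral (lo V.toSubring B.toSubring) y → y ∈ lo V.toSubring B.toSubring) ∧
      (∀ i j, S i / S j ∈ V → S i / S j ∈ lo V.toSubring B.toSubring) ∧
      (∀ g, RW.IsBr M g → g ∈ lo V.toSubring B.toSubring →
        PMon (lo V.toSubring B.toSubring) X g) ∧
      (∀ f ∈ B, ∃ b ∈ Ry, PMon (lo V.toSubring B.toSubring) X b ∧ f * b ∈ Ry) ∧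
      ∀ Pr : K → Prop, Sat k V Pr → VG M V Pr → ∀ i, Pr (X i) := by
  classical
  have := Fintype.ofFinite J
  choose N hN hNB using hB
  -- a common exponent
  let N0 : ℕ := ∏ j, N j
  have hN0 : N0 ≠ 0 := by
    have h1 : IsUnit (N0 : k) := by
      change IsUnit ((∏ j, N j : ℕ) : k)
      rw [Nat.cast_prod]
      exact (IsUnit.submonoid k).prod_mem fun j _ => hN j
    exact RW.ne_zero_of_isUnit (K := K) h1
  have hSN : ∀ j, RW.IsB M (S j ^ N0) := fun j =>
    (hNB j).pow_of_dvd (Finset.dvd_prod_of_mem N (Finset.mem_univ j))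
  obtain ⟨T', I', hT', hI', M', π, hO, hC⟩ := exists_princV M (fun j => S j ^ N0) hSN
  obtain ⟨t, ht⟩ := M'.cv V hV
  set B := M'.A t with hBdef
  have hBV : B.toSubring ≤ V.toSubring := fun b hb => ht b hb
  have hWl := loc_val V
  have hreg : RegP V.toSubring (lo V.toSubring B.toSubring) (M'.x t) :=
    (M'.rg t).reg V.toSubring hWl hBV I' id Function.injective_id
  obtain ⟨P, hP, hPW, -⟩ := exists_center hWl hBV
  have hlo := lo_eq_ofPrime hBV P hPW
  have hic : IsIntegrallyClosedIn (lo V.toSubring B.toSubring) K := by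
    rw [hlo]
    refine RW.isIntegrallyClosedIn_ofPrime (M'.ft t) (M'.rg t) ?_ P
    intro y
    obtain ⟨a, ha, b, hb, hb0, hy⟩ := hFr (π t) y
    exact ⟨a, hO.le t ha, b, hO.le t hb, hb0, hy⟩
  have hic' : ∀ y : K, IsIntegral (lo V.toSubring B.toSubring) y →
      y ∈ lo V.toSubring B.toSubring := by
    intro y hy
    obtain ⟨z, hz⟩ := hic.isIntegral_iff.1 hy
    rw [← hz]
    exact z.2
  have hBL : B.toSubring ≤ lo V.toSubring B.toSubring := le_lo _ _
  refine ⟨B, I', hI', M'.x t, M'.ft t, ht, hreg, hic', ?_, ?_, ?_, fun Pr hPr hM =>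
    hO.vg V Pr hPr hM t ht⟩
  · intro i j hij
    have hS0 : ∀ j, S j ≠ 0 := by
      intro j h0
      apply (hSN j).ne
      rw [h0, zero_pow hN0]
    have hpow : (S i / S j) ^ N0 ∈ lo V.toSubring B.toSubring := by
      rw [div_pow]
      rcases hC t j i with h | h
      · exact hBL h
      · have h0 : S j ^ N0 / S i ^ N0 ≠ 0 :=
          div_ne_zero (pow_ne_zero _ (hS0 j)) (pow_ne_zero _ (hS0 i))
        have h1 := inv_mem_lo hBV (hBL h) h0 (by
          rw [inv_div, ← div_pow]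
          exact V.toSubring.pow_mem hij _)
        rwa [inv_div] at h1
    apply hic'
    refine IsIntegral.of_pow (Nat.pos_of_ne_zero hN0) ?_
    exact isIntegral_algebraMap (R := lo V.toSubring B.toSubring) (A := K) (x := ⟨_, hpow⟩)
  · rintro g ⟨n, hn, hg⟩ hgL
    obtain ⟨γ, hγ⟩ := hO.bf _ hg
    obtain ⟨w, w0, w1, w2, e⟩ := hγ t
    exact RegP.of_pow hreg hgL (RW.ne_zero_of_isUnit (K := K) hn)
      ⟨w, w0, hBL w1, hBL w2, γ, e⟩
  · intro f hf
    obtain ⟨b, hb, hbM, hfb⟩ := M'.q t f hf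
    exact ⟨b, hb, hbM.pmon (M'.x0 t) hBL, hfb⟩

end model

section main

variable {E K : Type u} [Field E] [Field K] [Algebra E K]

theorem lguV_aux {N r : ℕ} (c : Fin (r + 1) → Fin N → K)
    (hcE : ∀ i j, ∃ e : E, algebraMap E K e = c i j) (x : Fin N → K)
    (V : ValuationSubring K)
    (R : Subring E) (hfr : ∀ z : E, ∃ a ∈ R, ∃ b ∈ R, b ≠ 0 ∧ z = a * b⁻¹)
    {J : Type} [Finite J] (S : J → K) (hS0 : ∀ j, S j ≠ 0) (π : E) (hπ0 : π ≠ 0)
    (HPr : (K → Prop) → Prop)
    (hc : ∀ h : Bool → E, (∀ i, h i ≠ 0) →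
      ∃ (k : Subring E) (Θ : Set E) (_ : (k, Θ) ∈ AdlS (V.comap (algebraMap E K)) R) (T I : Type)
        (_ : Finite T) (_ : Fintype I)
        (M : RW.LM (RW.exV K ({V.comap (algebraMap E K)} : Set (ValuationSubring E)))
          (⊥ : Subalgebra k K) (Algebra.adjoin k
          (Set.range fun i => ∑ j, c i j * x j)) T I), RW.Frc M ∧
        (∀ j, RW.IsBr M (S j)) ∧
        (∀ i, h i ∈ Θ) ∧ (∀ e ∈ Θ, RW.IsBr M (algebraMap E K e)) ∧
        ∀ Pr : K → Prop, Sat k V Pr → HPr Pr → VG M V Pr)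
    (A : Subring K) (hRA : ∀ c ∈ R, algebraMap E K c ∈ A)
    (jx : Fin N → J) (hx : ∀ l, S (jx l) ∈ A ∧ S (jx l) * x l ∈ A) :
    ∃ (L B0 : Subring K) (ι : Type) (_ : Fintype ι) (X : ι → K) (Z : Finset K),
      B0 ≤ V.toSubring ∧ L = lo V.toSubring B0 ∧ RegP V.toSubring L X ∧
      (∀ y : K, IsIntegral L y → y ∈ L) ∧ (∀ c ∈ R, algebraMap E K c ∈ L) ∧
      (∀ i j, S i / S j ∈ V → S i / S j ∈ L) ∧ (∀ j, S j ∈ L → PMon L X (S j)) ∧
      (∀ z ∈ Z, z ∈ L) ∧ (A ≤ L → ∀ z ∈ Z, ∃ β ∈ A, PMon L X β ∧ z * β ∈ A) ∧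
      B0 ≤ lo V.toSubring (Subring.closure ((A : Set K) ∪ Z)) ∧
      (algebraMap E K π ∈ L → PMon L X (algebraMap E K π)) ∧
      ∀ Pr : K → Prop, SatV V Pr → HPr Pr → ∀ i, Pr (X i) := by
  classical
  -- the denominators of the coordinates
  have hw : ∀ i j, ∃ w ∈ R, w ≠ 0 ∧ algebraMap E K w * c i j ∈ A := by
    intro i j
    obtain ⟨ce, hce⟩ := hcE i j
    obtain ⟨u, hu, v, hv, hv0, e1⟩ := hfr ce
    refine ⟨v, hv, hv0, ?_⟩
    have e3 : v * ce = u := by rw [e1, mul_left_comm, mul_inv_cancel₀ hv0, mul_one]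
    rw [← hce, ← map_mul, e3]
    exact hRA u hu
  choose w hwR hw0 hwA using hw
  let d : E := ∏ p : Fin (r + 1) × Fin N, w p.1 p.2
  have hdR : d ∈ R := R.prod_mem fun p _ => hwR _ _
  have hd0 : d ≠ 0 := Finset.prod_ne_zero_iff.2 fun p _ => hw0 _ _
  let d' : K := ∏ l, S (jx l)
  have hdA' : d' ∈ A := A.prod_mem fun l _ => (hx l).1
  set y : Fin (r + 1) → K := fun i => ∑ j, c i j * x j with hy
  have hdy : ∀ i, y i * (algebraMap E K d * d') ∈ A := by
    intro i
    rw [hy]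
    change (∑ j, c i j * x j) * _ ∈ A
    rw [Finset.sum_mul]
    refine A.sum_mem fun j _ => ?_
    have e1 : d = w i j * ∏ p ∈ Finset.univ.erase (i, j), w p.1 p.2 :=
      (Finset.mul_prod_erase Finset.univ (fun p : Fin (r + 1) × Fin N => w p.1 p.2)
        (Finset.mem_univ (i, j))).symm
    have e1' : d' = S (jx j) * ∏ l ∈ Finset.univ.erase j, S (jx l) :=
      (Finset.mul_prod_erase Finset.univ (fun l => S (jx l)) (Finset.mem_univ j)).symm
    rw [e1, e1', map_mul]
    have e2 : c i j * x j * (algebraMap E K (w i j) *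
        algebraMap E K (∏ p ∈ Finset.univ.erase (i, j), w p.1 p.2) *
        (S (jx j) * ∏ l ∈ Finset.univ.erase j, S (jx l))) =
        (algebraMap E K (w i j) * c i j) * (S (jx j) * x j) *
        (algebraMap E K (∏ p ∈ Finset.univ.erase (i, j), w p.1 p.2) *
          ∏ l ∈ Finset.univ.erase j, S (jx l)) := by ring
    rw [e2]
    exact A.mul_mem (A.mul_mem (hwA i j) (hx j).2) (A.mul_mem
      (hRA _ (R.prod_mem fun p _ => hwR _ _)) (A.prod_mem fun l _ => (hx l).1))
  obtain ⟨k, Θ, hk, T, I, hT, hI, M, hFr, hsB, hΘ, hΘB, hMv⟩ :=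
    hc (fun t => if t then d else π) (fun t => by
      cases t
      · exact hπ0
      · exact hd0)
  have hkn : IsNoetherianRing k := hk.noeth
  obtain ⟨B, I', hI', X, hft, hBV0, hreg, hint, hcmp, hpm, hq, hXv⟩ :=
    lgV_of_model M hFr (V := V) rfl S hsB
  have hBV : B.toSubring ≤ V.toSubring := fun b hb => hBV0 b hb
  set L := lo V.toSubring B.toSubring with hL
  have hBL : B.toSubring ≤ L := le_lo _ _
  have hkB : ∀ c ∈ k, algebraMap E K c ∈ B := fun c hc => B.algebraMap_mem (⟨c, hc⟩ : k)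
  have hRL : ∀ c ∈ R, algebraMap E K c ∈ L := fun c hc => hBL (hkB c (hk.le hc))
  have hΘL : ∀ c ∈ R, c ∈ Θ → PMon L X (algebraMap E K c) := fun c hc hcΘ =>
    hpm _ (hΘB c hcΘ) (hRL c hc)
  -- denominators
  have hdX : A ≤ L → PMon L X d' := fun hAL =>
    PMon.prod hreg.ne _ _ fun l _ => hpm _ (hsB _) (hAL (hx l).1)
  have hRy : A ≤ L → ∀ w ∈ Algebra.adjoin k (Set.range y), ∃ β ∈ A, PMon L X β ∧
      w * β ∈ A := by
    intro hAL w hw
    induction hw using Algebra.adjoin_induction with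
    | mem w hw =>
      obtain ⟨i, rfl⟩ := hw
      exact ⟨algebraMap E K d * d', A.mul_mem (hRA d hdR) hdA',
        (hΘL d hdR (hΘ true)).mul hreg.ne (hdX hAL), hdy i⟩
    | algebraMap c =>
      obtain ⟨β, hβ, hβΘ, hcβ⟩ := hk.q c c.2
      refine ⟨algebraMap E K β, hRA β hβ, hΘL β hβ hβΘ, ?_⟩
      change algebraMap E K (c : E) * algebraMap E K β ∈ A
      rw [← map_mul]
      exact hRA _ hcβ
    | add w w' _ _ hw hw' =>
      obtain ⟨β, hβ, hβΘ, hcβ⟩ := hw
      obtain ⟨β', hβ', hβΘ', hcβ'⟩ := hw'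
      refine ⟨β * β', A.mul_mem hβ hβ', hβΘ.mul hreg.ne hβΘ', ?_⟩
      have e1 : (w + w') * (β * β') = w * β * β' + w' * β' * β := by ring
      rw [e1]
      exact A.add_mem (A.mul_mem hcβ hβ') (A.mul_mem hcβ' hβ)
    | mul w w' _ _ hw hw' =>
      obtain ⟨β, hβ, hβΘ, hcβ⟩ := hw
      obtain ⟨β', hβ', hβΘ', hcβ'⟩ := hw'
      refine ⟨β * β', A.mul_mem hβ hβ', hβΘ.mul hreg.ne hβΘ', ?_⟩
      have e1 : w * w' * (β * β') = w * β * (w' * β') := by ring
      rw [e1]
      exact A.mul_mem hcβ hcβ'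
  have hBden : A ≤ L → ∀ z ∈ B, ∃ β ∈ A, PMon L X β ∧ z * β ∈ A := by
    intro hAL z hz
    obtain ⟨b', hb', hbX, hzb⟩ := hq z hz
    obtain ⟨β, hβ, hβX, hcβ⟩ := hRy hAL _ hb'
    obtain ⟨β', hβ', hβX', hcβ'⟩ := hRy hAL _ hzb
    refine ⟨b' * β * β', A.mul_mem hcβ hβ', (hbX.mul hreg.ne hβX).mul hreg.ne hβX', ?_⟩
    have e1 : z * (b' * β * β') = z * b' * β' * β := by ring
    rw [e1]
    exact A.mul_mem hcβ' hβ
  obtain ⟨GB, hGB⟩ := (Subalgebra.fg_iff_finiteType _).2 hft
  obtain ⟨G', hG'k, hG'⟩ := hk.eft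
  have hGBm : ∀ g ∈ GB, g ∈ B := by
    intro g hg
    rw [← hGB]
    exact Algebra.subset_adjoin hg
  refine ⟨L, B.toSubring, I', hI', X, GB ∪ G'.image (algebraMap E K), hBV, hL, hreg, hint, hRL,
    hcmp, fun j hj => hpm _ (hsB j) hj, ?_, ?_, ?_,
    fun h => hpm _ (hΘB π (hΘ false)) h, fun Pr hPr hH => ?_⟩
  rotate_left 3
  · have hs := hPr.sat (k := k) (fun c => hk.leV c c.2)
    exact hXv Pr hs (hMv Pr hs hH)
  · intro z hz
    rcases Finset.mem_union.1 hz with hz | hz
    · exact hBL (hGBm z hz)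
    · obtain ⟨g, hg, rfl⟩ := Finset.mem_image.1 hz
      exact hBL (hkB g (hG'k g hg))
  · intro hAL z hz
    apply hBden hAL
    rcases Finset.mem_union.1 hz with hz | hz
    · exact hGBm z hz
    · obtain ⟨g, hg, rfl⟩ := Finset.mem_image.1 hz
      exact hkB g (hG'k g hg)
  · have hcl : ∀ e ∈ Subring.closure ((R : Set E) ∪ G'), algebraMap E K e ∈
        Subring.closure ((A : Set K) ∪ ((GB ∪ G'.image (algebraMap E K) : Finset K) : Set K)) := by
      intro e he
      have h1 : Subring.closure ((R : Set E) ∪ G') ≤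
          (Subring.closure ((A : Set K) ∪
            ((GB ∪ G'.image (algebraMap E K) : Finset K) : Set K))).comap (algebraMap E K) := by
        rw [Subring.closure_le]
        rintro a (ha | ha)
        · exact Subring.subset_closure (Or.inl (hRA a ha))
        · refine Subring.subset_closure (Or.inr ?_)
          exact Finset.mem_coe.2 (Finset.mem_union_right _ (Finset.mem_image_of_mem _ ha))
      exact h1 he
    intro b' hb
    have hb' : b' ∈ Algebra.adjoin k (GB : Set K) := by rw [hGB]; exact hb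
    clear hb
    induction hb' using Algebra.adjoin_induction with
    | mem a ha =>
      refine le_lo _ _ (Subring.subset_closure (Or.inr ?_))
      exact Finset.mem_coe.2 (Finset.mem_union_left _ ha)
    | algebraMap r =>
      obtain ⟨a, ha, d', hd, hd0', hdV, e'⟩ := hG' r.2
      have e1 : algebraMap k K r = algebraMap E K a * (algebraMap E K d')⁻¹ := by
        change algebraMap E K r = _
        rw [e', map_mul, map_inv₀]
      rw [e1]
      refine ⟨_, hcl a ha, _, hcl d' hd, (_root_.map_ne_zero _).2 hd0', ?_, rfl⟩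
      rw [← map_inv₀]
      exact hdV
    | add x y _ _ hx hy => exact Subring.add_mem _ hx hy
    | mul x y _ _ hx hy => exact Subring.mul_mem _ hx hy

end main

end Pool.Agent.N98.VG
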