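import Pool.Agent.N98.VG.Lev
import Pool.Agent.R187.CT.Base
import Pool.Agent.TH188.QS.Bases

/-!
The extensions of the base ring.
-/

set_option autoImplicit false
set_option linter.unusedVariables false
set_option linter.unusedSectionVars false

universe u

namespace Pool.Agent.N98.VG

open IsLocalRing Pool.Agent.W418.LU2 Pool.Agent.H176.DT Pool.Agent.R187.CT Pool.Agent.TH188.QS

section val

variable {K L : Type u} [Field K] [Field L] [Algebra K L] {V : ValuationSubring K}
  {VL : ValuationSubring L} (h : VL.comap (algebraMap K L) = V)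

include h

lemma val_mem {z : K} : algebraMap K L z ∈ VL ↔ z ∈ V := by
  have h1 : algebraMap K L z ∈ VL ↔ z ∈ VL.comap (algebraMap K L) := Iff.rfl
  rw [h1, h]

lemma val_le_one {z : K} : VL.valuation (algebraMap K L z) ≤ 1 ↔ V.valuation z ≤ 1 := by
  rw [ValuationSubring.valuation_le_one_iff, ValuationSubring.valuation_le_one_iff, val_mem h]

lemma val_lt_one {z : K} : VL.valuation (algebraMap K L z) < 1 ↔ V.valuation z < 1 := by
  rw [← not_le, ← not_le]
  by_cases h0 : z = 0
  · simp [h0]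
  · have h1 : ∀ (F' : Type u) [Field F'] (U : ValuationSubring F') (w : F'), w ≠ 0 →
        (1 ≤ U.valuation w ↔ w⁻¹ ∈ U) := by
      intro F' _ U w hw
      rw [← U.valuation_le_one_iff, map_inv₀,
        inv_le_one₀ (zero_lt_iff.2 ((_root_.map_ne_zero _).2 hw))]
    rw [h1 _ _ _ h0, h1 _ _ _ ((_root_.map_ne_zero _).2 h0), ← map_inv₀, val_mem h]

lemma val_eq_one {z : K} : VL.valuation (algebraMap K L z) = 1 ↔ V.valuation z = 1 := by
  constructor
  · intro h1
    refine le_antisymm ((val_le_one h).1 h1.le) ?_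
    rw [← not_lt, ← val_lt_one h, h1]
    exact lt_irrefl _
  · intro h1
    refine le_antisymm ((val_le_one h).2 h1.le) ?_
    rw [← not_lt, val_lt_one h, h1]
    exact lt_irrefl _

end val

/-- The ring `O[ρ]`. -/
theorem base_ring {K L E : Type u} [Field K] [CharZero K] [Field L] [Field E] [Algebra K L]
    [Algebra E L] (V : ValuationSubring K) (VL : ValuationSubring L)
    (hVL : VL.comap (algebraMap K L) = V) (O : Subring K) [IsDedekindDomain O]
    (hO : ∀ a ∈ O, a ∈ V) (π : K) (hπ0 : π ≠ 0) (hπ1 : V.valuation π < 1)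
    (hπO : ∀ a ∈ O, V.valuation a < 1 → ∃ b ∈ O, ∃ c ∈ O, V.valuation c = 1 ∧ c * a = π * b)
    (ρ : E) (m : ℕ) (hm : m ≠ 0) (hρ : (algebraMap E L ρ) ^ m = algebraMap K L π)
    (ι : O →+* E) (hι : ∀ a : O, algebraMap E L (ι a) = algebraMap K L a)
    (hE : ∀ z : E, z ∈ Subfield.closure ((ι.range : Set E) ∪ {ρ})) :
    IsNoetherianRing (rg ι {ρ}) ∧ (∀ a ∈ rg ι {ρ}, algebraMap E L a ∈ VL) ∧
      (∀ z : E, ∃ a ∈ rg ι {ρ}, ∃ b ∈ rg ι {ρ}, b ≠ 0 ∧ z = a * b⁻¹) ∧ ρ ∈ rg ι {ρ} ∧ ρ ≠ 0 ∧
      VL.valuation (algebraMap E L ρ) < 1 ∧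
      (∀ a ∈ rg ι {ρ}, VL.valuation (algebraMap E L a) < 1 →
        ∃ b ∈ rg ι {ρ}, ∃ c ∈ rg ι {ρ}, VL.valuation (algebraMap E L c) = 1 ∧ c * a = b * ρ) ∧
      (rg ι {ρ}).map (algebraMap E L) = Orm O (algebraMap E L ρ) := by
  have hρR : ρ ∈ rg ι {ρ} := Subring.subset_closure (Or.inr rfl)
  have hιR : ∀ a, ι a ∈ rg ι {ρ} := fun a => Subring.subset_closure (Or.inl ⟨a, rfl⟩)
  have hρ0 : ρ ≠ 0 := by
    rintro rfl
    rw [map_zero, zero_pow hm] at hρ
    exact hπ0 ((_root_.map_eq_zero _).1 hρ.symm)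
  have hρ1 : VL.valuation (algebraMap E L ρ) < 1 := by
    by_contra hcon
    push Not at hcon
    have h1 : 1 ≤ VL.valuation (algebraMap E L ρ) ^ m := one_le_pow₀ hcon
    rw [← map_pow, hρ] at h1
    exact absurd ((val_lt_one hVL).2 hπ1) (not_lt.2 h1)
  have hRV : ∀ a ∈ rg ι {ρ}, algebraMap E L a ∈ VL := by
    have h1 : rg ι {ρ} ≤ (VL.comap (algebraMap E L)).toSubring := by
      rw [Subring.closure_le]
      rintro z (⟨a, rfl⟩ | hz)
      · change algebraMap E L (ι a) ∈ VL
        rw [hι]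
        exact (val_mem hVL).2 (hO a a.2)
      · rw [Set.mem_singleton_iff.1 hz]
        change algebraMap E L ρ ∈ VL
        exact (VL.valuation_le_one_iff _).1 hρ1.le
    exact fun a ha => h1 ha
  refine ⟨noe_rg hj_dedekind ι (Set.finite_singleton ρ), hRV, ?_, hρR, hρ0, hρ1, ?_, ?_⟩
  · intro z
    have h1 : Subfield.closure ((ι.range : Set E) ∪ {ρ}) ≤ fr (rg ι {ρ}) := by
      rw [Subfield.closure_le]
      exact fun x hx => le_fr _ (Subring.subset_closure hx)
    exact fr_iff.2 (h1 (hE z))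
  · -- the decomposition
    have h1 : ∀ a ∈ rg ι {ρ}, ∃ (a0 : O), ∃ b ∈ rg ι {ρ}, a = ι a0 + b * ρ := by
      intro a ha
      induction ha using Subring.closure_induction with
      | mem z hz =>
        rcases hz with ⟨a, rfl⟩ | hz
        · exact ⟨a, 0, Subring.zero_mem _, by ring⟩
        · rw [Set.mem_singleton_iff.1 hz]
          exact ⟨0, 1, Subring.one_mem _, by rw [map_zero]; ring⟩
      | zero => exact ⟨0, 0, Subring.zero_mem _, by rw [map_zero]; ring⟩
      | one => exact ⟨1, 0, Subring.zero_mem _, by rw [map_one]; ring⟩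
      | add x y _ _ hx hy =>
        obtain ⟨a, b, hb, rfl⟩ := hx
        obtain ⟨a', b', hb', rfl⟩ := hy
        exact ⟨a + a', b + b', Subring.add_mem _ hb hb', by rw [map_add]; ring⟩
      | neg x _ hx =>
        obtain ⟨a, b, hb, rfl⟩ := hx
        exact ⟨-a, -b, Subring.neg_mem _ hb, by rw [map_neg]; ring⟩
      | mul x y _ _ hx hy =>
        obtain ⟨a, b, hb, rfl⟩ := hx
        obtain ⟨a', b', hb', rfl⟩ := hy
        refine ⟨a * a', ι a * b' + b * ι a' + b * b' * ρ, ?_, by rw [map_mul]; ring⟩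
        exact Subring.add_mem _ (Subring.add_mem _ (Subring.mul_mem _ (hιR _) hb')
          (Subring.mul_mem _ hb (hιR _))) (Subring.mul_mem _ (Subring.mul_mem _ hb hb') hρR)
    intro a ha ha1
    obtain ⟨a0, b, hb, rfl⟩ := h1 a ha
    have h2 : V.valuation (a0 : K) < 1 := by
      rw [← val_lt_one hVL, ← hι]
      have e1 : algebraMap E L (ι a0) = algebraMap E L (ι a0 + b * ρ) -
          algebraMap E L b * algebraMap E L ρ := by
        rw [map_add, map_mul]
        ring
      rw [e1]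
      refine (VL.valuation.map_sub _ _).trans_lt (max_lt ha1 ?_)
      rw [map_mul]
      exact (mul_le_of_le_one_left' ((VL.valuation_le_one_iff _).2 (hRV b hb))).trans_lt hρ1
    obtain ⟨b0, hb0, c0, hc0, hc1, e⟩ := hπO a0 a0.2 h2
    obtain ⟨n, rfl⟩ := Nat.exists_eq_succ_of_ne_zero hm
    refine ⟨ρ ^ n * ι ⟨b0, hb0⟩ + ι ⟨c0, hc0⟩ * b, ?_, ι ⟨c0, hc0⟩, hιR _, ?_, ?_⟩
    · exact Subring.add_mem _ (Subring.mul_mem _ (Subring.pow_mem _ hρR _) (hιR _))
        (Subring.mul_mem _ (hιR _) hb)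
    · rw [hι]
      exact (val_eq_one hVL).2 hc1
    · apply (algebraMap E L).injective
      have e2 : algebraMap K L c0 * algebraMap K L (a0 : K) =
          algebraMap K L π * algebraMap K L b0 := by rw [← map_mul, ← map_mul, e]
      rw [Nat.succ_eq_add_one] at hρ
      simp only [map_mul, map_add, map_pow, hι]
      linear_combination e2 - algebraMap K L b0 * hρ
  · apply le_antisymm
    · rw [Subring.map_le_iff_le_comap, Subring.closure_le]
      rintro z (⟨a, rfl⟩ | hz)
      · change algebraMap E L (ι a) ∈ Orm O (algebraMap E L ρ)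
        rw [hι]
        exact Subring.subset_closure (Or.inl ⟨a, a.2, rfl⟩)
      · rw [Set.mem_singleton_iff.1 hz]
        exact Subring.subset_closure (Or.inr rfl)
    · change Subring.closure ((O.map (algebraMap K L) : Set L) ∪ {algebraMap E L ρ}) ≤ _
      rw [Subring.closure_le]
      rintro z (⟨a, ha, rfl⟩ | hz)
      · exact ⟨ι ⟨a, ha⟩, hιR _, hι _⟩
      · rw [Set.mem_singleton_iff.1 hz]
        exact ⟨ρ, hρR, rfl⟩

/-- The field `E(x)`. -/
theorem top_of_gen {k K E L : Type u} [Field k] [Field K] [Field E] [Field L] [Algebra k K]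
    [Algebra K L] [Algebra E L] {N : ℕ} (x : Fin N → K)
    (htop : IntermediateField.adjoin k (Set.range x) = ⊤) (ρ : E)
    (hkE : ∀ c : k, ∃ e : E, algebraMap E L e = algebraMap K L (algebraMap k K c))
    (hgen : ∀ z : L, z ∈ Subfield.closure (Set.range (algebraMap K L) ∪ {algebraMap E L ρ})) :
    IntermediateField.adjoin E (Set.range fun j => algebraMap K L (x j)) = ⊤ := by
  rw [eq_top_iff]
  intro z _
  have h1 : ∀ w : K, algebraMap K L w ∈
      IntermediateField.adjoin E (Set.range fun j => algebraMap K L (x j)) := by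
    intro w
    have hw : w ∈ IntermediateField.adjoin k (Set.range x) := by rw [htop]; trivial
    induction hw using IntermediateField.adjoin_induction with
    | mem w hw =>
      obtain ⟨j, rfl⟩ := hw
      exact IntermediateField.subset_adjoin _ _ ⟨j, rfl⟩
    | algebraMap c =>
      obtain ⟨e, he⟩ := hkE c
      rw [← he]
      exact IntermediateField.algebraMap_mem _ _
    | add x y _ _ hx hy => rw [map_add]; exact add_mem hx hy
    | inv x _ hx => rw [map_inv₀]; exact inv_mem hx
    | mul x y _ _ hx hy => rw [map_mul]; exact mul_mem hx hy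
  have h2 : Subfield.closure (Set.range (algebraMap K L) ∪ {algebraMap E L ρ}) ≤
      (IntermediateField.adjoin E (Set.range fun j => algebraMap K L (x j))).toSubfield := by
    rw [Subfield.closure_le]
    rintro w (⟨w, rfl⟩ | hw)
    · exact h1 w
    · rw [Set.mem_singleton_iff.1 hw]
      exact IntermediateField.algebraMap_mem _ _
  exact h2 (hgen z)

/-- The charts. -/
lemma ch_map {K L : Type u} [Field K] [Field L] [Algebra K L] (O : Subring K) (ρ : L) (W : Set K)
    (w : K) {z : K} (hz : z ∈ ch O W w) :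
    algebraMap K L z ∈ ch (Orm O ρ) (algebraMap K L '' W) (algebraMap K L w) := by
  have h1 : ch O W w ≤
      (ch (Orm O ρ) (algebraMap K L '' W) (algebraMap K L w)).comap (algebraMap K L) := by
    unfold ch
    rw [Subring.closure_le]
    rintro z (hz | ⟨y, hy, rfl⟩)
    · exact Subring.subset_closure (Or.inl (Subring.subset_closure (Or.inl ⟨z, hz, rfl⟩)))
    · refine Subring.subset_closure (Or.inr ⟨_, ⟨y, hy, rfl⟩, ?_⟩)
      rw [map_div₀]
  exact h1 hz

end Pool.Agent.N98.VG
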