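import Pool.Agent.N98.VG.TnF
import Pool.Agent.N98.VG.Cut
import Pool.Agent.N98.RW.HypF

/-!
Hypersurfaces of bounded degree: the values of the local equations.
-/

set_option autoImplicit false
set_option linter.unusedVariables false
set_option linter.unusedSimpArgs false
set_option linter.unusedSectionVars false

universe u

open Pool.Agent.W418.LU2

namespace Pool.Agent.N98.VG

open Pool.Agent.N98.RV Pool.Agent.N98.RW

section main

/-- **Hypersurfaces of bounded degree.** -/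
theorem hypV {E₀ : Type u} [Field E₀] [CharZero E₀] {n : ℕ} (D : ℕ) (hD : 1 ≤ D)
    (f0 : MvPolynomial (Fin n) E₀) (hf0 : Irreducible f0) (hfD0 : f0.totalDegree ≤ D)
    (B : Type) [Finite B] (P0 : B → MvPolynomial (Fin n) E₀) (hP0 : ∀ b, ¬ f0 ∣ P0 b)
    (hPD0 : ∀ b, (P0 b).totalDegree ≤ D) :
    ∃ S : Set (MvPolynomial (Fin n) E₀), S.Finite ∧ (∀ q ∈ S, ¬ f0 ∣ q) ∧
    ∀ (E : Type u) [Field E] [Algebra E₀ E] (K : Type u) [Field K] [Algebra E₀ K] [Algebra E K]
    [IsScalarTower E₀ E K] (K' : Type u) [Field K'] [Algebra E K']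
    [Algebra (MvPolynomial (Fin n) E) K']
    [IsScalarTower E (MvPolynomial (Fin n) E) K'] [IsFractionRing (MvPolynomial (Fin n) E) K']
    {𝒮 : Set (Subring E × Set E)} (_ : ∀ k Θ, (k, Θ) ∈ 𝒮 → IsNoetherianRing k)
    (_ : ∀ (k : Subring E) (Θ : Set E), (k, Θ) ∈ 𝒮 → 0 ∉ Θ ∧ ∀ s : Finset E, (∀ e ∈ s, e ∈ Θ) →
      ∃ d ∈ Θ, d ∈ k ∧ ∀ e ∈ s, d * e ∈ k)
    {𝒲 : Set (ValuationSubring E)} (_ : HasF 𝒮 𝒲)
    (_ : (exV K 𝒲).Nonempty)
    (_ : ∀ (k : Subring E) (Θ : Set E), (k, Θ) ∈ 𝒮 →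
      IsUnit ((Nat.factorial (D ^ 2 ^ (n - 1)) : ℕ) : k)) (x : Fin n → K)
    (_ : IntermediateField.adjoin E (Set.range x) = ⊤)
    (f : MvPolynomial (Fin n) E) (_ : f = MvPolynomial.map (algebraMap E₀ E) f0)
    (_ : Irreducible f)
    (_ : ∀ g : MvPolynomial (Fin n) E, MvPolynomial.aeval x g = 0 ↔ f ∣ g)
    (_ : ∀ g : MvPolynomial (Fin n) E₀, MvPolynomial.aeval x g = 0 ↔ f0 ∣ g)
    (C0 : Type) [Finite C0] (h : C0 → E) (_ : ∀ c, h c ≠ 0),
    ∃ (k : Subring E) (Θ : Set E) (_ : (k, Θ) ∈ 𝒮) (T I : Type) (_ : Finite T) (_ : Fintype I)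
      (M : LM (exV K 𝒲) (⊥ : Subalgebra k K) (Algebra.adjoin k (Set.range x)) T I),
      Frc M ∧ (∀ b, RW.IsBr M (MvPolynomial.aeval x (P0 b))) ∧ (∀ c, h c ∈ Θ) ∧
      (∀ e ∈ Θ, RW.IsBr M (algebraMap E K e)) ∧
      ∀ (V : ValuationSubring K) (Pr : K → Prop), Sat k V Pr →
        (∀ q ∈ S, Pr (MvPolynomial.aeval x q)) → (∀ e : E, e ≠ 0 → Pr (algebraMap E K e)) →
        VG M V Pr := by
  classical
  obtain ⟨S0, hS0f, hS0, htn⟩ := tnV E₀ n D hD (Option B) (fun o => o.elim f0 P0) (by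
      rintro (_ | b)
      · exact hf0.ne_zero
      · intro h
        have h' : P0 b = 0 := h
        apply hP0 b
        rw [h']
        exact dvd_zero _) (by
      rintro (_ | b)
      · exact hfD0
      · exact hPD0 b)
  have hfac : ∀ q : MvPolynomial (Fin n) E₀, q ≠ 0 → ∃ (a : ℕ) (q' : MvPolynomial (Fin n) E₀),
      ¬ f0 ∣ q' ∧ q = f0 ^ a * q' := fun q hq => WfDvdMonoid.max_power_factor hq hf0
  choose! aa qq hqq hqa using hfac
  refine ⟨qq '' S0, hS0f.image _, ?_, ?_⟩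
  · rintro _ ⟨q, hq, rfl⟩
    exact hqq q (hS0 q hq)
  intro E _ _ K _ _ _ _ K' _ _ _ _ _ 𝒮 h𝒮 hden 𝒲 hE hne hchar x htop f hff hf hker hker0 C0 _ h hh
  let _ : Algebra E₀ K' := ((algebraMap E K').comp (algebraMap E₀ E)).toAlgebra
  have hst0 : IsScalarTower E₀ E K' := IsScalarTower.of_algebraMap_eq fun r => rfl
  let P : B → MvPolynomial (Fin n) E := fun b => MvPolynomial.map (algebraMap E₀ E) (P0 b)
  have hP : ∀ b, MvPolynomial.aeval x (P b) ≠ 0 := by
    intro b
    rw [MvPolynomial.aeval_map_algebraMap]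
    intro h0
    exact hP0 b ((hker0 _).1 h0)
  let R0 := MvPolynomial (Fin n) E
  obtain ⟨hX1, hX2, hX3⟩ := frac_top (E := E) (n := n) K'
  have hEC : ∀ e : E, algebraMap E K' e = algebraMap R0 K' (MvPolynomial.C e) := fun e =>
    IsScalarTower.algebraMap_apply E R0 K' e
  -- the valuation rings
  have hne' : (exV K' 𝒲).Nonempty := by
    obtain ⟨Q, π, hs, hQ, hinv, hg, hun, hrep⟩ := exists_loc (k := E) x htop f hf hker K'
    have hK : ∀ x : K', (∃ a b : Q, π b ≠ 0 ∧ x * b = a) ∨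
        (∃ a b : Q, π b ≠ 0 ∧ x⁻¹ * b = a) := by
      intro x
      have key : ∀ x : K', x ∈ Q → ∃ a b : Q, π b ≠ 0 ∧ x * b = a := fun x hx =>
        ⟨⟨x, hx⟩, 1, by rw [map_one]; exact one_ne_zero, by simp⟩
      exact (hQ x).imp (key x) (key _)
    have hEQ : ∀ e : E, algebraMap E K' e ∈ Q ∧ pq π (algebraMap E K' e) = algebraMap E K e := by
      intro e
      have e1 : algebraMap E K' e = algebraMap R0 K' (MvPolynomial.C e) := hEC e
      rw [e1]
      refine ⟨(hg _).1, ?_⟩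
      rw [(hg _).2, MvPolynomial.aeval_C]
    refine ⟨pullV π hK hne.some, ?_⟩
    change (pullV π hK _).comap (algebraMap E K') ∈ 𝒲
    rw [pullV_comap π hK hEQ _]
    exact hne.some_mem
  obtain ⟨k, Θ, hk, T, I, hT, hI, M, hFr, hMb, hΘ, hΘB, hMv, hMd⟩ := htn E h𝒮 hE
    (fun _ => hchar) K'
    hne'
    (fun i => algebraMap R0 K' (MvPolynomial.X i)) hX2 hX3
    (C0 ⊕ ({m // m ∈ f.support} ⊕ {m // m ∈ f.support}))
    (Sum.elim h (Sum.elim (fun m => f.coeff m.1) (fun m => (f.coeff m.1)⁻¹))) (by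
      rintro (c | m | m)
      · exact hh c
      · exact MvPolynomial.mem_support_iff.1 m.2
      · exact inv_ne_zero (MvPolynomial.mem_support_iff.1 m.2))
  have hkn := h𝒮 k Θ hk
  obtain ⟨hΘ0, hden'⟩ := hden k Θ hk
  obtain ⟨d, hdΘ, hdk, hdh⟩ := hden' (f.support.image (fun m => f.coeff m) ∪
      f.support.image (fun m => (f.coeff m)⁻¹)) (by
    intro e he
    rcases Finset.mem_union.1 he with he | he
    · obtain ⟨m, hm, rfl⟩ := Finset.mem_image.1 he
      exact hΘ (Sum.inr (Sum.inl ⟨m, hm⟩))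
    · obtain ⟨m, hm, rfl⟩ := Finset.mem_image.1 he
      exact hΘ (Sum.inr (Sum.inr ⟨m, hm⟩)))
  have hd0 : d ≠ 0 := fun h0 => hΘ0 (h0 ▸ hdΘ)
  have hdB := hΘB d hdΘ
  have hs0 : IsScalarTower k E K := IsScalarTower.of_algebraMap_eq fun r => rfl
  have hs1 : IsScalarTower k E K' := IsScalarTower.of_algebraMap_eq fun r => rfl
  have hs2 : IsScalarTower k R0 K' := IsScalarTower.of_algebraMap_eq fun r => hEC r
  obtain ⟨Q, π, hs, hQ, hinv, hg, hun, hrep⟩ := exists_loc (k := k) x htop f hf hker K'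
  have hK : ∀ x : K', (∃ a b : Q, π b ≠ 0 ∧ x * b = a) ∨
      (∃ a b : Q, π b ≠ 0 ∧ x⁻¹ * b = a) := by
    intro x
    have key : ∀ x : K', x ∈ Q → ∃ a b : Q, π b ≠ 0 ∧ x * b = a := fun x hx =>
      ⟨⟨x, hx⟩, 1, by rw [map_one]; exact one_ne_zero, by simp⟩
    exact (hQ x).imp (key x) (key _)
  have hEQ : ∀ e : E, algebraMap E K' e ∈ Q ∧ pq π (algebraMap E K' e) = algebraMap E K e := by
    intro e
    have e1 : algebraMap E K' e = algebraMap R0 K' (MvPolynomial.C e) := hEC e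
    rw [e1]
    refine ⟨(hg _).1, ?_⟩
    rw [(hg _).2, MvPolynomial.aeval_C]
  have h𝒲 : ∀ V ∈ exV K 𝒲, pullV π hK V ∈ exV K' 𝒲 := by
    intro V hV
    change (pullV π hK V).comap (algebraMap E K') ∈ 𝒲
    rw [pullV_comap π hK hEQ V]
    exact hV
  have hf0' : algebraMap R0 K' f ≠ 0 := by
    intro h
    exact hf.ne_zero (IsFractionRing.injective R0 K' (h.trans (map_zero _).symm))
  have haX : ∀ g : MvPolynomial (Fin n) E₀,
      MvPolynomial.aeval (fun i => algebraMap R0 K' (MvPolynomial.X i)) g =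
        algebraMap R0 K' (MvPolynomial.map (algebraMap E₀ E) g) := by
    intro g
    rw [← hX1, MvPolynomial.aeval_map_algebraMap]
  have hMf : RW.IsBr M (algebraMap R0 K' f) := by
    have := hMb none
    rw [hff, ← haX]
    exact this
  have hpf : pq π (algebraMap R0 K' f) = 0 := by
    rw [(hg f).2]
    exact (hker f).2 dvd_rfl
  have hdom : ∀ t, M.A t ≤ Q → ∀ q ∈ Q, ∃ a ∈ M.A t, ∃ b ∈ M.A t, pq π b ≠ 0 ∧ q * b = a := by
    intro t ht q hq
    have hne : ∀ {b : K'}, pq π b ≠ 0 → b ≠ 0 := by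
      rintro b hb rfl
      exact hb (pq_zero π)
    let W := lo Q.toSubring (M.A t).toSubring
    have hW : ∀ y, y ∈ W ↔ ∃ a ∈ M.A t, ∃ b ∈ M.A t, pq π b ≠ 0 ∧ y * b = a := by
      intro y
      constructor
      · rintro ⟨a, ha, b, hb, hb0, hbQ, rfl⟩
        exact ⟨a, ha, b, hb, pq_ne π hb0 (ht hb) hbQ, by
          rw [mul_assoc, inv_mul_cancel₀ hb0, mul_one]⟩
      · rintro ⟨a, ha, b, hb, hb0, hab⟩
        refine ⟨a, ha, b, hb, hne hb0, hinv b (ht hb) hb0, ?_⟩
        rw [← hab, mul_assoc, mul_inv_cancel₀ (hne hb0), mul_one]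
    obtain ⟨hd1, hd2⟩ := hMd t
    have hAW : ∀ a ∈ M.A t, a ∈ W := fun a ha => le_lo _ _ ha
    have hWinv : ∀ b ∈ M.A t, pq π b ≠ 0 → b⁻¹ ∈ W := fun b hb hb0 =>
      inv_mem_lo ht (hAW b hb) (hne hb0) (hinv b (ht hb) hb0)
    -- constants
    have hWE : ∀ e : E, algebraMap E K' e ∈ W := by
      intro e
      obtain ⟨a, b, ha, hb, hb0, he⟩ := hd1 e
      have hbπ : pq π (algebraMap E K' b) ≠ 0 := by
        have e1 : algebraMap E K' b = algebraMap R0 K' (MvPolynomial.C b) := hEC b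
        rw [e1, (hg _).2, MvPolynomial.aeval_C]
        exact (_root_.map_ne_zero _).2 hb0
      rw [he, map_mul, map_inv₀]
      exact W.mul_mem (hAW _ ha) (hWinv _ hb hbπ)
    -- variables
    have hWX : ∀ i : Fin n, algebraMap R0 K' (MvPolynomial.X i) ∈ W := by
      intro i
      rcases hd2 i with h | h
      · exact hAW _ h
      · have h1 : algebraMap R0 K' (MvPolynomial.X i) ≠ 0 := by
          intro h0
          exact MvPolynomial.X_ne_zero i (IsFractionRing.injective R0 K' (h0.trans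
            (map_zero _).symm))
        have h2 : pq π (algebraMap R0 K' (MvPolynomial.X i))⁻¹ ≠ 0 := by
          refine pq_ne π (inv_ne_zero h1) (ht h) ?_
          rw [inv_inv]
          exact (hg _).1
        have h3 := hWinv _ h h2
        rwa [inv_inv] at h3
    have hWR : ∀ r : R0, algebraMap R0 K' r ∈ W := by
      intro r
      induction r using MvPolynomial.induction_on with
      | C a => rw [← hEC]; exact hWE a
      | add p q hp hq => rw [map_add]; exact W.add_mem hp hq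
      | mul_X p i hp => rw [map_mul]; exact W.mul_mem hp (hWX i)
    obtain ⟨r, s, hs', hrs⟩ := hrep q hq
    have hsW : (algebraMap R0 K' s)⁻¹ ∈ W := by
      obtain ⟨a, ha, b, hb, hb0, hab⟩ := (hW _).1 (hWR s)
      have hb1 : b ≠ 0 := by
        rintro rfl
        exact hb0 (pq_zero π)
      have ha0 : pq π a ≠ 0 := by
        rw [← hab, pq_mul π (hg s).1 (ht hb), (hg s).2]
        exact mul_ne_zero hs' hb0
      have e : (algebraMap R0 K' s)⁻¹ = b * a⁻¹ := by
        rw [← hab, mul_inv, mul_comm, mul_assoc, inv_mul_cancel₀ hb1, mul_one]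
      rw [e]
      exact W.mul_mem (hAW _ hb) (hWinv a ha ha0)
    rw [← hW]
    have hs0 : algebraMap R0 K' s ≠ 0 := by
      intro h
      apply hs'
      have : s = 0 := IsFractionRing.injective R0 K' (h.trans (map_zero _).symm)
      rw [this, map_zero]
    have e : q = algebraMap R0 K' r * (algebraMap R0 K' s)⁻¹ := by
      rw [← hrs, mul_assoc, mul_inv_cancel₀ hs0, mul_one]
    rw [e]
    exact W.mul_mem (hWR r) hsW
  -- the polynomials with coefficients in `k`
  have hfk : ∀ m, d * f.coeff m ∈ k := by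
    intro m
    by_cases hm : m ∈ f.support
    · exact hdh _ (Finset.mem_union_left _ (Finset.mem_image_of_mem _ hm))
    · rw [MvPolynomial.notMem_support_iff.1 hm, mul_zero]
      exact k.zero_mem
  have hfk' : ∀ m, d * (f.coeff m)⁻¹ ∈ k := by
    intro m
    by_cases hm : m ∈ f.support
    · exact hdh _ (Finset.mem_union_right _ (Finset.mem_image_of_mem _ hm))
    · rw [MvPolynomial.notMem_support_iff.1 hm, inv_zero, mul_zero]
      exact k.zero_mem
  have hRiff : ∀ z : K', z ∈ Algebra.adjoin k (Set.range (fun i : Fin n =>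
      algebraMap R0 K' (MvPolynomial.X i))) ↔ ∃ P : R0, Ci k P ∧ algebraMap R0 K' P = z := by
    intro z
    rw [mem_adjoin_iff]
    constructor
    · rintro ⟨P, hP, rfl⟩
      exact ⟨P, hP, (hX1 P).symm⟩
    · rintro ⟨P, hP, rfl⟩
      exact ⟨P, hP, hX1 P⟩
  have hinjR : Function.Injective (algebraMap R0 K') := IsFractionRing.injective R0 K'
  obtain ⟨T', I', hT', hI', M', hFr', hM', hMv'⟩ := cutV π (R' := Algebra.adjoin k (Set.range x)) hne hK
    h𝒲 hs hQ hinv (algebraMap R0 K' f) (hg f).1 hf0'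
    hpf hun M hMf hdom (by
      intro r hr
      obtain ⟨P, hP, rfl⟩ := (hRiff r).1 hr
      exact (hg P).1) (by
      intro r hr
      obtain ⟨P, hP, rfl⟩ := (hRiff r).1 hr
      rw [(hg P).2]
      exact (mem_adjoin_iff x _).2 ⟨P, hP, rfl⟩) (algebraMap E K' d) (by
      rw [hRiff]
      exact ⟨MvPolynomial.C d, Ci.C hdk, (hEC d).symm⟩) (by
      rw [(hEQ d).2]
      exact (_root_.map_ne_zero _).2 hd0) hdB (by
      rw [hRiff]
      refine ⟨MvPolynomial.C d * f, ?_, by rw [map_mul, ← hEC]⟩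
      intro m
      rw [MvPolynomial.coeff_C_mul]
      exact hfk m) (by
      intro b hb hb0
      obtain ⟨P, hP, rfl⟩ := (hRiff b).1 hb
      have hP0 : P ≠ 0 := by
        rintro rfl
        exact hb0 (map_zero _)
      obtain ⟨e, m, c, hc, hfc, hPc⟩ := exists_div hdk hd0 hf hfk hfk' hP hP0
      refine ⟨e, m, algebraMap R0 K' c, (hRiff _).2 ⟨c, hc, rfl⟩, ?_, ?_⟩
      · rw [(hg c).2]
        intro h0
        exact hfc ((hker c).1 h0)
      · rw [hEC, ← map_pow, ← map_mul, hPc, map_mul, map_pow])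
  refine ⟨k, Θ, hk, T', I', hT', hI', M', hFr', fun b => ?_, fun c => hΘ (Sum.inl c),
    fun e he => ?_, ?_⟩
  rotate_left
  · have he0 : e ≠ 0 := fun h0 => hΘ0 (h0 ▸ he)
    have h2 := hM' _ (hEQ e).1 (by rw [(hEQ e).2]; exact (_root_.map_ne_zero _).2 he0) (hΘB e he)
    rwa [(hEQ e).2] at h2
  · intro V Pr hPr hq hc
    refine hMv' V Pr (hMv _ _ (cutP_sat π hinv (hg f).1 hf0' hpf ?_ hPr) ?_ ?_)
    · intro g hg0
      obtain ⟨r, s, hs0, rfl⟩ := IsFractionRing.div_surjective (A := R0) g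
      have hs1 : s ≠ 0 := nonZeroDivisors.ne_zero hs0
      have hr1 : r ≠ 0 := by
        rintro rfl
        apply hg0
        rw [map_zero, zero_div]
      obtain ⟨a, r', hr', hra⟩ := WfDvdMonoid.max_power_factor hr1 hf
      obtain ⟨b, s', hs', hsb⟩ := WfDvdMonoid.max_power_factor hs1 hf
      have hr2 : pq π (algebraMap R0 K' r') ≠ 0 := by
        rw [(hg r').2]
        intro h0
        exact hr' ((hker _).1 h0)
      have hs2 : pq π (algebraMap R0 K' s') ≠ 0 := by
        rw [(hg s').2]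
        intro h0
        exact hs' ((hker _).1 h0)
      have hs3 := hinv _ (hg s').1 hs2
      have hs4 : algebraMap R0 K' s' ≠ 0 := by
        intro h0
        rw [h0, pq_zero] at hs2
        exact hs2 rfl
      refine ⟨(a : ℤ) - b, algebraMap R0 K' r' * (algebraMap R0 K' s')⁻¹, ?_,
        Q.mul_mem (hg r').1 hs3, ?_⟩
      · rw [hra, hsb, map_mul, map_mul, map_pow, map_pow, zpow_sub₀ hf0', zpow_natCast,
          zpow_natCast]
        field_simp
      · rw [pq_mul π (hg r').1 hs3, pq_inv π hs4 (hg s').1 hs3]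
        exact mul_ne_zero hr2 (inv_ne_zero hs2)
    · intro q hqS
      have h1 := hqa q (hS0 q hqS)
      have h2 : MvPolynomial.aeval x (MvPolynomial.map (algebraMap E₀ E) (qq q)) =
          MvPolynomial.aeval x (qq q) := MvPolynomial.aeval_map_algebraMap _ _ _
      refine ⟨aa q, algebraMap R0 K' (MvPolynomial.map (algebraMap E₀ E) (qq q)), ?_,
        (hg _).1, ?_, ?_⟩
      · rw [haX]
        conv_lhs => rw [h1]
        rw [map_mul, map_mul, map_pow, map_pow, ← hff, zpow_natCast]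
      · rw [(hg _).2, h2]
        intro h0
        exact hqq q (hS0 q hqS) ((hker0 _).1 h0)
      · rw [(hg _).2, h2]
        exact hq _ ⟨q, hqS, rfl⟩
    · intro e he
      refine ⟨0, algebraMap E K' e, by rw [zpow_zero, one_mul], (hEQ e).1, ?_, ?_⟩
      · rw [(hEQ e).2]
        exact (_root_.map_ne_zero _).2 he
      · rw [(hEQ e).2]
        exact hc e he
  have h1 : RW.IsBr M (algebraMap R0 K' (P b)) := by
    have := hMb (some b)
    rw [← haX]
    exact this
  have h2 := hM' _ (hg (P b)).1 (by rw [(hg (P b)).2]; exact hP b) h1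
  rw [(hg (P b)).2, MvPolynomial.aeval_map_algebraMap] at h2
  exact h2


end main

end Pool.Agent.N98.VG
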