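import Pool.Agent.N98.VG.Rel

/-!
Generators of ideals after algebraic extensions of the base field.
-/

set_option autoImplicit false
set_option linter.unusedVariables false
set_option linter.unusedSectionVars false

universe u

namespace Pool.Agent.N98.VG

open MvPolynomial

/-- The minimal polynomial of the smallest degree. -/
theorem stab {n : ℕ} {E₀ E K : Type u} [Field E₀] [Field E] [Field K] [Algebra E₀ E]
    [Algebra E₀ K] [Algebra E K] [IsScalarTower E₀ E K] (y : Fin n → K)
    (F₀ : MvPolynomial (Fin n) E₀) (F : MvPolynomial (Fin n) E) (hF0 : F₀ ≠ 0)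
    (h0 : aeval y F₀ = 0) (hF : Irreducible F)
    (hker : ∀ g : MvPolynomial (Fin n) E, aeval y g = 0 ↔ F ∣ g)
    (hd : F₀.totalDegree ≤ F.totalDegree) :
    Irreducible (MvPolynomial.map (algebraMap E₀ E) F₀) ∧
      ∀ g : MvPolynomial (Fin n) E, aeval y g = 0 ↔ MvPolynomial.map (algebraMap E₀ E) F₀ ∣ g := by
  set F' := MvPolynomial.map (algebraMap E₀ E) F₀ with hF'
  have h1 : F ∣ F' := by
    rw [← hker, hF', aeval_map_algebraMap]
    exact h0
  have hF'0 : F' ≠ 0 := by
    intro h
    apply hF0
    apply MvPolynomial.map_injective _ (algebraMap E₀ E).injective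
    rw [map_zero]
    exact h
  obtain ⟨q, hq⟩ := h1
  have hq0 : q ≠ 0 := by
    rintro rfl
    exact hF'0 (by rw [hq, mul_zero])
  have h2 : F'.totalDegree ≤ F₀.totalDegree := 
    Finset.sup_mono (support_map_subset _ _)
  have h3 : F'.totalDegree = F.totalDegree + q.totalDegree := by
    rw [hq, totalDegree_mul_of_isDomain hF.ne_zero hq0]
  have h4 : q.totalDegree = 0 := by omega
  have h5 : IsUnit q := by
    rw [totalDegree_eq_zero_iff_eq_C] at h4
    rw [h4]
    refine (IsUnit.mk0 (coeff 0 q) ?_).map C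
    intro h
    rw [h, map_zero] at h4
    exact hq0 h4
  have h6 : Associated F F' := ⟨h5.unit, hq.symm⟩
  exact ⟨h6.irreducible hF, fun g => by rw [hker, h6.dvd_iff_dvd_left]⟩

end Pool.Agent.N98.VG
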