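import Pool.Agent.N98.VG.BaseV
import Pool.Agent.N98.VG.Stab

/-!
The models over the extensions of the base field.
-/

set_option autoImplicit false
set_option linter.unusedVariables false
set_option linter.unusedSectionVars false

universe u

namespace Pool.Agent.N98.VG

open IsLocalRing Pool.Agent.W418.LU2 Pool.Agent.H176.DT MvPolynomial

lemma SatV.zpow {K : Type u} [Field K] {V : ValuationSubring K} {P : K → Prop} (h : SatV V P)
    {a : K} (ha : P a) (n : ℤ) : P (a ^ n) := by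
  have h0 : P 1 := h.unit 1 one_ne_zero V.one_mem (by rw [inv_one]; exact V.one_mem)
  have h1 : ∀ n : ℕ, P (a ^ n) := by
    intro n
    induction n with
    | zero => rwa [pow_zero]
    | succ n ih =>
      rw [pow_succ]
      exact h.mul _ _ ih ha
  obtain ⟨m, rfl | rfl⟩ := Int.eq_nat_or_neg n
  · rw [zpow_natCast]
    exact h1 m
  · rw [zpow_neg, zpow_natCast]
    exact h.inv _ (h1 m)

theorem level_rel {E₀ : Type u} [Field E₀] [CharZero E₀] {r N δ : ℕ} (hδ1 : 1 ≤ δ)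
    (c : Fin (r + 1) → Fin N → E₀) (F W : MvPolynomial (Fin (r + 1)) E₀)
    (Vp : Fin N → MvPolynomial (Fin (r + 1)) E₀) (hF : Irreducible F) (hFd : F.totalDegree ≤ δ)
    (hWd : W.totalDegree ≤ δ) (hVd : ∀ j, (Vp j).totalDegree ≤ δ) (hFW : ¬ F ∣ W)
    {n : ℕ} (q : Fin n → ℕ) (a : ∀ j, Fin (q j) → E₀) (b : ∀ j, Fin (q j) → Fin N → E₀)
    (e : ∀ j, Fin (q j) → ℤ) :
    ∃ S : Set (MvPolynomial (Fin (r + 1)) E₀), S.Finite ∧ (∀ g ∈ S, ¬ F ∣ g) ∧
    ∀ (E L : Type u) [Field E] [Field L] [Algebra E₀ E] [Algebra E₀ L] [Algebra E L]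
    [IsScalarTower E₀ E L] (V : ValuationSubring L) (R : Subring E) (_ : IsNoetherianRing R)
    (_ : ∀ a ∈ R, algebraMap E L a ∈ V) (_ : ∀ z : E, ∃ a ∈ R, ∃ b ∈ R, b ≠ 0 ∧ z = a * b⁻¹)
    (π : E) (_ : π ≠ 0) (_ : π ∈ R) (_ : V.valuation (algebraMap E L π) < 1)
    (_ : ∀ a ∈ R, V.valuation (algebraMap E L a) < 1 →
      ∃ b ∈ R, ∃ c ∈ R, V.valuation (algebraMap E L c) = 1 ∧ c * a = b * π)
    (_ : ∀ p : ℕ, p.Prime → p ≤ δ ^ 2 ^ r → V.valuation (p : L) = 1)
    (x : Fin N → L) (_ : IntermediateField.adjoin E (Set.range x) = ⊤)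
    (_ : Irreducible (MvPolynomial.map (algebraMap E₀ E) F))
    (_ : ∀ g : MvPolynomial (Fin (r + 1)) E,
      aeval (fun i => ∑ j, algebraMap E₀ L (c i j) * x j) g = 0 ↔
        MvPolynomial.map (algebraMap E₀ E) F ∣ g)
    (_ : ∀ g : MvPolynomial (Fin (r + 1)) E₀,
      aeval (fun i => ∑ j, algebraMap E₀ L (c i j) * x j) g = 0 ↔ F ∣ g)
    (_ : ∀ j, aeval (fun i => ∑ j, algebraMap E₀ L (c i j) * x j) (Vp j) +
      aeval (fun i => ∑ j, algebraMap E₀ L (c i j) * x j) W * x j = 0)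
    (s : Fin n → L) (_ : ∀ j, s j =
      ∏ i, (algebraMap E₀ L (a j i) + ∑ l, algebraMap E₀ L (b j i l) * x l) ^ e j i)
    (_ : ∀ j, s j ≠ 0)
    (O : Subring L) (_ : R.map (algebraMap E L) = O) (G : Set L)
    (_ : ∀ z ∈ G, z ≠ 0 → ∃ j, s j = z) (j1 : Fin n) (_ : s j1 = 1)
    (A : Subring L) (_ : A ≤ V.toSubring) (_ : A = Subring.closure ((O : Set L) ∪ G))
    (jx : Fin N → Fin n) (_ : ∀ l, s (jx l) ∈ A ∧ s (jx l) * x l ∈ A),
    ∃ (T : Set L) (n : ℕ) (X : Fin n → L), St V A T X ∧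
      PMon (PP V A T) X (algebraMap E L π) ∧
      ∀ Pr : L → Prop, SatV V Pr →
        (∀ g ∈ S, Pr (aeval (fun i => ∑ j, algebraMap E₀ L (c i j) * x j) g)) →
        Pr (algebraMap E L π) → ∀ i, Pr (X i) := by
  classical
  let B : Type := {i : Σ j, Fin (q j) //
    ¬ F ∣ (C (a i.1 i.2) * W - ∑ l, C (b i.1 i.2 l) * Vp l)}
  obtain ⟨S, hSf, hS, hrel⟩ := relV hδ1 c F W Vp hF hFd hWd hVd hFW B
    (fun i => a i.1.1 i.1.2) (fun i => b i.1.1 i.1.2) (fun i => i.2)
  refine ⟨S, hSf, hS, ?_⟩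
  intro E L _ _ _ _ _ _ V R hRn hRV hfr π hπ0 hπR hπ1 hgen hp x htop hirr hker hker0 hVp s hs hs0
    O hRO G hG j1 hj1 A hAV hA jx hx
  have hval : ∀ z : E, (V.comap (algebraMap E L)).valuation z < 1 ↔
      V.valuation (algebraMap E L z) < 1 := by
    intro z
    rw [← not_le, ← not_le]
    by_cases h0 : z = 0
    · simp [h0]
    · have h1 : ∀ (F' : Type u) [Field F'] (U : ValuationSubring F') (w : F'), w ≠ 0 →
          (1 ≤ U.valuation w ↔ w⁻¹ ∈ U) := by
        intro F' _ U w hw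
        rw [← U.valuation_le_one_iff, map_inv₀,
          inv_le_one₀ (zero_lt_iff.2 ((_root_.map_ne_zero _).2 hw))]
      rw [h1 _ _ _ h0, h1 _ _ _ ((_root_.map_ne_zero _).2 h0), ← map_inv₀]
      rfl
  have hval1 : ∀ z : E, V.valuation (algebraMap E L z) = 1 →
      (V.comap (algebraMap E L)).valuation z = 1 := by
    intro z hz
    have h0 : z ≠ 0 := by
      rintro rfl
      rw [map_zero, map_zero] at hz
      exact zero_ne_one hz
    refine le_antisymm ?_ ?_
    · rw [ValuationSubring.valuation_le_one_iff]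
      change algebraMap E L z ∈ V
      rw [← V.valuation_le_one_iff]
      exact hz.le
    · rw [← not_lt, hval, hz]
      exact lt_irrefl _
  have hRV' : R ≤ (V.comap (algebraMap E L)).toSubring := fun a ha => hRV a ha
  obtain ⟨hHF, hEv⟩ := hasF_dv (V.comap (algebraMap E L)) R hRn hRV' hfr π hπR hπ0
    ((hval π).2 hπ1) (fun a ha ha1 => by
      obtain ⟨b, hb, c, hc, hc1, h1⟩ := hgen a ha ((hval a).1 ha1)
      exact ⟨b, hb, c, hc, hval1 c hc1, h1⟩)
  set y : Fin (r + 1) → L := fun i => ∑ j, algebraMap E₀ L (c i j) * x j with hy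
  have hform : ∀ j (i : Fin (q j)),
      (algebraMap E₀ L (a j i) + ∑ l, algebraMap E₀ L (b j i l) * x l) * aeval y W =
      aeval y (C (a j i) * W - ∑ l, C (b j i l) * Vp l) := by
    intro j i
    rw [map_sub, map_mul, aeval_C, map_sum, add_mul, Finset.sum_mul, sub_eq_add_neg]
    congr 1
    rw [← Finset.sum_neg_distrib]
    refine Finset.sum_congr rfl fun l _ => ?_
    rw [map_mul, aeval_C]
    have := hVp l
    linear_combination (algebraMap E₀ L (b j i l)) * this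
  refine exists_stageV (fun i j => algebraMap E₀ L (c i j))
    (fun i j => ⟨algebraMap E₀ E (c i j), (IsScalarTower.algebraMap_apply E₀ E L _).symm⟩) x V R hfr
    s hs0 π hπ0 hπR (fun Pr => (∀ g ∈ S, Pr (aeval y g)) ∧ Pr (algebraMap E L π)) ?_ O hRO G hG
    j1 hj1 A hAV hA jx hx |>.imp fun T => ?_
  · intro h hh
    obtain ⟨k, Θ, hk, T, I, hT, hI, M, hFr, hM, hΘ, hΘB, hMv⟩ := hrel E L
      (𝒮 := RW.AdlS (V.comap (algebraMap E L)) R) (fun k Θ hk => hk.noeth)
      (fun k Θ hk => ⟨hk.zero, hk.den'⟩) hHF ⟨V, rfl⟩ (fun k' Θ' hk' => by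
        refine RV.isUnit_factorial_of_primes _ fun p hpp hpB => ?_
        have h1 : (V.comap (algebraMap E L)).valuation (p : E) = 1 := by
          refine hval1 _ ?_
          rw [map_natCast]
          exact hp p hpp hpB
        have h2 : (p : E) ∈ k' := natCast_mem k' p
        have h3 := hk'.inv _ h2 h1
        have h0 : (p : E) ≠ 0 := by
          intro h0
          rw [h0, map_zero] at h1
          exact zero_ne_one h1
        refine isUnit_iff_exists_inv.2 ⟨⟨_, h3⟩, Subtype.ext ?_⟩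
        change ((p : k') : E) * (p : E)⁻¹ = 1
        have e1 : ((p : k') : E) = (p : E) := by push_cast; rfl
        rw [e1, mul_inv_cancel₀ h0]) x htop hirr hker hker0 hVp Bool h hh
    have hkn : IsNoetherianRing k := hk.noeth
    refine ⟨k, Θ, hk, T, I, hT, hI, M, hFr, fun j => ?_, hΘ, hΘB, fun Pr hPr hH => ?_⟩
    · have h1 := hs0 j
      rw [hs j] at h1 ⊢
      refine fam_br M _ _ (fun i hi => ?_) h1
      refine hM ⟨⟨j, i⟩, fun hdvd => hi ?_⟩
      have h2 := hform j i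
      rw [(hker0 _).2 hdvd] at h2
      exact (mul_eq_zero.1 h2).resolve_right fun h3 => hFW ((hker0 _).1 h3)
    · have hkV : ∀ c : k, algebraMap k L c ∈ V := fun c => hk.leV c c.2
      refine hMv V Pr hPr hH.1 fun e he => ?_
      obtain ⟨u, hu, hu', hu0, n, rfl⟩ := hEv e he
      have hu1 : algebraMap E L u ∈ V := hu
      have hu2 : (algebraMap E L u)⁻¹ ∈ V := by
        rw [← map_inv₀]
        exact hu'
      rw [map_mul, map_zpow₀]
      exact hPr.mul _ _ (hPr.unit _ ((_root_.map_ne_zero _).2 hu0) hu1 hu2) (hPr.zpow hH.2 n)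
  · rintro ⟨m, X, h1, h2, h3⟩
    exact ⟨m, X, h1, h2, fun Pr hPr h4 h5 => h3 Pr hPr ⟨h4, h5⟩⟩

end Pool.Agent.N98.VG
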