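import Pool.Agent.N98.VG.Step
import Pool.Agent.N98.RW.P1

/-!
Polynomials over a base: the values of the local equations.
-/

set_option autoImplicit false
set_option linter.unusedVariables false
set_option linter.unusedSimpArgs false
set_option linter.unusedSectionVars false

universe u

open Polynomial

namespace Pool.Agent.N98.VG

open Pool.Agent.N98.RV Pool.Agent.N98.RW

section main

variable {k L K : Type u} [CommRing k] [Field L] [Field K] [Algebra k L] [Algebra k K] [Algebra L K]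
  [IsScalarTower k L K] {𝒱 : Set (ValuationSubring K)} {𝒲 : Set (ValuationSubring L)}

lemma vg_prod {T I : Type} [Fintype I] {R : Subalgebra k L} {R' : Subalgebra k K}
    (hR : ∀ a ∈ R, em k L K a ∈ R') (h𝒱 : 𝒱.Nonempty)
    (h𝒲 : ∀ V ∈ 𝒱, V.comap (algebraMap L K) ∈ 𝒲) (M : LM 𝒲 (⊥ : Subalgebra k L) R T I) {z : K}
    (hzR : z ∈ R') (hz : z ≠ 0) (h : ∀ t b, RegC (adj ((mapLM hR h𝒱 h𝒲 M).A t) (zz z b)).toSubring
      (xx ((mapLM hR h𝒱 h𝒲 M).x t) z b)) (V : ValuationSubring K) (Pr : K → Prop)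
    (hPr : Sat k V Pr) (hPz : Pr z)
    (hM : VG M (V.comap (algebraMap L K)) (fun g => Pr (algebraMap L K g))) :
    VG (prodLM (mapLM hR h𝒱 h𝒲 M) hzR hz h) V Pr := by
  rintro ⟨t, b⟩ hA i
  have hA1 : ∀ f ∈ M.A t, f ∈ V.comap (algebraMap L K) := by
    intro f hf
    change algebraMap L K f ∈ V
    exact hA _ (RV.le_adj _ _ (show algebraMap L K f ∈ (M.A t).map (em k L K) from ⟨f, hf, rfl⟩))
  rcases i with i | c
  · exact hM t hA1 i
  · change Pr (if b = c then zz z b else 1)
    split_ifs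
    · cases b
      · exact hPr.inv _ hPz
      · exact hPz
    · exact hPr.one

/-- **Polynomials over a base.** If the constants and the coefficients of the characteristic
polynomials of the members of a family of polynomials, closed under derivatives, are boundary
functions of a model of the base, then the members of the family are boundary functions of a model
of the product with the projective line. -/
theorem p1V [IsNoetherianRing k] {R : Subalgebra k L} {R' : Subalgebra k K}
    (hR : ∀ a ∈ R, em k L K a ∈ R') (h𝒱 : 𝒱.Nonempty)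
    (h𝒲 : ∀ V ∈ 𝒱, V.comap (algebraMap L K) ∈ 𝒲) {T I : Type} [Finite T] [Fintype I] (M : LM 𝒲 (⊥ : Subalgebra k L) R T I)
    (hFr : Frc M) (z : K) (hzR : z ∈ R') (hz : Transcendental L z)
    (htop : IntermediateField.adjoin L {z} = ⊤) (Δ : ℕ)
    (hΔ : IsUnit ((Nat.factorial Δ : ℕ) : k)) (P : Set L) (hP : ∀ g ∈ P, IsBr M g)
    {B : Type} [Finite B] (F : B → L[X]) (hF0 : ∀ b, F b ≠ 0)
    (hdeg : ∀ b, (F b).natDegree ≤ Δ)
    (hder : ∀ b, 1 ≤ (F b).natDegree → ∃ b', F b' = derivative (F b))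
    (hX : ∃ b, F b = X) (hconst : ∀ b, (F b).natDegree = 0 → (F b).coeff 0 ∈ P)
    (hQ : ∀ c b, 1 ≤ (F c).natDegree → ∃ Q : L[X], Q ≠ 0 ∧ Q.natDegree ≤ Δ ∧
      F c ∣ Q.comp (F b) ∧ ∀ n, Q.coeff n ≠ 0 → Q.coeff n ∈ P) :
    ∃ (T' I' : Type) (_ : Finite T') (_ : Fintype I') (M' : LM 𝒱 (⊥ : Subalgebra k K) R' T' I'),
      Frc M' ∧ (∀ b, IsBr M' (aeval z (F b))) ∧ (∀ g ∈ P, IsBr M' (algebraMap L K g)) ∧
      (∀ t', (z ∈ M'.A t' ∨ z⁻¹ ∈ M'.A t') ∧ ∃ t, (M.A t).map (em k L K) ≤ M'.A t') ∧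
      ∀ (V : ValuationSubring K) (Pr : K → Prop), Sat k V Pr → (∀ b, Pr (aeval z (F b))) →
        VG M (V.comap (algebraMap L K)) (fun g => Pr (algebraMap L K g)) → VG M' V Pr := by
  classical
  have hz0 : z ≠ 0 := by
    rintro rfl
    exact hz isAlgebraic_zero
  obtain ⟨D, hD⟩ := exists_ddz hz htop
  have hTr : ∀ t b, RegC (adj ((mapLM hR h𝒱 h𝒲 M).A t) (zz z b)).toSubring
      (xx ((mapLM hR h𝒱 h𝒲 M).x t) z b) := fun t b => rg_map hR h𝒱 h𝒲 M hz t b
  set M0 := prodLM (mapLM hR h𝒱 h𝒲 M) hzR hz0 hTr with hM0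
  have hF0' : Frc M0 := by
    rintro ⟨t, b⟩
    exact frc_adj (hFr t) htop b
  have hev0 : ∀ Q : L[X], Q ≠ 0 → aeval z Q ≠ 0 := fun Q hQ h =>
    hQ (transcendental_iff.1 hz Q h)
  let P' : Set K := algebraMap L K '' P
  have hP' : ∀ g ∈ P', IsBr M0 g := by
    rintro _ ⟨g, hg, rfl⟩
    exact isBr_prod hzR hz0 hTr (isBr_map hR h𝒱 h𝒲 (hP g hg))
  obtain ⟨bX, hbX⟩ := hX
  have hnX : (F bX).natDegree = 1 := by rw [hbX, natDegree_X]
  -- the step
  have step : ∀ (S : Set B) (b : B), 1 ≤ (F b).natDegree →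
      (∃ b' ∈ S, F b' = derivative (F b)) →
      (∃ (T' I' : Type) (_ : Finite T') (_ : Fintype I') (M' : LM 𝒱 (⊥ : Subalgebra k K) R' T' I'),
        GoodV M0 D z P' F S M') →
      ∃ (T' I' : Type) (_ : Finite T') (_ : Fintype I') (M' : LM 𝒱 (⊥ : Subalgebra k K) R' T' I'),
        GoodV M0 D z P' F (insert b S) M' := by
    rintro S b hb ⟨b', hb', he⟩ ⟨T', I', _, _, M', hM'⟩
    refine exists_stepV hF0' hD hM' b (hev0 _ (hF0 b)) hb ?_ Δ hΔ (hdeg b) ?_
    · rw [← he]
      exact hM'.br b' hb'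
    · intro c hc hc1
      obtain ⟨Q, hQ0, hQd, hQF, hQP⟩ := hQ c b hc1
      exact ⟨Q, hQ0, hQd, hQF, fun n hn => ⟨_, hQP n hn, rfl⟩⟩
  -- the induction on the degree
  have key : ∀ n : ℕ, ∃ (T' I' : Type) (_ : Finite T') (_ : Fintype I')
      (M' : LM 𝒱 (⊥ : Subalgebra k K) R' T' I'),
        GoodV M0 D z P' F ({b | (F b).natDegree ≤ n} ∪ {bX}) M' := by
    intro n
    induction n with
    | zero =>
      refine ⟨_, _, inferInstance, inferInstance, M0, ⟨⟨?_, hP', ?_, fun t => ⟨t, le_rfl⟩⟩,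
        fun V Pr _ _ h => h⟩⟩
      · rintro b (hb | hb)
        · have hb0 : (F b).natDegree = 0 := Nat.le_zero.1 hb
          have e : aeval z (F b) = algebraMap L K ((F b).coeff 0) := by
            conv_lhs => rw [eq_C_of_natDegree_eq_zero hb0]
            rw [aeval_C]
          rw [e]
          exact hP' _ ⟨_, hconst b hb0, rfl⟩
        · rw [Set.mem_singleton_iff] at hb
          rw [hb, hbX, aeval_X]
          exact (isB_self hzR hz0 hTr).br
      · intro t
        refine ⟨bX, Or.inr rfl, hnX.ge, ?_, ?_⟩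
        · rw [hbX, derivative_X, map_one]
          exact IsB.one.br
        · rw [hbX, derivative_X, map_one, aeval_X, div_one]
          exact ldt_prod hR h𝒱 h𝒲 M hzR hz0 hTr hD t
    | succ n ih =>
      have h1 : ∀ s : Finset B, (∀ b ∈ s, (F b).natDegree = n + 1) →
          ∃ (T' I' : Type) (_ : Finite T') (_ : Fintype I')
          (M' : LM 𝒱 (⊥ : Subalgebra k K) R' T' I'),
            GoodV M0 D z P' F ((s : Set B) ∪ ({b | (F b).natDegree ≤ n} ∪ {bX})) M' := by
        intro s
        induction s using Finset.induction_on with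
        | empty =>
          intro _
          rw [Finset.coe_empty, Set.empty_union]
          exact ih
        | insert b s hb ihs =>
          intro hs
          rw [Finset.coe_insert, Set.insert_union]
          have hbn : (F b).natDegree = n + 1 := hs b (Finset.mem_insert_self _ _)
          obtain ⟨b', hb'⟩ := hder b (by omega)
          refine step _ b (by omega) ⟨b', ?_, hb'⟩
            (ihs fun b hb => hs b (Finset.mem_insert_of_mem hb))
          refine Or.inr (Or.inl ?_)
          change (F b').natDegree ≤ n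
          rw [hb']
          have := natDegree_derivative_le (F b)
          omega
      have : Fintype B := Fintype.ofFinite B
      obtain ⟨T', I', h2, h3, M', hM'⟩ := h1 (Finset.univ.filter fun b => (F b).natDegree = n + 1)
        (fun b hb => (Finset.mem_filter.1 hb).2)
      refine ⟨T', I', h2, h3, M', ?_⟩
      have e : ((Finset.univ.filter fun b => (F b).natDegree = n + 1 : Finset B) : Set B) ∪
          ({b | (F b).natDegree ≤ n} ∪ {bX}) = {b | (F b).natDegree ≤ n + 1} ∪ {bX} := by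
        ext b
        simp only [Finset.coe_filter, Finset.mem_univ, true_and, Set.mem_union,
          Set.mem_ofPred_eq, Set.mem_singleton_iff]
        constructor
        · rintro (h | h | h)
          · exact Or.inl (by omega)
          · exact Or.inl (by omega)
          · exact Or.inr h
        · rintro (h | h)
          · by_cases h' : (F b).natDegree = n + 1
            · exact Or.inl h'
            · exact Or.inr (Or.inl (by omega))
          · exact Or.inr (Or.inr h)
      rw [← e]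
      exact hM'
  obtain ⟨T', I', h2, h3, M', hM'⟩ := key Δ
  refine ⟨T', I', h2, h3, M', ?_, fun b => hM'.br b (Or.inl (hdeg b)),
    fun g hg => hM'.brP _ ⟨g, hg, rfl⟩, ?_, ?_⟩
  · intro t x
    obtain ⟨t0, ht0⟩ := hM'.dom t
    obtain ⟨a, ha, c, hc, hc0, hx⟩ := hF0' t0 x
    exact ⟨a, ht0 ha, c, ht0 hc, hc0, hx⟩
  · intro t'
    obtain ⟨⟨t, b⟩, ht0⟩ := hM'.dom t'
    refine ⟨?_, t, (RV.le_adj _ _).trans ht0⟩
    have h4 : zz z b ∈ M'.A t' := ht0 (self_mem_adj _ _)
    cases b
    · exact Or.inr h4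
    · exact Or.inl h4
  · intro V Pr hPr hF hV
    refine hM'.vg V Pr hPr (fun b _ => hF b) ?_
    refine vg_prod hR h𝒱 h𝒲 M hzR hz0 hTr V Pr hPr ?_ hV
    have h1 := hF bX
    rwa [hbX, aeval_X] at h1

end main

end Pool.Agent.N98.VG
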