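import Pool.Agent.N98.VG.HypF
import Pool.Agent.N98.RW.RelF

/-!
Models of varieties of bounded degree: the values of the local equations.
-/

set_option autoImplicit false
set_option linter.unusedVariables false
set_option linter.unusedSectionVars false

universe u

namespace Pool.Agent.N98.VG

open Pool.Agent.N98.RV Pool.Agent.N98.RW

open MvPolynomial Pool.Agent.N98

section spz

variable {E K : Type u} [Field E] [Field K] [Algebra E K] {N r : ℕ} (x : Fin N → K)

/-- The special projection. -/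
theorem spzV [Infinite E] (j0 : Fin r → Fin N) (hv : AlgebraicIndependent E (fun i => x (j0 i)))
    (δ C0 : ℕ)
    (hδ : ∀ t : ℕ, r.factorial * Module.finrank E (img E x t) ≤ δ * (t + C0) ^ r)
    (hchar : ((Nat.factorial δ : ℕ) : E) ≠ 0) :
    ∃ (c : Fin (r + 1) → Fin N → E) (F W : MvPolynomial (Fin (r + 1)) E)
      (V : Fin N → MvPolynomial (Fin (r + 1)) E), Irreducible F ∧ F.totalDegree ≤ δ ∧
      (∀ g, aeval (fun i => ∑ j, algebraMap E K (c i j) * x j) g = 0 ↔ F ∣ g) ∧
      W.totalDegree ≤ δ ∧ aeval (fun i => ∑ j, algebraMap E K (c i j) * x j) W ≠ 0 ∧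
      (∀ j, (V j).totalDegree ≤ δ) ∧
      (∀ j, aeval (fun i => ∑ j, algebraMap E K (c i j) * x j) (V j) +
        aeval (fun i => ∑ j, algebraMap E K (c i j) * x j) W * x j = 0) ∧
      ∀ i : Fin r, ∑ j, algebraMap E K (c i.succ j) * x j = x (j0 i) := by
  classical
  let v : Fin r → K := fun i => x (j0 i)
  let z : Fin r → MvPolynomial (Fin r) E := fun i => X i
  have hz : ∀ i, aeval v (z i) = v i := fun i => aeval_X _ _
  have hzd : ∀ i, (z i).totalDegree ≤ 1 := fun i => (totalDegree_X (R := E) i).le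
  have hvx : ∀ i, v i ∈ img E x 1 := fun i => x_mem_img x _
  obtain ⟨Φ, hΦd, hΦ, hΦ'⟩ := gen x v hv hvx δ C0 (by rw [Fintype.card_fin]; exact hδ) hchar
  obtain ⟨c, hc⟩ : ∃ c : Fin N → E,
      eval (fun j => algebraMap E K (c j)) (gev x v (pderiv none Φ)) ≠ 0 := by
    by_contra hcon
    push Not at hcon
    apply hΦ'
    refine funext_set (fun _ => Set.range (algebraMap E K)) (fun _ =>
      Set.infinite_range_of_injective (algebraMap E K).injective) fun y hy => ?_
    choose c hc using fun j => hy j (Set.mem_univ j)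
    have hyc : y = fun j => algebraMap E K (c j) := _root_.funext fun j => (hc j).symm
    rw [map_zero, hyc, hcon c]
  let cc : Fin (r + 1) → Fin N → E := Fin.cons c (fun i => Pi.single (j0 i) 1)
  have hcc : (fun i => ∑ j, algebraMap E K (cc i j) * x j) = sy x v c := by
    funext i
    refine Fin.cases ?_ (fun i => ?_) i
    · rfl
    · change ∑ j, algebraMap E K ((Pi.single (j0 i) 1 : Fin N → E) j) * x j = x (j0 i)
      rw [Finset.sum_eq_single (j0 i)]
      · rw [Pi.single_eq_same, map_one, one_mul]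
      · intro j _ hj
        rw [Pi.single_eq_of_ne hj, map_zero, zero_mul]
      · intro h
        exact absurd (Finset.mem_univ _) h
  have hy : AlgebraicIndependent E fun i : Fin r => sy x v c i.succ := hv
  have hW : aeval (sy x v c) (sp z c (pderiv none Φ)) ≠ 0 := by
    rw [aeval_sp x v v z c hz]
    exact hc
  have hU : aeval (sy x v c) (sp z c Φ) = 0 := by
    rw [aeval_sp x v v z c hz, hΦ, map_zero]
  have hU0 : sp z c Φ ≠ 0 := by
    intro h
    apply hW
    rw [← pderiv_sp, h, map_zero, map_zero]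
  obtain ⟨F, hF, hker⟩ := exists_gen_fin (sy x v c) hy _ hU0 hU
  refine ⟨cc, F, sp z c (pderiv none Φ), fun j => sp z c (Pool.Agent.N98.dc j Φ), hF, ?_, ?_, ?_, ?_,
    fun j => ?_, fun j => ?_, fun i => ?_⟩
  · obtain ⟨q, hq⟩ := (hker _).1 hU
    have hq0 : q ≠ 0 := by
      rintro rfl
      exact hU0 (by rw [hq, mul_zero])
    have h1 := (totalDegree_sp_le z c hzd Φ).trans hΦd
    rw [hq, totalDegree_mul_of_isDomain hF.ne_zero hq0] at h1
    omega
  · rw [hcc]
    exact hker
  · exact (totalDegree_sp_le z c hzd _).trans ((totalDegree_pderiv_le' none Φ).trans hΦd)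
  · rw [hcc]
    exact hW
  · exact (totalDegree_sp_le z c hzd _).trans ((totalDegree_dc_le j Φ).trans hΦd)
  · rw [hcc]
    have h1 := pderiv_gev x v j Φ
    rw [hΦ, map_zero] at h1
    have h2 := congrArg (eval (fun j => algebraMap E K (c j))) h1
    rw [map_zero, map_add, map_mul, eval_C] at h2
    rw [aeval_sp x v v z c hz, aeval_sp x v v z c hz]
    exact h2.symm
  · exact congrFun hcc i.succ

end spz

section main

/-- **Models of varieties of bounded degree**, the relative version. -/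
theorem relV {E₀ : Type u} [Field E₀] [CharZero E₀] {r N δ : ℕ} (hδ1 : 1 ≤ δ)
    (c : Fin (r + 1) → Fin N → E₀) (F W : MvPolynomial (Fin (r + 1)) E₀)
    (V : Fin N → MvPolynomial (Fin (r + 1)) E₀) (hF : Irreducible F) (hFd : F.totalDegree ≤ δ)
    (hWd : W.totalDegree ≤ δ) (hVd : ∀ j, (V j).totalDegree ≤ δ) (hFW : ¬ F ∣ W)
    (B : Type) [Finite B] (a0 : B → E₀) (a : B → Fin N → E₀)
    (hb : ∀ b, ¬ F ∣ (C (a0 b) * W - ∑ j, C (a b j) * V j)) :
    ∃ S : Set (MvPolynomial (Fin (r + 1)) E₀), S.Finite ∧ (∀ q ∈ S, ¬ F ∣ q) ∧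
    ∀ (E : Type u) [Field E] [Algebra E₀ E] (K : Type u) [Field K] [Algebra E₀ K] [Algebra E K]
    [IsScalarTower E₀ E K]
    {𝒮 : Set (Subring E × Set E)} (_ : ∀ k Θ, (k, Θ) ∈ 𝒮 → IsNoetherianRing k)
    (_ : ∀ (k : Subring E) (Θ : Set E), (k, Θ) ∈ 𝒮 → 0 ∉ Θ ∧ ∀ s : Finset E, (∀ e ∈ s, e ∈ Θ) →
      ∃ d ∈ Θ, d ∈ k ∧ ∀ e ∈ s, d * e ∈ k)
    {𝒲 : Set (ValuationSubring E)} (_ : HasF 𝒮 𝒲)
    (_ : (exV K 𝒲).Nonempty)
    (_ : ∀ (k : Subring E) (Θ : Set E), (k, Θ) ∈ 𝒮 →
      IsUnit ((Nat.factorial (δ ^ 2 ^ r) : ℕ) : k)) (x : Fin N → K)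
    (_ : IntermediateField.adjoin E (Set.range x) = ⊤)
    (_ : Irreducible (MvPolynomial.map (algebraMap E₀ E) F))
    (_ : ∀ g : MvPolynomial (Fin (r + 1)) E,
      MvPolynomial.aeval (fun i => ∑ j, algebraMap E₀ K (c i j) * x j) g = 0 ↔
        MvPolynomial.map (algebraMap E₀ E) F ∣ g)
    (_ : ∀ g : MvPolynomial (Fin (r + 1)) E₀,
      MvPolynomial.aeval (fun i => ∑ j, algebraMap E₀ K (c i j) * x j) g = 0 ↔ F ∣ g)
    (_ : ∀ j, MvPolynomial.aeval (fun i => ∑ j, algebraMap E₀ K (c i j) * x j) (V j) +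
      MvPolynomial.aeval (fun i => ∑ j, algebraMap E₀ K (c i j) * x j) W * x j = 0)
    (H : Type) [Finite H] (h : H → E) (_ : ∀ i, h i ≠ 0),
    ∃ (k : Subring E) (Θ : Set E) (_ : (k, Θ) ∈ 𝒮) (T I : Type) (_ : Finite T) (_ : Fintype I)
      (M : LM (exV K 𝒲) (⊥ : Subalgebra k K) (Algebra.adjoin k
        (Set.range fun i => ∑ j, algebraMap E₀ K (c i j) * x j)) T I), Frc M ∧
      (∀ b, RW.IsBr M (algebraMap E₀ K (a0 b) + ∑ j, algebraMap E₀ K (a b j) * x j)) ∧
      (∀ i, h i ∈ Θ) ∧ (∀ e ∈ Θ, RW.IsBr M (algebraMap E K e)) ∧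
      ∀ (V : ValuationSubring K) (Pr : K → Prop), Sat k V Pr →
        (∀ q ∈ S, Pr (MvPolynomial.aeval (fun i => ∑ j, algebraMap E₀ K (c i j) * x j) q)) →
        (∀ e : E, e ≠ 0 → Pr (algebraMap E K e)) → VG M V Pr := by
  classical
  obtain ⟨S, hSf, hS, hh⟩ := hypV (n := r + 1) δ hδ1 F hF hFd (Option B)
    (fun o => o.elim W fun b => C (a0 b) * W - ∑ j, C (a b j) * V j) (by
      rintro (_ | b)
      · exact hFW
      · exact hb b) (by
      rintro (_ | b)
      · exact hWd
      · change (C (a0 b) * W - ∑ j, C (a b j) * V j).totalDegree ≤ δ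
        refine (totalDegree_sub _ _).trans (max_le ?_ ?_)
        · refine (totalDegree_mul _ _).trans ?_
          rw [totalDegree_C, zero_add]
          exact hWd
        · refine totalDegree_finsetSum_le fun j _ => ?_
          refine (totalDegree_mul _ _).trans ?_
          rw [totalDegree_C, zero_add]
          exact hVd j)
  refine ⟨S, hSf, hS, ?_⟩
  intro E _ _ K _ _ _ _ 𝒮 h𝒮 hden 𝒲 hE hne hchar x htop hirr hker hker0 hV H _ h hh0
  set y : Fin (r + 1) → K := fun i => ∑ j, algebraMap E₀ K (c i j) * x j with hy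
  have hW : aeval y W ≠ 0 := fun h0 => hFW ((hker0 _).1 h0)
  have hxV : ∀ j, x j = -aeval y (V j) / aeval y W := by
    intro j
    rw [eq_div_iff hW, eq_neg_iff_add_eq_zero, mul_comm, add_comm]
    exact hV j
  have hytop : IntermediateField.adjoin E (Set.range y) = ⊤ := by
    rw [eq_top_iff, ← htop, IntermediateField.adjoin_le_iff]
    rintro _ ⟨j, rfl⟩
    rw [SetLike.mem_coe, hxV j]
    have h1 : ∀ g : MvPolynomial (Fin (r + 1)) E₀, aeval y g ∈
        IntermediateField.adjoin E (Set.range y) := by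
      intro g
      have h2 : aeval y (MvPolynomial.map (algebraMap E₀ E) g) ∈
          Algebra.adjoin E (Set.range y) := by
        rw [Algebra.adjoin_range_eq_range_aeval]
        exact ⟨_, rfl⟩
      rw [MvPolynomial.aeval_map_algebraMap] at h2
      exact IntermediateField.algebra_adjoin_le_adjoin _ _ h2
    exact _root_.div_mem (neg_mem (h1 _)) (h1 _)
  have hl : ∀ b, (algebraMap E₀ K (a0 b) + ∑ j, algebraMap E₀ K (a b j) * x j) * aeval y W =
      aeval y (C (a0 b) * W - ∑ j, C (a b j) * V j) := by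
    intro b
    rw [map_sub, map_mul, aeval_C, map_sum, add_mul, Finset.sum_mul, sub_eq_add_neg]
    congr 1
    rw [← Finset.sum_neg_distrib]
    refine Finset.sum_congr rfl fun j _ => ?_
    rw [map_mul, aeval_C]
    have := hV j
    linear_combination (algebraMap E₀ K (a b j)) * this
  obtain ⟨k, Θ, hk, T, I, hT, hI, M, hFr, hM, hΘ, hΘB, hMv⟩ := hh E K
    (FractionRing (MvPolynomial (Fin (r + 1)) E)) h𝒮 hden hE hne hchar y hytop _ rfl hirr hker
    hker0 H h hh0
  refine ⟨k, Θ, hk, T, I, hT, hI, M, hFr, fun b => ?_, hΘ, hΘB, hMv⟩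
  have h1 : algebraMap E₀ K (a0 b) + ∑ j, algebraMap E₀ K (a b j) * x j =
      aeval y (C (a0 b) * W - ∑ j, C (a b j) * V j) * (aeval y W)⁻¹ := by
    rw [← hl b, mul_assoc, mul_inv_cancel₀ hW, mul_one]
  rw [h1]
  exact (hM (some b)).mul (hM none).inv

end main

end Pool.Agent.N98.VG
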