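import Pool.Agent.N98.VG.Fin
import Pool.Agent.N98.SS.Stage

/-!
Stages and the values of the parameters.
-/

set_option autoImplicit false
set_option linter.unusedVariables false
set_option linter.unusedSectionVars false

universe u

namespace Pool.Agent.N98.VG

open IsLocalRing Pool.Agent.W418.LU2 Pool.Agent.H176.DT Pool.Agent.N98.RW

variable {E K : Type u} [Field E] [Field K] [Algebra E K]

lemma fam_br {k K : Type u} [CommRing k] [Field K] [Algebra k K] [IsNoetherianRing k]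
    {𝒱 : Set (ValuationSubring K)} {Ry : Subalgebra k K} {T I : Type} [Fintype I]
    (M : RW.LM 𝒱 (⊥ : Subalgebra k K) Ry T I) {n : ℕ} (F : Fin n → K) (e : Fin n → ℤ)
    (hF : ∀ i, F i ≠ 0 → RW.IsBr M (F i)) (h0 : ∏ i, F i ^ e i ≠ 0) :
    RW.IsBr M (∏ i, F i ^ e i) := by
  rw [Finset.prod_ne_zero_iff] at h0
  refine RW.IsBr.prod _ _ fun i _ => ?_
  by_cases h1 : F i = 0
  · have h2 : e i = 0 := by
      by_contra h2
      apply h0 i (Finset.mem_univ i)
      rw [h1, zero_zpow _ h2]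
    rw [h2, zpow_zero]
    exact RW.IsB.one.br
  · exact (hF i h1).zpow _

/-- **Stages**, with the values of the parameters. -/
theorem exists_stageV {N r : ℕ} (c : Fin (r + 1) → Fin N → K)
    (hcE : ∀ i j, ∃ e : E, algebraMap E K e = c i j) (x : Fin N → K)
    (V : ValuationSubring K)
    (R : Subring E) (hfr : ∀ z : E, ∃ a ∈ R, ∃ b ∈ R, b ≠ 0 ∧ z = a * b⁻¹)
    {J : Type} [Finite J] (S : J → K) (hS0 : ∀ j, S j ≠ 0) (π : E) (hπ0 : π ≠ 0)
    (hπR : π ∈ R)
    (HPr : (K → Prop) → Prop)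
    (hc : ∀ h : Bool → E, (∀ i, h i ≠ 0) →
      ∃ (k : Subring E) (Θ : Set E)
        (_ : (k, Θ) ∈ RW.AdlS (V.comap (algebraMap E K)) R) (T I : Type)
        (_ : Finite T) (_ : Fintype I)
        (M : RW.LM (RW.exV K ({V.comap (algebraMap E K)} : Set (ValuationSubring E)))
          (⊥ : Subalgebra k K) (Algebra.adjoin k
          (Set.range fun i => ∑ j, c i j * x j)) T I), RW.Frc M ∧
        (∀ j, RW.IsBr M (S j)) ∧
        (∀ i, h i ∈ Θ) ∧ (∀ e ∈ Θ, RW.IsBr M (algebraMap E K e)) ∧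
        ∀ Pr : K → Prop, Sat k V Pr → HPr Pr → VG M V Pr)
    (O : Subring K) (hRO : R.map (algebraMap E K) = O) (G : Set K)
    (hG : ∀ z ∈ G, z ≠ 0 → ∃ j, S j = z) (j1 : J) (hj1 : S j1 = 1)
    (A : Subring K) (hAV : A ≤ V.toSubring) (hA : A = Subring.closure ((O : Set K) ∪ G))
    (jx : Fin N → J) (hx : ∀ l, S (jx l) ∈ A ∧ S (jx l) * x l ∈ A) :
    ∃ (T : Set K) (n : ℕ) (X : Fin n → K), St V A T X ∧
      PMon (PP V A T) X (algebraMap E K π) ∧
      ∀ Pr : K → Prop, SatV V Pr → HPr Pr → ∀ i, Pr (X i) := by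
  classical
  have hOA : O ≤ A := by
    rw [hA]
    exact fun a ha => Subring.subset_closure (Or.inl ha)
  have hRA : ∀ c ∈ R, algebraMap E K c ∈ A := by
    intro c hc
    apply hOA
    rw [← hRO]
    exact ⟨c, hc, rfl⟩
  obtain ⟨L, B0, ι, hι, X, Z, hB0V, hL, hreg, hint, hRL, hcmp, hpm, hZL, hZ, hB0Z, hπm, hPr⟩ :=
    lguV_aux c hcE x V R hfr S hS0 π hπ0 HPr hc A hRA jx hx
  have hVL : ∀ j, S j ∈ V → S j ∈ L := by
    intro j hj
    have h1 := hcmp j j1 (by rw [hj1, div_one]; exact hj)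
    rwa [hj1, div_one] at h1
  have hOL : O ≤ L := by
    rw [← hRO]
    rintro _ ⟨c, hc, rfl⟩
    exact hRL c hc
  have hAL : A ≤ L := by
    have h1 : Subring.closure ((O : Set K) ∪ G) ≤ L := by
      rw [Subring.closure_le]
      rintro z (hz | hz)
      · exact hOL hz
      · by_cases h0 : z = 0
        · rw [h0]
          exact L.zero_mem
        · obtain ⟨j, rfl⟩ := hG z hz h0
          refine hVL j (hAV ?_)
          rw [hA]
          exact Subring.subset_closure (Or.inr hz)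
    rwa [← hA] at h1
  have hX0 : ∀ i, X i ≠ 0 := hreg.ne
  have hdZ : ∀ z ∈ (Z : Set K), ∃ β ∈ A, PMon L X β ∧ β * z ∈ A := by
    intro z hz
    obtain ⟨β, hβ, hβm, hzβ⟩ := hZ hAL z hz
    exact ⟨β, hβ, hβm, by rw [mul_comm]; exact hzβ⟩
  have hLV : L ≤ V.toSubring := hreg.PA
  have hCL : Subring.closure ((A : Set K) ∪ Z) ≤ L := by
    rw [Subring.closure_le]
    rintro z (hz | hz)
    · exact hAL hz
    · exact hZL z hz
  have hPP : PP V A (Z : Set K) = L := by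
    apply le_antisymm
    · rintro z ⟨a, ha, b, hb, hb0, hbV, rfl⟩
      have h1 := inv_mem_lo hB0V (by rw [← hL]; exact hCL hb) hb0 hbV
      rw [← hL] at h1
      exact L.mul_mem (hCL ha) h1
    · have h1 : lo V.toSubring B0 ≤ PP V A (Z : Set K) := by
        have hCV : Subring.closure ((A : Set K) ∪ Z) ≤ V.toSubring := hCL.trans hLV
        have h2 : B0 ≤ PP V A (Z : Set K) := fun z hz => hB0Z hz
        rintro z ⟨a, ha, b, hb, hb0, hbV, rfl⟩
        exact Subring.mul_mem _ (h2 ha) (inv_mem_lo hCV (h2 hb) hb0 hbV)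
      rwa [← hL] at h1
  have hdL : ∀ z ∈ L, ∃ β ∈ A, PMon L X β ∧ β * z ∈ A := by
    intro z hz
    rw [← hPP] at hz
    obtain ⟨a, ha, b, hb, hb0, hbV, rfl⟩ := hz
    obtain ⟨β, hβ, hβm, hβa⟩ := SS.den_closure hX0 hdZ a ha
    obtain ⟨γ, hγ, hγm, hγb⟩ := SS.den_closure hX0 hdZ b hb
    have hbL := hCL hb
    have hbL' : b⁻¹ ∈ L := by
      have h1 := inv_mem_lo hB0V (by rw [← hL]; exact hbL) hb0 hbV
      rwa [← hL] at h1
    refine ⟨β * (γ * b), A.mul_mem hβ hγb, hβm.mul hX0 (hγm.mul hX0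
      (PMon.unit hb0 hbL hbL')), ?_⟩
    have e1 : β * (γ * b) * (a * b⁻¹) = β * a * γ := by field_simp
    rw [e1]
    exact A.mul_mem hβa hγ
  obtain ⟨β, hβ, hβm, hβT⟩ := exists_den (A := A) (P := L) hX0
    (Z.finite_toSet.union (Set.finite_range X)) (by
      rintro z (hz | ⟨i, rfl⟩)
      · exact hdZ z hz
      · exact hdL _ (hreg.mem i))
  let e' : Fin (Fintype.card ι) ≃ ι := (Fintype.equivFin ι).symm
  refine ⟨Z, Fintype.card ι, fun k => X (e' k), ⟨Z.finite_toSet, ?_, β, hβ, ?_,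
    fun t ht => hβT t (Or.inl ht), fun i => hβT _ (Or.inr ⟨_, rfl⟩)⟩, ?_, fun Pr h1 h2 i =>
      hPr Pr h1 h2 _⟩
  · rw [hPP]
    exact Pool.Agent.Y67.DT.regP_comp hreg e' e'.injective
  · rw [hPP]
    exact SS.pmon_equiv e' hβm
  · rw [hPP]
    exact SS.pmon_equiv e' (hπm (hRL π hπR))

end Pool.Agent.N98.VG
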