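import Pool.Agent.N98.VG.P1
import Pool.Agent.N98.RW.TnF

/-!
Families of polynomials of bounded degree: the values of the local equations lie in a group which
does not depend on the extension of the field of coefficients.
-/

set_option autoImplicit false
set_option linter.unusedVariables false
set_option linter.unusedSimpArgs false
set_option linter.unusedSectionVars false

universe u

open scoped IntermediateField.algebraAdjoinAdjoin

open Polynomial Pool.Agent.N98

namespace Pool.Agent.N98.VG

open Pool.Agent.N98.RV Pool.Agent.N98.RW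

section main

lemma aeval_fse' {E E' K : Type u} [Field E] [Field E'] [Field K] [Algebra E E'] [Algebra E K]
    [Algebra E' K] [IsScalarTower E E' K] {n : ℕ} (x : Fin (n + 1) → K)
    (P : MvPolynomial (Fin (n + 1)) E) :
    Polynomial.aeval (x 0) ((MvPolynomial.finSuccEquiv E n P).map
      ((MvPolynomial.aeval (tl E' x) : MvPolynomial (Fin n) E →ₐ[E] LF (E := E') x) :
        MvPolynomial (Fin n) E →+* LF (E := E') x)) = MvPolynomial.aeval x P := by
  have hst : IsScalarTower E (LF (E := E') x) K := IsScalarTower.of_algebraMap_eq fun r => rfl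
  let ψ : MvPolynomial (Fin (n + 1)) E →ₐ[E] K :=
    ((Polynomial.aeval (x 0) : (LF (E := E') x)[X] →ₐ[LF (E := E') x] K).restrictScalars E).comp
      ((Polynomial.mapAlgHom (MvPolynomial.aeval (tl E' x) :
        MvPolynomial (Fin n) E →ₐ[E] LF (E := E') x)).comp
        (MvPolynomial.finSuccEquiv E n).toAlgHom)
  have h : ψ = MvPolynomial.aeval x := by
    apply MvPolynomial.algHom_ext
    intro i
    rw [MvPolynomial.aeval_X]
    change Polynomial.aeval (x 0) ((MvPolynomial.finSuccEquiv E n (MvPolynomial.X i)).map _) = _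
    refine Fin.cases ?_ (fun i => ?_) i
    · rw [MvPolynomial.finSuccEquiv_X_zero, Polynomial.map_X, Polynomial.aeval_X]
    · rw [MvPolynomial.finSuccEquiv_X_succ, Polynomial.map_C, Polynomial.aeval_C]
      change algebraMap (LF (E := E') x) K (MvPolynomial.aeval (tl E' x) (MvPolynomial.X i)) = _
      rw [MvPolynomial.aeval_X]
      rfl
  exact congrArg (fun f : MvPolynomial (Fin (n + 1)) E →ₐ[E] K => f P) h

variable (E : Type u) [Field E] [CharZero E]

/-- **Families of polynomials of bounded degree.** -/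
theorem tnV : ∀ (n D : ℕ), 1 ≤ D →
    ∀ (B : Type) [Finite B] (P : B → MvPolynomial (Fin n) E), (∀ b, P b ≠ 0) →
    (∀ b, (P b).totalDegree ≤ D) →
    ∃ S : Set (MvPolynomial (Fin n) E), S.Finite ∧ (∀ q ∈ S, q ≠ 0) ∧
    ∀ (E' : Type u) [Field E'] [Algebra E E']
    {𝒮 : Set (Subring E' × Set E')} (_ : ∀ k Θ, (k, Θ) ∈ 𝒮 → IsNoetherianRing k)
    {𝒲 : Set (ValuationSubring E')} (_ : HasF 𝒮 𝒲)
    (_ : n ≠ 0 → ∀ (k : Subring E') (Θ : Set E'), (k, Θ) ∈ 𝒮 →
      IsUnit ((Nat.factorial (D ^ 2 ^ (n - 1)) : ℕ) : k))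
    (K : Type u) [Field K] [Algebra E K] [Algebra E' K] [IsScalarTower E E' K]
    (_ : (exV K 𝒲).Nonempty) (x : Fin n → K),
    AlgebraicIndependent E' x → IntermediateField.adjoin E' (Set.range x) = ⊤ →
    ∀ (C : Type) [Finite C] (h : C → E'), (∀ c, h c ≠ 0) →
    ∃ (k : Subring E') (Θ : Set E') (_ : (k, Θ) ∈ 𝒮) (T I : Type) (_ : Finite T) (_ : Fintype I)
      (M : LM (exV K 𝒲) (⊥ : Subalgebra k K) (Algebra.adjoin k (Set.range x)) T I),
      Frc M ∧ (∀ b, RW.IsBr M (MvPolynomial.aeval x (P b))) ∧
      (∀ c, h c ∈ Θ) ∧ (∀ e ∈ Θ, RW.IsBr M (algebraMap E' K e)) ∧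
      (∀ (V : ValuationSubring K) (Pr : K → Prop), Sat k V Pr →
        (∀ q ∈ S, Pr (MvPolynomial.aeval x q)) → (∀ e : E', e ≠ 0 → Pr (algebraMap E' K e)) →
        VG M V Pr) ∧
      ∀ t, (∀ e : E', ∃ a b : E', algebraMap E' K a ∈ M.A t ∧ algebraMap E' K b ∈ M.A t ∧ b ≠ 0 ∧
        e = a * b⁻¹) ∧ ∀ i, x i ∈ M.A t ∨ (x i)⁻¹ ∈ M.A t := by
  classical
  intro n
  induction n with
  | zero =>
    intro D hD B _ P hP hdeg
    refine ⟨∅, Set.finite_empty, fun q hq => absurd hq (Set.notMem_empty q), ?_⟩
    intro E' _ _ 𝒮 h𝒮 𝒲 hE _ K _ _ _ _ hne x hx htop C _ h hh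
    have := Fintype.ofFinite B
    have := Fintype.ofFinite C
    have hPC : ∀ b, P b = MvPolynomial.C ((P b).coeff 0) := fun b =>
      MvPolynomial.eq_C_of_isEmpty _
    have h0 : ∀ b, algebraMap E E' ((P b).coeff 0) ≠ 0 := by
      intro b h
      apply hP b
      rw [hPC b, (map_eq_zero _).1 h, map_zero]
    obtain ⟨k, Θ, hk, T, I, hT, hI, M, hΘ, hF, hfr⟩ :=
      hE (B ⊕ C) (Sum.elim (fun b => algebraMap E E' ((P b).coeff 0)) h) (by
        rintro (b | c)
        · exact h0 b
        · exact hh c)
    have hst : IsScalarTower k E' K := IsScalarTower.of_algebraMap_eq fun r => rfl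
    have hsurj : ∀ y : K, ∃ e : E', algebraMap E' K e = y := by
      intro y
      have hy : y ∈ IntermediateField.adjoin E' (Set.range x) := by rw [htop]; trivial
      have : Set.range x = ∅ := Set.range_eq_empty x
      rw [this, IntermediateField.adjoin_empty, IntermediateField.mem_bot] at hy
      exact hy
    have hR : ∀ a ∈ (⊥ : Subalgebra k E'), em k E' K a ∈ Algebra.adjoin k (Set.range x) := by
      intro a ha
      obtain ⟨c, rfl⟩ := Algebra.mem_bot.1 ha
      rw [AlgHom.commutes]
      exact Subalgebra.algebraMap_mem _ c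
    refine ⟨k, Θ, hk, T, I, hT, hI, mapLM (𝒲 := 𝒲) hR hne (fun V hV => hV) M, ?_, ?_,
      fun c => hΘ (Sum.inr c), fun e he => RW.isBr_map (𝒲 := 𝒲) hR hne (fun V hV => hV) (hF e he).br,
      ?_, fun t => ⟨?_, fun i => i.elim0⟩⟩
    · intro t y
      obtain ⟨e, rfl⟩ := hsurj y
      obtain ⟨a, ha, b, hb, hb0, rfl⟩ := hfr t e
      exact ⟨algebraMap E' K a, ⟨a, ha, rfl⟩, algebraMap E' K b, ⟨b, hb, rfl⟩,
        (_root_.map_ne_zero _).2 hb0, by rw [map_mul, map_inv₀]⟩
    · intro b
      rw [hPC b, MvPolynomial.aeval_C, IsScalarTower.algebraMap_apply E E' K]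
      exact RW.isBr_map (𝒲 := 𝒲) hR hne (fun V hV => hV) (RW.IsB.br (hF _ (hΘ (Sum.inl b))))
    · intro V Pr hPr _ hc t ht i
      exact hc (M.x t i) (M.x0 t i)
    · intro e
      obtain ⟨a, ha, b, hb, hb0, he⟩ := hfr t e
      exact ⟨a, b, ⟨a, ha, rfl⟩, ⟨b, hb, rfl⟩, hb0, he⟩
  | succ n ih =>
    intro D hD B _ P hP hdeg
    let R0 := MvPolynomial (Fin n) E
    have hle : D ≤ D ^ 2 ^ n := Nat.le_self_pow (by positivity) D
    have hle2 : D ≤ D ^ 2 := Nat.le_self_pow (by norm_num) D
    -- the family, closed under derivatives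
    let G0 : B → R0[X] := fun b => MvPolynomial.finSuccEquiv E n (P b)
    have hG0 : ∀ b, G0 b ≠ 0 := by
      intro b h
      apply hP b
      exact (MvPolynomial.finSuccEquiv E n).injective (h.trans (map_zero _).symm)
    have hG0T : ∀ b, TD D (G0 b) := by
      intro b i hi
      exact (MvPolynomial.totalDegree_coeff_finSuccEquiv_add_le (P b) i hi).trans (hdeg b)
    let BB : Type := Bool ⊕ (B × Fin (D + 1))
    let G : BB → R0[X] := Sum.elim (fun e => if e then X else 1)
      (fun q => derivative^[min q.2.val (G0 q.1).natDegree] (G0 q.1))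
    have hGX : G (Sum.inl true) = X := rfl
    have hG1 : G (Sum.inl false) = 1 := rfl
    have hGb : ∀ b (j : Fin (D + 1)), G (Sum.inr (b, j)) =
      derivative^[min j.val (G0 b).natDegree] (G0 b) := fun _ _ => rfl
    have hGne : ∀ β, G β ≠ 0 := by
      rintro ((_ | _) | ⟨b, j⟩)
      · rw [hG1]; exact one_ne_zero
      · rw [hGX]; exact X_ne_zero
      · rw [hGb]
        exact Pool.Agent.N98.iter_ne_zero (k := E) (D := D)
          (Nat.cast_ne_zero.2 (Nat.factorial_ne_zero D)) (hG0 b) (hG0T b).natDegree _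
          (min_le_right _ _)
    have hGT : ∀ β, TD D (G β) := by
      rintro ((_ | _) | ⟨b, j⟩)
      · rw [hG1]
        intro i hi
        rw [coeff_one] at hi ⊢
        split_ifs at hi ⊢ with h
        · rw [MvPolynomial.totalDegree_one]
          omega
        · exact absurd rfl hi
      · rw [hGX]
        intro i hi
        rw [coeff_X] at hi ⊢
        split_ifs at hi ⊢ with h
        · rw [MvPolynomial.totalDegree_one]
          omega
        · exact absurd rfl hi
      · rw [hGb]
        exact (hG0T b).iter _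
    -- the family over the base
    let CC : Type := BB ⊕ (BB × BB × Fin (D + 1))
    let H0 : CC → R0 := Sum.elim (fun β => (G β).coeff 0)
      (fun q => (chi (G q.1) (G q.2.1)).coeff q.2.2)
    let H : CC → R0 := fun c => if H0 c ≠ 0 then H0 c else 1
    have hH1 : ∀ c, H0 c ≠ 0 → H c = H0 c := fun c hc => if_pos hc
    have hHne : ∀ c, H c ≠ 0 := by
      intro c
      by_cases h : H0 c ≠ 0
      · rw [hH1 c h]; exact h
      · have : H c = 1 := if_neg h
        rw [this]; exact one_ne_zero
    have hHT : ∀ c, (H c).totalDegree ≤ D ^ 2 := by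
      intro c
      by_cases h : H0 c ≠ 0
      · rw [hH1 c h]
        rcases c with β | ⟨β, β', j⟩
        · have h1 := hGT β 0 h
          change ((G β).coeff 0).totalDegree ≤ D ^ 2
          omega
        · exact totalDegree_chi (hGT β) (hGT β') _ h
      · have : H c = 1 := if_neg h
        rw [this, MvPolynomial.totalDegree_one]
        exact Nat.zero_le _
    have hBf : Finite BB := inferInstance
    obtain ⟨S0, hS0f, hS0, ih'⟩ := ih (D ^ 2) (Nat.one_le_pow _ _ hD) CC H hHne hHT
    refine ⟨(MvPolynomial.rename Fin.succ) '' S0 ∪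
      Set.range (fun β => (MvPolynomial.finSuccEquiv E n).symm (G β)), ?_, ?_, ?_⟩
    · exact (hS0f.image _).union (Set.finite_range _)
    · rintro _ (⟨q, hq, rfl⟩ | ⟨β, rfl⟩)
      · intro h
        exact hS0 q hq (MvPolynomial.rename_injective _ (Fin.succ_injective n)
          (h.trans (map_zero _).symm))
      · intro h
        exact hGne β ((MvPolynomial.finSuccEquiv E n).symm.injective (h.trans (map_zero _).symm))
    intro E' _ _ 𝒮 h𝒮 𝒲 hE hchar K _ _ _ _ hne x hx htop C _ h hh
    have hchar' := hchar (Nat.succ_ne_zero n)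
    rw [Nat.add_sub_cancel] at hchar'
    let L := LF (E := E') x
    let φ : R0 →ₐ[E] L := MvPolynomial.aeval (tl E' x)
    have hφ : Function.Injective φ := (tl_ind hx).restrictScalars (algebraMap E E').injective
    have hφ' : Function.Injective (φ : R0 →+* L) := hφ
    have hDf : ∀ (k : Subring E') (Θ : Set E'), (k, Θ) ∈ 𝒮 →
        IsUnit ((Nat.factorial D : ℕ) : k) := by
      intro k Θ hk
      have hchar'' := hchar' k Θ hk
      obtain ⟨m, hm⟩ := Nat.factorial_dvd_factorial hle
      rw [hm, Nat.cast_mul] at hchar''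
      exact isUnit_of_mul_isUnit_left hchar''
    let F : BB → L[X] := fun β => (G β).map (φ : R0 →+* L)
    have hFn : ∀ β, (F β).natDegree = (G β).natDegree := fun β =>
      natDegree_map_eq_of_injective hφ' _
    obtain ⟨k, Θ, hk, T, I, hT, hI, M, hFr, hMb, hΘ, hΘB, hMv, hMd⟩ := ih' E' h𝒮 hE (by
      intro hn
      obtain ⟨m, rfl⟩ := Nat.exists_eq_succ_of_ne_zero hn
      rw [Nat.succ_eq_add_one, Nat.add_sub_cancel, ← pow_mul, ← pow_succ']
      exact hchar') L ⟨_, exV_comap hne.some_mem⟩ (tl E' x) (tl_ind hx) (tl_top x) C h hh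
    have hkn := h𝒮 k Θ hk
    have hs1 : IsScalarTower k E' L := IsScalarTower.of_algebraMap_eq fun r => rfl
    have hs2 : IsScalarTower k L K := IsScalarTower.of_algebraMap_eq fun r => rfl
    have hR : ∀ a ∈ Algebra.adjoin k (Set.range (tl E' x)), em k L K a ∈
        Algebra.adjoin k (Set.range x) := by
      intro a ha
      induction ha using Algebra.adjoin_induction with
      | mem a ha =>
        obtain ⟨i, rfl⟩ := ha
        exact Algebra.subset_adjoin ⟨i.succ, rfl⟩
      | algebraMap c => rw [AlgHom.commutes]; exact Subalgebra.algebraMap_mem _ c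
      | add a b _ _ ha hb => rw [map_add]; exact Subalgebra.add_mem _ ha hb
      | mul a b _ _ ha hb => rw [map_mul]; exact Subalgebra.mul_mem _ ha hb
    obtain ⟨T', I', hT', hI', M', hFr', hMb', hMP', hMd', hMv'⟩ := p1V hR hne
      (fun V hV => exV_comap hV) M
      hFr (x 0) (Algebra.subset_adjoin ⟨0, rfl⟩) (hd_tr hx) (hd_top htop) D
      (hDf k Θ hk) ((Set.range fun c => φ (H c)) ∪ algebraMap E' L '' Θ) (by
        rintro _ (⟨c, rfl⟩ | ⟨e, he, rfl⟩)
        · exact hMb c
        · exact hΘB e he) F (fun β => (Polynomial.map_ne_zero_iff hφ').2 (hGne β))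
      (fun β => by rw [hFn]; exact (hGT β).natDegree)
      (by
        rintro ((_ | _) | ⟨b, j⟩) h1
        · exfalso
          rw [hFn, hG1, natDegree_one] at h1
          omega
        · refine ⟨Sum.inl false, ?_⟩
          change (G (Sum.inl false)).map (φ : R0 →+* L) =
            derivative ((G (Sum.inl true)).map (φ : R0 →+* L))
          rw [hG1, hGX, Polynomial.map_one, Polynomial.map_X, derivative_X]
        · rw [hFn, hGb] at h1
          have h2 := natDegree_iterate_derivative (G0 b) (min j.val (G0 b).natDegree)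
          have h3 : j.val < (G0 b).natDegree := by omega
          have h4 := (hG0T b).natDegree
          refine ⟨Sum.inr (b, ⟨j.val + 1, by omega⟩), ?_⟩
          change (G (Sum.inr (b, ⟨j.val + 1, by omega⟩))).map (φ : R0 →+* L) =
            derivative ((G (Sum.inr (b, j))).map (φ : R0 →+* L))
          rw [hGb, hGb, derivative_map]
          simp only
          rw [min_eq_left h3.le, min_eq_left (show j.val + 1 ≤ (G0 b).natDegree by omega),
            Function.iterate_succ_apply'])
      ⟨Sum.inl true, by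
        change (G (Sum.inl true)).map (φ : R0 →+* L) = X
        rw [hGX, Polynomial.map_X]⟩
      (by
        intro β hβ
        rw [hFn] at hβ
        have h1 : (G β).coeff 0 ≠ 0 := by
          intro h2
          apply hGne β
          rw [eq_C_of_natDegree_eq_zero hβ, h2, map_zero]
        refine Or.inl ⟨Sum.inl β, ?_⟩
        change φ (H (Sum.inl β)) = ((G β).map (φ : R0 →+* L)).coeff 0
        rw [coeff_map, hH1 (Sum.inl β) h1]
        rfl)
      (by
        intro β β' hβ
        rw [hFn] at hβ
        refine ⟨(chi (G β) (G β')).map (φ : R0 →+* L),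
          (Polynomial.map_ne_zero_iff hφ').2 (chi_ne_zero _ _ (hGne β)), ?_, ?_, ?_⟩
        · exact natDegree_map_le.trans ((natDegree_chi _ _).trans (hGT β).natDegree)
        · change (G β).map (φ : R0 →+* L) ∣ ((chi (G β) (G β')).map (φ : R0 →+* L)).comp
            ((G β').map (φ : R0 →+* L))
          rw [← Polynomial.map_comp]
          exact Polynomial.map_dvd _ (dvd_chi _ _ (by omega))
        · intro j hj
          rw [coeff_map] at hj ⊢
          have h1 : (chi (G β) (G β')).coeff j ≠ 0 := fun h => hj (by rw [h, map_zero])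
          have h2 : j ≤ D := by
            have h3 := le_natDegree_of_ne_zero h1
            have h4 := natDegree_chi (G β) (G β')
            have h5 := (hGT β).natDegree
            omega
          refine Or.inl ⟨Sum.inr (β, β', ⟨j, by omega⟩), ?_⟩
          change φ (H (Sum.inr (β, β', ⟨j, _⟩))) = φ ((chi (G β) (G β')).coeff j)
          rw [hH1 (Sum.inr (β, β', ⟨j, by omega⟩)) h1]
          rfl)
    refine ⟨k, Θ, hk, T', I', hT', hI', M', hFr', ?_, hΘ, fun e he => hMP' _ (Or.inr ⟨e, he, rfl⟩),
      ?_, ?_⟩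
    · intro b
      have h1 := hMb' (Sum.inr (b, ⟨0, by omega⟩))
      have h2 : F (Sum.inr (b, ⟨0, by omega⟩)) = (G0 b).map (φ : R0 →+* L) := by
        change (G (Sum.inr (b, ⟨0, by omega⟩))).map (φ : R0 →+* L) = _
        rw [hGb]
        simp only
        rw [Nat.zero_min, Function.iterate_zero_apply]
      rw [h2] at h1
      rw [← aeval_fse' (E' := E') x (P b)]
      exact h1
    · intro V Pr hPr hq hc
      have hsat : Sat k (V.comap (algebraMap L K)) (fun g => Pr (algebraMap L K g)) := by
        refine ⟨?_, ?_, ?_, ?_⟩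
        · intro u hu hu1 hu2
          refine hPr.unit _ ((_root_.map_ne_zero _).2 hu) hu1 ?_
          rw [← map_inv₀]
          exact hu2
        · intro a b ha hb
          rw [map_mul]
          exact hPr.mul _ _ ha hb
        · intro a ha
          rw [map_inv₀]
          exact hPr.inv _ ha
        · intro a N hN ha0 ha
          refine hPr.root _ N hN ((_root_.map_ne_zero _).2 ha0) ?_
          rw [← map_pow]
          exact ha
      refine hMv' V Pr hPr ?_ (hMv _ _ hsat ?_ ?_)
      · intro β
        have h1 := hq _ (Or.inr ⟨β, rfl⟩)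
        rw [← aeval_fse' (E' := E') x, AlgEquiv.apply_symm_apply] at h1
        exact h1
      · intro q hqS
        have h1 := hq _ (Or.inl ⟨q, hqS, rfl⟩)
        rw [MvPolynomial.aeval_rename] at h1
        have h2 : algebraMap L K (MvPolynomial.aeval (tl E' x) q) =
            MvPolynomial.aeval (x ∘ Fin.succ) q := by
          have hst : IsScalarTower E L K := IsScalarTower.of_algebraMap_eq fun r => rfl
          have h3 : (x ∘ Fin.succ) = algebraMap L K ∘ (tl E' x) := rfl
          rw [h3, MvPolynomial.aeval_algebraMap_apply]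
        rw [h2]
        exact h1
      · intro e he
        exact hc e he
    · intro t'
      obtain ⟨hz, t, ht⟩ := hMd' t'
      obtain ⟨hd1, hd2⟩ := hMd t
      have hm : ∀ a : L, a ∈ M.A t → algebraMap L K a ∈ M'.A t' := fun a ha => ht ⟨a, ha, rfl⟩
      refine ⟨?_, ?_⟩
      · intro e
        obtain ⟨a, b, ha, hb, hb0, he⟩ := hd1 e
        refine ⟨a, b, ?_, ?_, hb0, he⟩
        · exact hm _ ha
        · exact hm _ hb
      · intro i
        refine Fin.cases hz (fun i => ?_) i
        rcases hd2 i with h | h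
        · exact Or.inl (hm _ h)
        · right
          have h1 := hm _ h
          rw [map_inv₀] at h1
          exact h1

end main

end Pool.Agent.N98.VG
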